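import Pool.Agent.Helper16.SD.Defs

/-!
# Project SD (MP_fc6b1e_nt): characters whose field is not a CM field
-/

set_option autoImplicit false

namespace Pool.Agent.Helper16.SD

open Pool.Agent.Helper38.FD (Chr)

/-- `χ` is not invariant under complex conjugation `c`: there is `g ∈ Gal(Ω/K)` with `χ(c g c⁻¹) ≠ χ(g)`
(`g' = c g c⁻¹`, where `ι_∞ (c x)` is the complex conjugate of `ι_∞ x`). For a CM field `K` this means that the field
of `χ` is not a CM field. -/
def NC {p : ℕ} [Fact p.Prime] {K : Type} [Field K] (ιinf : AlgebraicClosure K →+* ℂ)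
    (χ : Chr K (AlgebraicClosure K) ℂ_[p]) : Prop :=
  ∃ g g' : AlgebraicClosure K ≃ₐ[K] AlgebraicClosure K,
    (∀ x y : AlgebraicClosure K, ιinf y = starRingEnd ℂ (ιinf x) →
      ιinf (g' y) = starRingEnd ℂ (ιinf (g x))) ∧ χ g' ≠ χ g

end Pool.Agent.Helper16.SD
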