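import Pool.Agent.Helper16.SD.GoalsS
import Pool.Agent.Helper16.SD.DefsN

/-!
# Project SD (MP_fc6b1e_nt): the goals of part N (`S_RANK` for all the characters with a non-CM field)

The hypothesis `Moved` of `S_RANK` is replaced by the weaker `NC`: the element `g` need not be trivial on the conjugates of
`K`. Every goal is a small change of a landed file (named in the docstring).
-/

set_option autoImplicit false

namespace Pool.Agent.Helper16.SD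

open NumberField Module IsDedekindDomain TensorProduct
open Pool.Agent.Helper51.SigLeo Pool.Agent.Helper51.RP Pool.Agent.Helper51.REC
open Pool.Agent.Helper38.FD (Chr CutsOut LeopoldtFor)
open Pool.Agent.Helper38.FW (InDec)
open Pool.Agent.Helper38.TH (IsTower Hat)
open Pool.Agent.Helper17.TH (ug exO tm)

/-- **S_RANKN**: `S_RANK` with `NC` in the place of `Moved`. -/
def S_RANKN : Prop :=
  ∀ (p : ℕ) [Fact p.Prime] (F₀ K : Type) [Field F₀] [NumberField F₀] [IsTotallyReal F₀] [Field K]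
    [NumberField K] [IsTotallyComplex K] [Algebra F₀ K], finrank F₀ K = 2 →
  ∀ (ιinf : AlgebraicClosure K →+* ℂ) (ιp : AlgebraicClosure K →+* ℂ_[p]) (Lg : IwasawaLog p ℂ_[p])
    (F : IntermediateField K (AlgebraicClosure K)) [NumberField F] [IsGalois K F]
    (χ : Chr K (AlgebraicClosure K) ℂ_[p]), (∀ g, (∀ x ∈ F, g x = x) → χ g = 1) → χ ≠ 1 →
    finrank ℂ_[p] (chiPart F χ) = finrank ℚ F₀ ∧
    (NC ιinf χ → ∀ T : Finset (K →+* ℂ_[p]),
      (T.card + finrank ℚ F₀) * kd Lg F χ T ≤ finrank ℚ F₀ ^ 2)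

/-- **N_HALF** (the plus part is half of `V`; new proof, by a trace).

PROOF. `ρ = rho m` is a homomorphism (`rho_mul`, `rho_one` in `Pool/Agent/Helper44/SD/ST_HALF.lean`). Let `N` be the set of the `n ∈ Γ` which act trivially on `I`; `ρ(n)` is the diagonal operator with entries `m n j` (`rho_diag`). For `i ∈ I` let `B_i = {j : m n j = m n i for all n ∈ N}` and `P_i` the coordinate projection onto `B_i`. (1) *`P_i` maps `V` to `V`:* for every `j ∉ B_i` choose `n_j ∈ N` with `m n_j j ≠ m n_j i`; `P_i` is the product over the `j ∉ B_i` of the operators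
`(m n_j i - m n_j j)⁻¹ (ρ(n_j) - m n_j j)`, each of which maps `V` to `V` (check on the coordinates: on a coordinate `k ∈ B_i` every factor is `1`, on a coordinate `k ∉ B_i` the factor `j = k` is `0`). (2) Let `g` be as in the hypothesis for `i`. *`g` maps `B_i` to `B_i`:* for `j ∈ B_i`, `n ∈ N`: `m n (g j) = m (g⁻¹ n g) j` (cocycle identity for `n g = g (g⁻¹ n g)`; the values commute), and `= m (g⁻¹ n g) i = m n (g i) = m n i`. The same for `g⁻¹`. So `ρ(g) P_i = P_i ρ(g)`.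
(3) `z = g c g⁻¹ c⁻¹ ∈ N` (`c` commutes with the action), and `P_i ρ(z) = m z i P_i`. `z = g (c g⁻¹ c⁻¹)`, and `c g⁻¹ c⁻¹`, `c g c⁻¹` fix `i`, so `m z i = m g i (m (c g c⁻¹) i)⁻¹ ≠ 1`. (4) `ρ(g) P_i ρ(c) ρ(g)⁻¹ = P_i ρ(g c g⁻¹) = P_i ρ(z) ρ(c) = m z i P_i ρ(c)`; all these operators map `V` to `V`; taking traces on `V`: `tr(P_i ρ(c)) = m z i tr(P_i ρ(c))`, so `tr(P_i ρ(c)) = 0`. (5) `∑_i |B_i|⁻¹ P_i = 1` (a coordinate `j` is in `B_i` for exactly the `i ∈ B_j`, and `B_i = B_j` for these), so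
`tr_V ρ(c) = 0`. `ρ(c)² = ρ(c c) = 1`; `V` is the direct sum of the eigenspaces of `ρ(c)` for `1` and `-1` (characteristic `0`), `tr_V ρ(c) = dim V⁺ - dim V⁻` (or: `(1 + ρ(c))/2` is a projection of `V` onto `V⁺`, of trace `dim V/2`: `LinearMap.IsProj.trace`), so `dim V = 2 dim V⁺`. -/
def N_HALF : Prop := ∀ (E I Γ : Type) [Field E] [CharZero E] [Fintype I] [DecidableEq I] [Group Γ]
  [MulAction Γ I] (m : Γ → I → Eˣ), IsCoc m → ∀ c : Γ, c * c = 1 →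
  (∀ (γ : Γ) (i : I), c • γ • i = γ • c • i) →
  (∀ i : I, ∃ g : Γ, g • i = i ∧ m g i ≠ m (c * g * c⁻¹) i) →
  ∀ V : Submodule E (I → E), (∀ γ, ∀ v ∈ V, rho m γ v ∈ V) →
    finrank E V = 2 * finrank E (V ⊓ fixL (rho m c) : Submodule E (I → E))

/-- **N_ST** (the structure theorem). Prove `ST_AVG → N_HALF → ST_PAIR → N_ST`; the proof of `ST` (`Pool/Agent/Helper35/SD/ST.lean`) with `N_HALF` in the place of `ST_HALF`. -/
def N_ST : Prop := ∀ (E I Γ : Type) [Field E] [CharZero E] [Fintype I] [DecidableEq I] [Group Γ]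
  [MulAction Γ I] (m : Γ → I → Eˣ), IsCoc m → (∀ i j : I, ∃ γ : Γ, γ • i = j) →
  ∀ c : Γ, c * c = 1 → (∀ (γ : Γ) (i : I), c • γ • i = γ • c • i) →
  (∀ i : I, ∃ g : Γ, g • i = i ∧ m g i ≠ m (c * g * c⁻¹) i) →
  ∀ (ε : E →+* ℂ) (d : ℕ) (α : Fin d → I → ℂ), Fintype.card I = 2 * d →
  (∀ z : I → ℂ, (∀ r, ∑ i, z i * α r i = 0) → ∀ i, z i + ε (m c (c • i) : Eˣ) * z (c • i) = 0) →
  ∀ (A : Finset I) (C : Submodule E (I → E)), C ≤ supp E A →
    d * finrank E C ≤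
      A.card * (d - finrank E (annA ε α {w : I → E | ∃ γ, ∃ v ∈ C, w = rho m γ v}))

/-- **N_MVD** (the hypothesis of `N_HALF` from `NC`). Prove `A_TRV → A_CM → N_MVD`; compare `Pool/Agent/Helper60/SD/A_MVD.lean`.

PROOF. Let `m γ σ = χ'(h γ σ)`, a cocycle with values in a commutative group, `σ₀ = algebraMap K Ω`, `g`, `g'` as in `NC`; `g' = c g c⁻¹` (condition with `y = c x`). `g σ₀ = σ₀`, `g' σ₀ = σ₀`, `m g σ₀ = χ'(g|F)`, `m g' σ₀ = χ'(g'|F)` (as in the proof of `A_MVD`), so `m g σ₀ ≠ m (c g c⁻¹) σ₀`. Let `i = γ σ₀` (`A_TRV`), `g_i = γ g γ⁻¹`, `g_i i = i`. For `x` fixing `σ₀`: `m (γ x γ⁻¹) (γ σ₀) = m γ σ₀ · m x σ₀ · m γ⁻¹ (γ σ₀) = m x σ₀`. So `m g_i i = m g σ₀`.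
By `A_CM`, `c` commutes with the action: `c γ τ = γ c τ` for all embeddings `τ` (`c τ = τ ∘ J` for all `τ`). So `w = γ⁻¹ c γ c⁻¹` acts trivially on the embeddings, `c γ = γ w c`, and `c g_i c⁻¹ = γ (w c g c⁻¹ w⁻¹) γ⁻¹`; so `m (c g_i c⁻¹) i = m (w (c g c⁻¹) w⁻¹) σ₀ = m (c g c⁻¹) σ₀` (`w` fixes `σ₀`; commutative values). -/
def N_MVD : Prop := ∀ (F₀ K : Type) [Field F₀] [NumberField F₀] [IsTotallyReal F₀] [Field K]
  [NumberField K] [IsTotallyComplex K] [Algebra F₀ K], finrank F₀ K = 2 →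
  ∀ (p : ℕ) [Fact p.Prime] (ιinf : AlgebraicClosure K →+* ℂ)
    (c : AlgebraicClosure K ≃+* AlgebraicClosure K), c * c = 1 →
    (∀ x, ιinf (c x) = starRingEnd ℂ (ιinf x)) →
  ∀ (F : IntermediateField K (AlgebraicClosure K)) [NumberField F] [IsGalois K F]
    (χ : Chr K (AlgebraicClosure K) ℂ_[p]), NC ιinf χ →
  ∀ (E : Type) [Field E] (j : E →+* ℂ_[p]) (χ' : (F ≃ₐ[K] F) →* Eˣ),
    (∀ g, j (χ' (AlgEquiv.restrictNormalHom F g) : Eˣ) = ((χ g : ℂ_[p]ˣ) : ℂ_[p])) →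
  ∀ (s : (K →+* AlgebraicClosure K) → (F →+* AlgebraicClosure K))
    (h : (AlgebraicClosure K ≃+* AlgebraicClosure K) → (K →+* AlgebraicClosure K) → (F ≃ₐ[K] F)),
    (∀ σ, (s σ).comp (algebraMap K F) = σ) →
    (∀ (γ : AlgebraicClosure K ≃+* AlgebraicClosure K) σ (x : F),
      γ (s σ x) = s (γ • σ) (h γ σ x)) →
    (∀ γ δ σ, h (γ * δ) σ = h γ (δ • σ) * h δ σ) →
  (∀ (γ : AlgebraicClosure K ≃+* AlgebraicClosure K) (i : K →+* AlgebraicClosure K),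
    c • γ • i = γ • c • i) ∧
  ∀ i : K →+* AlgebraicClosure K, ∃ g : AlgebraicClosure K ≃+* AlgebraicClosure K,
    g • i = i ∧ χ' (h g i) ≠ χ' (h (c * g * c⁻¹) i)

/-- **N_MAT** (rank of the `p`-adic matrix). Prove `A_TRV → S_RK → N_ST → N_MAT`; the proof of `R_MAT` (`Pool/Agent/Helper30/SD/R_MAT.lean`) with `N_ST` in the place of `ST`. -/
def N_MAT : Prop := ∀ (F₀ K : Type) [Field F₀] [NumberField F₀] [IsTotallyReal F₀]
  [Field K] [NumberField K] [IsTotallyComplex K] [Algebra F₀ K], finrank F₀ K = 2 →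
  ∀ (p : ℕ) [Fact p.Prime] (ιinf : AlgebraicClosure K →+* ℂ) (ιp : AlgebraicClosure K →+* ℂ_[p])
    (Lg : IwasawaLog p ℂ_[p]) (c : AlgebraicClosure K ≃+* AlgebraicClosure K), c * c = 1 →
    (∀ (γ : AlgebraicClosure K ≃+* AlgebraicClosure K) (i : K →+* AlgebraicClosure K),
      c • γ • i = γ • c • i) →
  ∀ (F : Type) [Field F] [NumberField F] [Algebra K F] [IsGalois K F] [Fintype (F ≃ₐ[K] F)]
    (E : Type) [Field E] [NumberField E] (lam : E →+* AlgebraicClosure K)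
    (χ' : (F ≃ₐ[K] F) →* Eˣ)
    (s : (K →+* AlgebraicClosure K) → (F →+* AlgebraicClosure K))
    (h : (AlgebraicClosure K ≃+* AlgebraicClosure K) → (K →+* AlgebraicClosure K) → (F ≃ₐ[K] F)),
    (∀ σ, (s σ).comp (algebraMap K F) = σ) →
    (∀ (γ : AlgebraicClosure K ≃+* AlgebraicClosure K) σ (x : F),
      γ (s σ x) = s (γ • σ) (h γ σ x)) →
    (∀ γ δ σ, h (γ * δ) σ = h γ (δ • σ) * h δ σ) →
    (∀ i : K →+* AlgebraicClosure K, ∃ g : AlgebraicClosure K ≃+* AlgebraicClosure K,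
      g • i = i ∧ χ' (h g i) ≠ χ' (h (c * g * c⁻¹) i)) →
  ∀ u : Fin (finrank ℚ F₀) → Additive (𝓞 F)ˣ,
    (∀ z : (K →+* AlgebraicClosure K) → ℂ,
      (∀ r, ∑ σ, z σ * alog (ιinf.comp lam) χ' (ιinf.comp (s σ)) (u r) = 0) →
      ∀ σ, z σ + (ιinf.comp lam) (χ' (h c (c • σ)) : Eˣ) * z (c • σ) = 0) →
  ∀ (a : ℕ) (σ : Fin a → (K →+* AlgebraicClosure K)), Function.Injective σ →
    a * finrank ℚ F₀ ≤ (a + finrank ℚ F₀) *
      Matrix.rank (fun (r : Fin (finrank ℚ F₀)) (q : Fin a) ↦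
        ∑ g, ιp (lam (χ' g⁻¹ : Eˣ)) * logUnits Lg (ιp.comp (s (σ q))) (unitsHom g (u r)))

/-- **N_ASM** (assembly of `S_RANKN`). The proof of `R_ASM` (`Pool/Agent/Helper32/SD/R_ASM.lean`) with `N_MVD`, `N_MAT` in the place of `A_MVD`, `R_MAT`. -/
def N_ASM : Prop := U_TRD → U_DIMC → A_CCJ → A_LFT → N_MVD → A_NDG → N_MAT → R_KD → S_RANKN

/-- **N_MOV** (`NC` is inherited). Compare `A_MOV` of `Pool/Agent/Helper38/SD/Goals.lean`.

PROOF. Let `g`, `g'` be as in `NC`. (1) `cyc g' = cyc g`: let `ζ ∈ Ω`, `ζ^(p^m) = 1`. `ι_∞ ζ` has absolute value `1`, so `ι_∞ (ζ⁻¹)` is the complex conjugate of `ι_∞ ζ`, and `ι_∞ (g' ζ⁻¹) = conj (ι_∞ (g ζ)) = ι_∞ ((g ζ)⁻¹)`, so `g' ζ = g ζ`. `cyclotomicCharacter` is determined by the action on the roots of unity. (2) `om g' = om g` and `u g' = u g`: `y = u g' / u g` satisfies `y^(p-1) = 1` (as `cyc g' = cyc g` and `om^(p-1) = 1`) and `p ∣ y - 1`, so `y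 = 1` (`y^(p-1) - 1 = (y - 1)(1 + ... + y^(p-2))`, the sum is `≡ -1 mod p`). (3) `η n g' = η n g` for all `n`:
`h = g' g⁻¹` has `u h = 1`, so `η n h = 1` by `Cyc.cut`. So `θ g' = θ g` for `θ ∈ Hat η`, and `(χ θ)(g') ≠ (χ θ)(g)`. (4) If `χ ν = om` then `ν g' = ν g` would imply `χ g' = χ g`. -/
def N_MOV : Prop :=
  ∀ (p : ℕ) [Fact p.Prime] (K : Type) [Field K] [NumberField K]
    (ιinf : AlgebraicClosure K →+* ℂ) (η : ℕ → Chr K (AlgebraicClosure K) ℂ_[p])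
    (om u : (AlgebraicClosure K ≃ₐ[K] AlgebraicClosure K) →* ℤ_[p]ˣ), Cyc η om u →
  ∀ χ : Chr K (AlgebraicClosure K) ℂ_[p], NC ιinf χ →
    (∀ θ ∈ Hat η, NC ιinf (χ * θ)) ∧
    ∀ ν : Chr K (AlgebraicClosure K) ℂ_[p],
      (∀ g, ((χ g : ℂ_[p]ˣ) : ℂ_[p]) * (ν g : ℂ_[p]ˣ) = zp p (om g : ℤ_[p]ˣ)) → NC ιinf ν

end Pool.Agent.Helper16.SD
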