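import Pool.Agent.Helper16.SD.GoalsD

/-!
# Project SD: goals of part D' (the bounded exponent `S_BND` from `S_LIFT` and `S_J`)

Every statement is a `def ... : Prop` with its complete proof in the docstring. Other goals may be used as hypotheses.
`Ω` is the algebraic closure of the number field `K`, `Γ = Gal(Ω/K)`.
-/

set_option autoImplicit false

namespace Pool.Agent.Helper16.SD

open NumberField Module IsDedekindDomain TensorProduct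
open Pool.Agent.Helper51.SigLeo Pool.Agent.Helper51.RP Pool.Agent.Helper51.REC
open Pool.Agent.Helper38.FD (Chr CutsOut LeopoldtFor)
open Pool.Agent.Helper38.FW (InDec)
open Pool.Agent.Helper38.TH (IsTower Hat)
open Pool.Agent.Helper17.TH (ug exO tm)

/-! ## The element `e` of the group ring -/

/-- **B_CNJ** (`ℚ_p(μ_m)` and `ℚ_p(μ_(p^s))` are linearly disjoint if `p ∤ m`).

PROOF. `s = 0` is trivial (`σ = 1`). Let `ζ₀` be a primitive `m`-th root of unity, `ζ` is a power of it, `L = ℚ_p(ζ₀) ⊆ ℂ_p`. (1) *The norms of the nonzero elements of `L` are powers of `p`:* let `P` be the minimal polynomial of `ζ₀` over `ℤ_p`, `f = deg P`, `P̄` its reduction; `P̄` is irreducible over `ZMod p` (Hensel's lemma; this is the field `irr` of `Pool.Agent.Helper51.RP.PhiData`, existence is proved: search `PhiData` in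
`Pool/Agent`, for `m > 1`; `m = 1`: `L = ℚ_p`). Every nonzero `x ∈ L` is `p^i x'`, `x' = ∑_(l<f) a_l ζ₀^l`, `a_l ∈ ℤ_p` not all divisible by `p`. The class of `∑ a_l X^l` in the field `(ZMod p)[X]/P̄` is not zero, so it has an inverse, the class of `∑ b_l X^l`: `x' y' = 1 + p z` with `y', z ∈ ℤ_p[ζ₀]`; elements of `ℤ_p[ζ₀]` have norm `≤ 1`, so `‖x'‖ = 1`.
(2) Let `h` be the minimal polynomial of `ξ` over `L`, of degree `D`. It divides the cyclotomic polynomial of `p^s`, all its roots are primitive `p^s`-th roots of unity `ξ_i`, and `‖1 - ξ_i‖ = p^(-1/φ(p^s))` (as in `S_CNT` (1), (2) of `Pool/Agent/Helper17/TH/GoalsII.lean`). `h(1) = ∏ (1 - ξ_i) ∈ L` has norm `p^(-D/φ(p^s))`, so `φ(p^s) ∣ D ≤ φ(p^s)`: `h` is the cyclotomic polynomial and `ξ'` is a root of `h`. So there is an `L`-embedding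
`L(ξ) → ℂ_p`, `ξ ↦ ξ'`, with image `L(ξ') = L(ξ)`. (3) It extends to an automorphism of `ℂ_p`: `ℂ_p` is an algebraic closure of `L(ξ)(B)`, `B` a transcendence basis, extend by the identity on `B` (`IsAlgClosed.equivOfTranscendenceBasis`, or search the project for a theorem which extends an isomorphism of subfields to an automorphism of an algebraically closed field). -/
def B_CNJ : Prop :=
  ∀ (p : ℕ) [Fact p.Prime] (m s : ℕ), 0 < m → m.Coprime p → ∀ (ζ ξ ξ' : ℂ_[p]), ζ ^ m = 1 →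
    IsPrimitiveRoot ξ (p ^ s) → IsPrimitiveRoot ξ' (p ^ s) →
    ∃ σ : ℂ_[p] ≃ₐ[ℚ_[p]] ℂ_[p], σ ζ = ζ ∧ σ ξ = ξ'

/-- **B_EPS** (the elements `e` and `f` of `ℤ_p[G]`).

PROOF (from `B_CNJ`). `G` is commutative: `P` = the elements of `p`-power order, `G'` = the elements of order prime to `p`, `G = P × G'`, `m = |G'|`. `ν` is injective on `P`, so `P` is cyclic. For `g ∈ G'` let `t(g)` be the sum of the values at `g` of the different characters of the form `σ ∘ ν|G'`, `σ ∈ Aut(ℂ_p/ℚ_p)` (finitely many characters of `G'`); `t(g)` is fixed by all `σ` and algebraic over `ℚ_p`, so it is in `ℚ_p` (its conjugates over `ℚ_p` are its images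
under the `σ`: extension of isomorphisms to `ℂ_p`), and it is integral, so `t(g) ∈ ℤ_p`. `e₀ = (1/m) ∑_(g ∈ G') t(g⁻¹) g ∈ ℤ_p[G']` (`p ∤ m`). By orthogonality, for a character `ψ` of `G`: `ψ(e₀) = 1` if `ψ|G' = σ ∘ ν|G'` for some `σ`, and `ψ(e₀) = 0` otherwise. CASE `P = 1`: `e = e₀`, `f = p · 1`. CASE `P ≠ 1`: let `τ ∈ P` be of order `p`, `e = e₀ (1 - τ)`, `f = (1 + τ) ∏_(3 ≤ i < p) (1 - τ^i)`. With `ζ = ν(τ) ≠ 1` of order `p`:
`ν(e) = 1 - ζ`, `ν(f) ν(e)² = (1 - ζ)(1 - ζ²) ∏_(3 ≤ i < p) (1 - ζ^i) = p` (`p` is odd). Let `ψ(e) ≠ 0`. Then `ψ|G' = σ₀ ∘ ν|G'` for some `σ₀`, and `ψ(τ) ≠ 1`. `P` is cyclic, generated by `γ`, of order `p^s`, `τ` is in every nontrivial subgroup of `P`, so `ψ` is injective on `P` and `ψ(γ)` and `σ₀(ν(γ))` are primitive `p^s`-th roots of unity. Let `ζ_m` be a primitive `m`-th root of unity; `B_CNJ` gives `σ₁` with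
`σ₁ ζ_m = ζ_m`, `σ₁(σ₀ ν(γ)) = ψ(γ)`. `σ = σ₁ σ₀` satisfies `σ ν = ψ` on `γ` and on `G'` (`ψ(g)`, `g ∈ G'`, is a power of `ζ_m`). -/
def B_EPS : Prop :=
  ∀ (p : ℕ) [Fact p.Prime], p ≠ 2 → ∀ (G : Type) [Group G] [Fintype G], (∀ g h : G, g * h = h * g) →
  ∀ ν : G →* ℂ_[p]ˣ, (∀ g : G, (∃ s : ℕ, g ^ p ^ s = 1) → ν g = 1 → g = 1) →
  ∃ e f : G → ℤ_[p],
    (∀ ψ : G →* ℂ_[p]ˣ, (¬ ∃ σ : ℂ_[p] ≃ₐ[ℚ_[p]] ℂ_[p], ∀ g,
      ((ψ g : ℂ_[p]ˣ) : ℂ_[p]) = σ (ν g : ℂ_[p]ˣ)) → ∑ g, zp p (e g) * (ψ g : ℂ_[p]ˣ) = 0) ∧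
    (∑ g, zp p (f g) * (ν g : ℂ_[p]ˣ)) * (∑ g, zp p (e g) * (ν g : ℂ_[p]ˣ)) ^ 2 = (p : ℂ_[p])

/-- **B_LAM** (a homomorphism which does not lose the exponent).

PROOF. Let `q` be the smallest number with `p^q M = 0`; `q ≤ k`, and `b + 2 ≤ q` by the last hypothesis. Choose `x ∈ M` with `p^(q-1) x ≠ 0`, i.e. `p^(q-2) β ε² x ≠ 0`; `x' = β x ∈ M` and `p^(q-2) ε² x' ≠ 0` (`β` and `ε` commute). Choose `l₀ : X → ZMod (p^k)` with `l₀(p^(q-2) ε² x') ≠ 0`. For `i = 0, 1, 2` let `l_i = l₀ ∘ ε^i` and `q_i` the smallest number with `p^(q_i) l_i(M) = 0`. Then `q ≥ q_0 ≥ q_1 ≥ q_2 ≥ q - 1` (`ε M ⊆ M`;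
`p^(q-2) l_2(x') ≠ 0`). So there is `i ∈ {0, 1}` with `q_i = q_(i+1) =: k'`, `b + 1 ≤ q - 1 ≤ k' ≤ k`. Let `l₁ = l_i`. For `x ∈ M` `p^(k') l₁(x) = 0` in `ZMod (p^k)`, so `l₁(x) = p^(k-k') n` with `n` unique modulo `p^(k')`: `l(x) = n ∈ ZMod (p^(k'))`, an additive function on `M` (`l = 0` outside `M`). There is `x ∈ M` with `p^(k'-1) l₁(ε x) ≠ 0` (`q_(i+1) = k'`), so `l(ε x)` is not divisible by `p`: a unit. -/
def B_LAM : Prop :=
  ∀ (p : ℕ) [Fact p.Prime] (k : ℕ) (X : Type) [AddCommGroup X], (∀ x : X, p ^ k • x = 0) →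
    (∀ x : X, x ≠ 0 → ∃ l : X →+ ZMod (p ^ k), l x ≠ 0) →
  ∀ (M : AddSubgroup X) (ε β : X →+ X), (∀ x ∈ M, ε x ∈ M) → (∀ x ∈ M, β x ∈ M) →
    (∀ x, β (ε (ε x)) = p • x) → (∀ x, ε (β x) = β (ε x)) →
  ∀ b : ℕ, (∃ x ∈ M, p ^ (b + 1) • x ≠ 0) →
  ∃ (k' : ℕ) (l : X → ZMod (p ^ k')), b + 1 ≤ k' ∧
    (∀ x ∈ M, ∀ y ∈ M, l (x + y) = l x + l y) ∧ ∃ x ∈ M, IsUnit (l (ε x))

/-! ## The cyclic extension `L` -/

/-- **B_EXT** (the extension cut out by `φ`).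

PROOF. `Γ₁ = {g fixes F}`, `C = {g ∈ Γ₁ : φ g = 0}`, a subgroup of `Γ₁`, normal in `Γ₁` (values in a commutative group), which contains `{g fixes R}`: it is open. `L₀` = the fixed field of `C` in `Ω` (`IntermediateField F Ω` or `K Ω`), contained in `R`, so it is a number field; `g` fixes `L₀` iff `g ∈ C` (closed subgroup, `InfiniteGalois.fixingSubgroup_fixedField`; or use the finite Galois group `Gal(R/K)`). `L₀/F` is Galois with group `Γ₁/C ≅ φ(Γ₁)`, and `φ(Γ₁) = ZMod (p^k)` since it contains a unit. `L = L₀` with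
`v` the inclusion, `Algebra F L` by the inclusion `F ≤ L₀`. -/
def B_EXT : Prop :=
  ∀ (p : ℕ) [Fact p.Prime] (K : Type) [Field K] [NumberField K]
    (F R : IntermediateField K (AlgebraicClosure K)) [NumberField F] [NumberField R]
    [IsGalois K F] [IsGalois K R], F ≤ R →
  ∀ (k : ℕ) (φ : (AlgebraicClosure K ≃ₐ[K] AlgebraicClosure K) → ZMod (p ^ k)),
    (∀ g h, (∀ x ∈ F, g x = x) → (∀ x ∈ F, h x = x) → φ (g * h) = φ g + φ h) →
    (∀ g, (∀ x ∈ R, g x = x) → φ g = 0) →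
    (∃ a, (∀ x ∈ F, a x = x) ∧ IsUnit (φ a)) →
  ∃ (L : Type) (_ : Field L) (_ : NumberField L) (_ : Algebra F L) (v : L →+* AlgebraicClosure K),
    (∀ x : F, v (algebraMap F L x) = x) ∧ IsGalois F L ∧ finrank F L = p ^ k ∧
    IsCyclic (L ≃ₐ[F] L) ∧ (∀ x, v x ∈ R) ∧
    ∀ g : AlgebraicClosure K ≃ₐ[K] AlgebraicClosure K, (∀ x : L, g (v x) = v x) ↔
      (∀ x ∈ F, g x = x) ∧ φ g = 0

/-- **B_RAM** (`L/F` is unramified outside `B`).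

PROOF. CASE `W ∤ p`. Let `w` be above `W`, `𝔚` a prime of `R` above `w` (`R` is an extension of `L` through `v`); `𝔚 ∤ p`, so there is `π ∈ F` with `ord_𝔚(π) = 1`. The valuations of `R` restricted: `ord_𝔚(v y) = e₁ ord_w(y)` for `y ∈ L`, `ord_w(x) = e₂ ord_W(x)` for `x ∈ F`, `e₁, e₂ ≥ 1`; so `1 = e₁ e₂ ord_W(π)`, `e₂ = 1`. CASE `W ∣ p`. Let `w` be above `W`. There is `τ_L : L → ℂ_p` with `w.valuation x ≤ w.valuation y ↔ ‖τ_L x‖ ≤ ‖τ_L y‖` (`Pool.Agent.Helper70.PW.l_prm`), and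
`τ : Ω → ℂ_p` with `τ ∘ v = τ_L` (`ext_emb` in `Pool/Agent/Helper17/TH/EXT.lean`). `PrimeOf (τ ∘ val_F) W`, so `τ|F` is not above `B`: `τ|K ∉ B`. CLAIM: the decomposition group of `w` in `Gal(L/F)` is trivial (`FreeP F w`). Let `g ∈ Gal(L/F)` preserve the valuation of `w`; `ĝ ∈ Γ` an extension: `ĝ (v x) = v (g x)` (`Ω` is normal over `v(L)`...: `AlgEquiv.restrictNormalHom` surjectivity, or `IsAlgClosure`/`lift`), `ĝ` fixes `F`. The prime ideals `{y ∈ 𝓞_Ω : ‖τ y‖ < 1}` and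
`{y : ‖τ (ĝ y)‖ < 1}` have the same intersection with `v(𝓞_L)` (namely `w`), so they are conjugate under `Gal(Ω/v(L))` (`Pool.Agent.Helper30.PW.trans_primes`, with `E = L`, see `conj_emb` in `EXT.lean`): there is `h`, fixing `v(L)`, with `‖τ (ĝ y)‖ = ‖τ (h y)‖` for all `y ∈ Ω`. So `ĝ h⁻¹` satisfies `InDec τ (ĝ h⁻¹)` and fixes `F`; by hypothesis it fixes `v(L)`, hence so does `ĝ`, and `g = 1`. By `FreeP F w` (ramification index `1`: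
`Pool.Agent.Helper13.RD.ram_free`, `Pool.Agent.Helper40.RD.valW`, or `N_DNS`; see the docstring of `S_SPL` in `Pool/Agent/Helper17/TH/GoalsII.lean` and its proof), `ord_w(x) = ord_W(x)` for `x ∈ F`. -/
def B_RAM : Prop :=
  ∀ (p : ℕ) [Fact p.Prime] (K : Type) [Field K] [NumberField K]
    (F R : IntermediateField K (AlgebraicClosure K)) [NumberField F] [NumberField R]
    [IsGalois K F] [IsGalois K R], F ≤ R →
    (∀ W : HeightOneSpectrum (𝓞 R), W.valuation R (p : R) = 1 →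
      ∃ π : R, (π : AlgebraicClosure K) ∈ F ∧ ordv W π = 1) →
  ∀ (L : Type) [Field L] [NumberField L] [Algebra F L] [IsGalois F L]
    (v : L →+* AlgebraicClosure K), (∀ x : F, v (algebraMap F L x) = x) → (∀ x, v x ∈ R) →
  ∀ B : Set (K →+* ℂ_[p]),
    (∀ τ : AlgebraicClosure K →+* ℂ_[p],
      τ.comp (algebraMap K (AlgebraicClosure K)) ∉ B → ∀ g, (∀ x ∈ F, g x = x) → InDec τ g →
        ∀ x : L, g (v x) = v x) →
  ∀ W : HeightOneSpectrum (𝓞 F), (∀ τ ∈ (above B : Set (F →+* ℂ_[p])), ¬ PrimeOf τ W) →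
  ∀ w : HeightOneSpectrum (𝓞 L), Above w W → ∀ x : F, ordv w (algebraMap F L x) = ordv W x

/-- **B_CNG** (valuations and embeddings).

PROOF. Let `PrimeOf τ W`: `x ∈ W ↔ ‖τ x‖ < 1` for `x ∈ 𝓞_F`. `‖τ x‖ ≤ 1` for `x ∈ 𝓞_F` (integral elements). Let `π ∈ F`, `W.valuation π = exp(-1)`. Every `x ≠ 0` of `F` is `π^a y/y'` with `y, y' ∈ 𝓞_F ∖ W`, `a = ordv W x`, so `‖τ x‖ = ‖τ π‖^a`, and `‖τ π‖ < 1`. So `W.valuation x ≤ W.valuation y ↔ ‖τ x‖ ≤ ‖τ y‖`. (Compare `Pool.Agent.Helper70.PW.l_prm`, `norm_eq_of_PI`.) The second statement: `PrimeOf τ W` for `τ ∈ T`, `‖τ v - 1‖ ≤ p^(-N) = ‖τ (p^N)‖`. The third: `{x ∈ 𝓞_F : ‖τ x‖ < 1}` is a nonzero prime ideal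
containing `p`. -/
def B_CNG : Prop :=
  ∀ (p : ℕ) [Fact p.Prime] (F : Type) [Field F] [NumberField F],
    (∀ (τ : F →+* ℂ_[p]) (W : HeightOneSpectrum (𝓞 F)), PrimeOf τ W →
      ∀ x y : F, W.valuation F x ≤ W.valuation F y ↔ ‖τ x‖ ≤ ‖τ y‖) ∧
    (∀ (T : Set (F →+* ℂ_[p])) (N : ℕ) (v : F),
      Cong p {W | ∃ τ ∈ T, PrimeOf τ W} N v ↔ ∀ τ ∈ T, ‖τ v - 1‖ ≤ (1 / p : ℝ) ^ N) ∧
    ∀ τ : F →+* ℂ_[p], ∃ W : HeightOneSpectrum (𝓞 F), PrimeOf τ W ∧ W.valuation F (p : F) < 1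

/-- **B_KUM** (the Kummer character of `x` is a multiple of `φ` modulo `p`).

PROOF. Let `r₀ = v y`, `r₀^p = x`, `r₀ ≠ 0`. For `a` fixing `F`: `a r₀ = ε^(κ(a)) r₀` with a unique `κ(a) ∈ ZMod p`; `κ` is a homomorphism on `Γ₁` (`a ε = ε`), and `κ(a) = 0` if `φ(a) = 0` (`a` fixes `v(L)`). The image of `φ` on `Γ₁` is `ZMod (p^k)`: let `φ(a₁) = 1` (a multiple of the element with unit value), `c = κ(a₁)`. For `a ∈ Γ₁` with `φ(a) = n`, `φ(a a₁^(-n)) = 0`, so `κ(a) = n c`, `κ(a) = c φ(a)` in `ZMod p`. If `c = 0` then `κ = 0`, `r₀` is fixed by `Gal(Ω/F)`, `r₀ ∈ F` and `x` is a `p`-th power in `F`: excluded.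
For any `r` with `r^p = x`, `r = ε^i r₀` and `a r = ε^(κ(a)) r`. -/
def B_KUM : Prop :=
  ∀ (p : ℕ) [Fact p.Prime] (K : Type) [Field K] [NumberField K]
    (F : IntermediateField K (AlgebraicClosure K)) [NumberField F] (ε : F), IsPrimitiveRoot ε p →
  ∀ (k : ℕ) (hk : 1 ≤ k) (φ : (AlgebraicClosure K ≃ₐ[K] AlgebraicClosure K) → ZMod (p ^ k)),
    (∀ g h, (∀ x ∈ F, g x = x) → (∀ x ∈ F, h x = x) → φ (g * h) = φ g + φ h) →
    (∃ a, (∀ x ∈ F, a x = x) ∧ IsUnit (φ a)) →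
  ∀ (L : Type) [Field L] [NumberField L] [Algebra F L] (v : L →+* AlgebraicClosure K),
    (∀ x : F, v (algebraMap F L x) = x) →
    (∀ g : AlgebraicClosure K ≃ₐ[K] AlgebraicClosure K, (∀ x ∈ F, g x = x) → φ g = 0 →
      ∀ x : L, g (v x) = v x) →
  ∀ x : Fˣ, ¬ Pw p x → (∃ y : L, y ^ p = algebraMap F L x) →
  ∃ c : ZMod p, IsUnit c ∧ ∀ a : AlgebraicClosure K ≃ₐ[K] AlgebraicClosure K,
    (∀ y ∈ F, a y = y) → ∀ r : AlgebraicClosure K, r ^ p = ((x : F) : AlgebraicClosure K) →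
      a r = (ε : AlgebraicClosure K) ^
        (c * ZMod.castHom (dvd_pow_self p (Nat.one_le_iff_ne_zero.1 hk)) (ZMod p) (φ a)).val * r

/-- **B_DNS** (density: an element whose symbols vanish is a `p`-th power).

PROOF (from `L_UPP`, `K_BAS`, theorems `Pool.Agent.Helper51.REC.l_upp`, `k_bas`, and `Pool.Agent.Helper38.RS.s_psm`: the sum over all the primes of `N(v)^(-s)` is at least `log(1/(s-1)) - C`; `pz` in `Helper38/RS`). Suppose that `x` is not a `p`-th power. `L_UPP` with `m = 1`, `y = x` (`Pw (x^a)` implies `p ∣ a`, otherwise `x` would be a `p`-th power): the primes `v ∤ p` with `LocPow p v x` have `∑ N(v)^(-s) ≤ (1/p) log(1/(s-1)) + C`. All the primes `v` outside the finite set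
`Z ∪ {v ∣ p} ∪ {v : ord_v(x) ≠ 0}` are of this type (`K_BAS`: `kap = 0 ↔ LocPow` if `p ∣ ord_v(x)`). So `log(1/(s-1)) - C' ≤ (1/p) log(1/(s-1)) + C`, a contradiction for `s → 1`. -/
def B_DNS : Prop :=
  ∀ (p : ℕ) [Fact p.Prime] (F : Type) [Field F] [NumberField F] (ε : F), IsPrimitiveRoot ε p →
  ∀ (x : Fˣ) (Z : Set (HeightOneSpectrum (𝓞 F))), Z.Finite →
    (∀ W, W ∉ Z → kap p ε W x = 0) → Pw p x

/-- **B_ACT** (the symbols of conjugate primes).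

PROOF. `ord_(gW)(x) = ord_W(g⁻¹ x)` (more generally `(gW).valuation x = W.valuation (g⁻¹ x)`), `N(gW) = N(W)` (`𝓞_F/W ≅ 𝓞_F/gW` by `g`). If `p ∤ ord_W(g⁻¹ x)` both symbols are `0` (`K_BAS`, theorem `Pool.Agent.Helper51.REC.k_bas`). Otherwise let `a = kap_W(g⁻¹ x)`: `IsKap` gives `y` with `(g⁻¹x · y^p)^((N-1)/p) ≡ ε^a mod W`, a unit; apply `g`: `(x · g(y)^p)^((N-1)/p) ≡ g(ε)^a = ε^(m a) mod gW`. So `IsKap p ε (gW) x (m a)`; use the uniqueness in `K_BAS`. -/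
def B_ACT : Prop :=
  ∀ (p : ℕ) [Fact p.Prime] (K F : Type) [Field K] [Field F] [NumberField F] [Algebra K F] (ε : F),
    IsPrimitiveRoot ε p → ∀ (g : F ≃ₐ[K] F) (m : ℕ), g ε = ε ^ m →
  ∀ W : HeightOneSpectrum (𝓞 F), W.valuation F (p : F) = 1 → ∀ x : Fˣ,
    (∀ y : F, ordv (gP g W) y = ordv W (g⁻¹ y)) ∧
    kap p ε (gP g W) x = m * kap p ε W (Units.map ((g⁻¹ : F ≃ₐ[K] F) : F →* F) x)

/-- **B_COR1** (the function `ϑ`).

PROOF (from `S_LIFT`, `B_EXT`, `B_RAM`, `B_CNG`, `B_KUM`). `B_EXT` gives `L`, `v`; `B_RAM` (its hypothesis: `g` fixes `F` and `InDec τ g`, so `φ g = 0`, so `g` fixes `v(L)`). `S = {W : ∃ τ ∈ above B, PrimeOf τ W}` is not empty (`B ≠ ∅`: extend an embedding of `B` to `F`; `B_CNG` (3)) and its primes are above `p` (`‖τ p‖ < 1`). `F` is totally complex (`K` is, `F ⊇ K`). `S_LIFT` gives `N`, `ϑ`, `x`, `Z`; translate `Cong` by `B_CNG` (2). `B_KUM`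 gives `c`. -/
def B_COR1 : Prop := S_LIFT → B_EXT → B_RAM → B_CNG → B_KUM →
  ∀ (p : ℕ) [Fact p.Prime], p ≠ 2 → ∀ (K : Type) [Field K] [NumberField K] [IsTotallyComplex K]
    (F R : IntermediateField K (AlgebraicClosure K)) [NumberField F] [NumberField R]
    [IsGalois K F] [IsGalois K R], F ≤ R →
  ∀ (ε : F), IsPrimitiveRoot ε p → ∀ B : Set (K →+* ℂ_[p]), B.Nonempty →
  ∀ (k : ℕ) (hk : 1 ≤ k) (φ : (AlgebraicClosure K ≃ₐ[K] AlgebraicClosure K) → ZMod (p ^ k)),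
    (∀ g h, (∀ x ∈ F, g x = x) → (∀ x ∈ F, h x = x) → φ (g * h) = φ g + φ h) →
    (∀ g, (∀ x ∈ R, g x = x) → φ g = 0) →
    (∃ a, (∀ x ∈ F, a x = x) ∧ IsUnit (φ a)) →
    (∀ W : HeightOneSpectrum (𝓞 R), W.valuation R (p : R) = 1 →
      ∃ π : R, (π : AlgebraicClosure K) ∈ F ∧ ordv W π = 1) →
    (∀ τ : AlgebraicClosure K →+* ℂ_[p],
      τ.comp (algebraMap K (AlgebraicClosure K)) ∉ B → ∀ g, (∀ x ∈ F, g x = x) → InDec τ g →
        φ g = 0) →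
  ∃ (N : ℕ) (ϑ : HeightOneSpectrum (𝓞 F) → ZMod (p ^ k)) (x : Fˣ)
    (Z : Set (HeightOneSpectrum (𝓞 F))) (c : ZMod p), Z.Finite ∧ IsUnit c ∧
    (∀ v : Fˣ, (∀ τ ∈ (above B : Set (F →+* ℂ_[p])), ‖τ (v : F) - 1‖ ≤ (1 / p : ℝ) ^ N) →
      dsum ϑ (v : F) = 0) ∧
    (∀ W, W ∉ Z → (p : ZMod (p ^ k)) ^ (k - 1) * ϑ W =
      (p : ZMod (p ^ k)) ^ (k - 1) * ((kap p ε W x).val : ZMod (p ^ k))) ∧
    ∀ a : AlgebraicClosure K ≃ₐ[K] AlgebraicClosure K,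
      (∀ y ∈ F, a y = y) → ∀ r : AlgebraicClosure K, r ^ p = ((x : F) : AlgebraicClosure K) →
        a r = (ε : AlgebraicClosure K) ^
          (c * ZMod.castHom (dvd_pow_self p (Nat.one_le_iff_ne_zero.1 hk)) (ZMod p) (φ a)).val * r

/-- **B_COR2** (the contradiction).

PROOF (from `B_ACT`, `B_DNS`, `K_BAS`). Suppose `b ≤ k - 1`. Let `S = {W : ∃ τ ∈ above B, PrimeOf τ W}` (finite: these primes contain `p`). For `W ∉ S`, multiply the hypothesis on `b` by `p^(k-1-b)`: `p^(k-1) ∑_g e(g) ϑ(gW) = 0` in `ZMod (p^k)`. If also `gW ∉ Z` for all `g`: `p^(k-1) ∑_g e(g) kap_(gW)(x) = 0` in `ZMod (p^k)`, i.e. `∑_g ē(g) kap_(gW)(x) = 0` in `ZMod p`, `ē(g)` = `e(g)` modulo `p` (`p^(k-1) n = 0` in `ZMod (p^k)` iff `p ∣ n`). Let `g ε = ε^(m_g)`, `p ∤ m_g`. By `B_ACT`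
`kap_(gW)(x) = m_g kap_W(g⁻¹ x)` for `W ∤ p`. Let `n_g ∈ ℕ`, `n_g ≡ ē(g) m_g mod p`, `x' = ∏_g (g⁻¹ x)^(n_g) ∈ Fˣ`. For `W ∤ p` with `ord_(gW)(x) = 0` for all `g` (all but finitely many), `kap_W(x') = ∑_g n_g kap_W(g⁻¹ x) = ∑_g ē(g) kap_(gW)(x) = 0` (`K_BAS`: additivity). The exceptional `W` are finitely many. So `x' = w^p`, `w ∈ Fˣ`, by `B_DNS`. Let `a` fix `F`. For every `g` let `r_g ∈ Ω`, `r_g^p = g⁻¹ x` (`s g ∈ Γ` extends `g`; `(s g)(r_g)^p = x`).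
`a' = (s g) a (s g)⁻¹` fixes `F` and `a' ((s g) r_g) = ε^(c φ(a')) (s g) r_g`; apply `(s g)⁻¹`: `a r_g = (s g)⁻¹(ε)^(c φ(a')) r_g = ε^(m_g⁻¹ c φ(a')) r_g` (`m_g⁻¹` the inverse in `ZMod p`). The element `∏_g r_g^(n_g)` is a `p`-th root of `x' = w^p`, so it is `ε^i w`, fixed by `a`; so `∑_g n_g m_g⁻¹ c φ(a'_g) = 0` in `ZMod p`, i.e. `c ∑_g ē(g) φ((s g) a (s g)⁻¹) = 0`: as `c` is a unit, `∑_g e(g) φ((s g) a (s g)⁻¹)` is
`0` modulo `p`, for every `a`: this contradicts the last hypothesis (`k ≥ 1`: a unit of `ZMod (p^k)` is not `0` modulo `p`). -/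
def B_COR2 : Prop := B_ACT → B_DNS →
  ∀ (p : ℕ) [Fact p.Prime] (K : Type) [Field K] [NumberField K]
    (F : IntermediateField K (AlgebraicClosure K)) [NumberField F] [IsGalois K F]
    (s : (F ≃ₐ[K] F) → (AlgebraicClosure K ≃ₐ[K] AlgebraicClosure K)),
    (∀ g, AlgEquiv.restrictNormalHom F (s g) = g) →
  ∀ (ε : F), IsPrimitiveRoot ε p → ∀ (B : Set (K →+* ℂ_[p])) (k : ℕ) (hk : 1 ≤ k)
    (φ : (AlgebraicClosure K ≃ₐ[K] AlgebraicClosure K) → ZMod (p ^ k)) (e : (F ≃ₐ[K] F) → ℤ_[p])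
    (b : ℕ) (ϑ : HeightOneSpectrum (𝓞 F) → ZMod (p ^ k)) (x : Fˣ)
    (Z : Set (HeightOneSpectrum (𝓞 F))) (c : ZMod p), Z.Finite → IsUnit c →
    (∀ W : HeightOneSpectrum (𝓞 F), (∀ τ ∈ (above B : Set (F →+* ℂ_[p])), ¬ PrimeOf τ W) →
      (p : ZMod (p ^ k)) ^ b * ∑ g, PadicInt.toZModPow k (e g) * ϑ (gP g W) = 0) →
    (∀ W, W ∉ Z → (p : ZMod (p ^ k)) ^ (k - 1) * ϑ W =
      (p : ZMod (p ^ k)) ^ (k - 1) * ((kap p ε W x).val : ZMod (p ^ k))) →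
    (∀ a : AlgebraicClosure K ≃ₐ[K] AlgebraicClosure K,
      (∀ y ∈ F, a y = y) → ∀ r : AlgebraicClosure K, r ^ p = ((x : F) : AlgebraicClosure K) →
        a r = (ε : AlgebraicClosure K) ^
          (c * ZMod.castHom (dvd_pow_self p (Nat.one_le_iff_ne_zero.1 hk)) (ZMod p) (φ a)).val *
            r) →
    (∃ a : AlgebraicClosure K ≃ₐ[K] AlgebraicClosure K, (∀ y ∈ F, a y = y) ∧
      IsUnit (∑ g, PadicInt.toZModPow k (e g) * φ (s g * a * (s g)⁻¹))) →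
    k ≤ b

/-- **B_BND** (`S_BND`).

PROOF (from `S_J`, `B_EPS`, `B_LAM`, `B_COR1`, `B_COR2` and the hypotheses of `B_COR1`, `B_COR2`). Let `G = Gal(F/K)`. `χ`, `om`, `ν` are trivial on `Gal(Ω/F)` (`Base.cutF`, `Base.mul`), `G` is commutative (a commutator in `Γ` has `χ = 1`, `om = 1`, so it fixes `F`). Let `ν_F : G → ℂ_pˣ` be induced by `ν`. It is injective on the elements of `p`-power order: let `g ∈ Γ`, `g^(p^s)` fix `F`, `ν g = 1`; `om(g)^(p^s) = 1` and `om(g)^(p-1) = 1`, so `om g = 1`, `χ(g) = om(g)/ν(g) = 1`, `g` fixes `F`.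
`B_EPS` gives `e`, `f`. `S_J` (`Base.indep`, `Base.ne`) gives `b₀` for `e`. Put `b = b₀ + 1`. `F` contains a primitive `p`-th root of unity `ε`: if `g` fixes `F` then `om g = 1`, `cyc g = u g ≡ 1 mod p`, so `g` fixes the `p`-th roots of unity of `Ω`. Choose `s : G → Γ` with `s(g)|F = g`. Now let `k, X, Φ, R` be given and suppose `p^b Φ(a₀) ≠ 0` for some `a₀ ∈ Γ₁ = {g fixes F}`. `M = Φ(Γ₁)`, a subgroup of `X` (`Φ` is additive on `Γ₁`). `E_O = ∑_g e(g) cn(s g) ∈ O`, `F_O = ∑_g f(g) cn(s g)`: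
`F_O E_O² = p` (apply `j`: `B_EPS`). `ε(x) = E_O x`, `β(x) = F_O x`. `E_O Φ(a) = ∑_g e(g) Φ(s(g) a s(g)⁻¹)`, and `e(g) ∈ ℤ_p` acts on `X` (killed by `p^k`) as an integer (`PadicInt.appr`), so `ε M ⊆ M`, `β M ⊆ M`. `B_LAM` with `b₀` (`∃ x ∈ M, p^(b₀+1) x ≠ 0`): `k' ≥ b₀ + 1`, `l`, and `x = Φ(a₁)` with `l(E_O x)` a unit. Let `φ(a) = l(Φ(a))` for all `a ∈ Γ`. It is additive on `Γ₁`, zero on `Gal(Ω/R)` (`l(0) = 0` by additivity), zero on the decomposition groups as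
in the hypothesis. `E_O x ∈ M` is `Φ(a₂)`, so `φ(a₂)` is a unit. `∑_g e(g) φ(s(g) a₁ s(g)⁻¹) = l(∑_g e(g) Φ(s(g) a₁ s(g)⁻¹)) = l(E_O Φ(a₁))` is a unit (`l` is additive on `M`, so `l(n x) = n l(x)`; replace `e(g)` by an integer congruent to it modulo `p^(max(k, k'))`). `k' ≥ 1`. `B_COR1` (with `k'`) gives `N`, `ϑ`, `x`, `Z`, `c`; `S_J`'s conclusion for `ϑ`, `N` gives the hypothesis of `B_COR2` with `b₀`. So `k' ≤ b₀`, a contradiction. -/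
def B_BND : Prop := S_J → B_EPS → B_LAM → B_COR1 → B_COR2 → S_LIFT → B_EXT → B_RAM → B_CNG →
  B_KUM → B_ACT → B_DNS → S_BND

end Pool.Agent.Helper16.SD
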