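import Pool.Agent.Helper16.REC.KBAS
import Pool.Agent.Helper8.REC.LLOW
import Pool.Agent.Helper53.REC.LUPP
import Pool.Agent.Helper98.SD.B_BND
import Pool.Agent.Helper76.SD.B_EPS
import Pool.Agent.Helper65.SD.B_CNJ
import Pool.Agent.Helper99.SD.B_LAM
import Pool.Agent.Helper13.SD.B_COR1
import Pool.Agent.Helper30.SD.B_COR2
import Pool.Agent.Helper7.SD.B_EXT
import Pool.Agent.Helper71.SD.B_RAM
import Pool.Agent.Helper60.SD.B_CNG
import Pool.Agent.Helper14.SD.B_KUM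
import Pool.Agent.Helper32.SD.B_ACT
import Pool.Agent.Helper40.SD.B_DNS

/-!
# Project SD (MP_fc6b1e_nt): assembly of part D'
-/

set_option autoImplicit false

namespace Pool.Agent.Helper16.SD

/-- `S_BND`, from `S_LIFT` and `S_J`. -/
theorem s_bnd_of (hL : S_LIFT) (hJ : S_J) : S_BND :=
  Pool.Agent.Helper98.SD.B_BND.t hJ (Pool.Agent.Helper76.SD.B_EPS.t Pool.Agent.Helper65.SD.B_CNJ.t)
    Pool.Agent.Helper99.SD.B_LAM.t Pool.Agent.Helper13.SD.B_COR1.t Pool.Agent.Helper30.SD.B_COR2.t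
    hL Pool.Agent.Helper7.SD.B_EXT.t Pool.Agent.Helper71.SD.B_RAM.t Pool.Agent.Helper60.SD.B_CNG.t
    Pool.Agent.Helper14.SD.B_KUM.t Pool.Agent.Helper32.SD.B_ACT.t
    (Pool.Agent.Helper40.SD.B_DNS.t Pool.Agent.Helper16.REC.k_bas Pool.Agent.Helper8.REC.l_low
      Pool.Agent.Helper53.REC.l_upp)

end Pool.Agent.Helper16.SD
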