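import Pool.Agent.Helper70.SD.D_ONE
import Pool.Agent.Helper39.SD.D_RAM
import Pool.Agent.Helper66.SD.Z_NEAR
import Pool.Agent.Helper66.SD.Z_ONE
import Pool.Agent.Helper73.SD.Z_TWO
import Pool.Agent.Helper20.SD.D_ROU
import Pool.Agent.Helper4.SD.K_PSI
import Pool.Agent.Helper60.SD.D_FLD
import Pool.Agent.Helper2.SD.D_TWO
import Pool.Agent.Helper23.SD.D_TOR
import Pool.Agent.Helper79.SD.K_SPEC
import Pool.Agent.Helper37.SD.Z_PSI
import Pool.Agent.Helper95.SD.Z_TEN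
import Pool.Agent.Helper36.SD.K_XQ
import Pool.Agent.Helper14.SD.K_KER
import Pool.Agent.Helper40.SD.Z_PC
import Pool.Agent.Helper26.SD.D_DES

/-!
# Project SD (MP_fc6b1e_nt): assembly of part D
-/

set_option autoImplicit false

namespace Pool.Agent.Helper16.SD

/-- `S_TEXP`, from `S_BND`. -/
theorem s_texp_of (hB : S_BND) : S_TEXP :=
  Pool.Agent.Helper2.SD.D_TWO.t Pool.Agent.Helper70.SD.D_ONE.t
    (Pool.Agent.Helper14.SD.K_KER.t Pool.Agent.Helper79.SD.K_SPEC.t)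
    Pool.Agent.Helper95.SD.Z_TEN.t Pool.Agent.Helper20.SD.D_ROU.t Pool.Agent.Helper23.SD.D_TOR.t hB
    (Pool.Agent.Helper4.SD.K_PSI.t Pool.Agent.Helper79.SD.K_SPEC.t) Pool.Agent.Helper36.SD.K_XQ.t
    Pool.Agent.Helper26.SD.D_DES.t Pool.Agent.Helper60.SD.D_FLD.t Pool.Agent.Helper40.SD.Z_PC.t
    (Pool.Agent.Helper37.SD.Z_PSI.t
      (Pool.Agent.Helper66.SD.Z_ONE.t Pool.Agent.Helper66.SD.Z_NEAR.t Pool.Agent.Helper79.SD.K_SPEC.t)
      Pool.Agent.Helper73.SD.Z_TWO.t Pool.Agent.Helper95.SD.Z_TEN.t Pool.Agent.Helper36.SD.K_XQ.t)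
    Pool.Agent.Helper39.SD.D_RAM.t

end Pool.Agent.Helper16.SD
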