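import Pool.Agent.Helper66.SD.Z_NEAR
import Pool.Agent.Helper66.SD.J_F
import Pool.Agent.Helper66.SD.J_ALG
import Pool.Agent.Helper95.SD.J_RAT
import Pool.Agent.Helper32.SD.J_DET
import Pool.Agent.Helper13.SD.J_DV1
import Pool.Agent.Helper35.SD.J_DV2
import Pool.Agent.Helper35.SD.J_ASM
import Pool.Agent.Helper35.SD.J_SML

/-!
# Project SD (MP_fc6b1e_nt): assembly of part J
-/

set_option autoImplicit false

namespace Pool.Agent.Helper16.SD

/-- `J_F`. -/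
theorem j_f : J_F :=
  Pool.Agent.Helper66.SD.J_F.t Pool.Agent.Helper66.SD.Z_NEAR.t
    (Pool.Agent.Helper95.SD.J_RAT.t Pool.Agent.Helper66.SD.Z_NEAR.t)

/-- `S_J`. -/
theorem s_j : S_J :=
  Pool.Agent.Helper35.SD.J_ASM.t
    (Pool.Agent.Helper35.SD.J_SML.t j_f Pool.Agent.Helper32.SD.J_DET.t
      Pool.Agent.Helper66.SD.J_ALG.t)
    Pool.Agent.Helper66.SD.Z_NEAR.t Pool.Agent.Helper13.SD.J_DV1.t Pool.Agent.Helper35.SD.J_DV2.t

end Pool.Agent.Helper16.SD
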