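import Pool.Agent.Helper16.SD.AsmN0
import Pool.Agent.Helper15.SD.N_ASM

/-!
# Project SD (MP_fc6b1e_nt): `S_RANKN`
-/

set_option autoImplicit false

namespace Pool.Agent.Helper16.SD

/-- `S_RANKN`. -/
theorem s_rankn : S_RANKN := s_rankn_of Pool.Agent.Helper15.SD.N_ASM.t

end Pool.Agent.Helper16.SD
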