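import Pool.Agent.Helper16.SD.Top
import Pool.Agent.Helper17.SL.GoalsB
import Pool.Agent.Helper17.SL.GoalsA

/-!
# Project SD: goals of part T (transcendence) and part S (rank of the logarithms on the `χ`-part)

Every statement is a `def ... : Prop` with its complete proof in the docstring. Other goals may be used as hypotheses.
-/

set_option autoImplicit false

namespace Pool.Agent.Helper16.SD

open NumberField Module IsDedekindDomain TensorProduct
open Pool.Agent.Helper51.SigLeo Pool.Agent.Helper51.RP Pool.Agent.Helper51.REC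
open Pool.Agent.Helper17.SL (archLog Phi S_SUB S_LA S_SA S_SB S_SC S_TRANS S_GA1 S_GA3 S_GA7)
open Pool.Agent.Helper38.FD (Chr)
open Pool.Agent.Helper17.TH (ug)

/-! ## Part T -/

/-- The `a ∈ E^d` with `B(e a, c) = 0` for all `c ∈ C`, `e ∈ E`. -/
def annB {E k : Type} [Field E] [CharZero E] [Field k] [CharZero k] {d l : ℕ}
    (B : (Fin d → E) →ₗ[ℚ] (Fin l → E) →ₗ[ℚ] k) (C : Submodule E (Fin l → E)) :
    Submodule E (Fin d → E) where
  carrier := {a | ∀ c ∈ C, ∀ e : E, B (e • a) c = 0}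
  add_mem' := fun {a b} ha hb c hc e ↦ by
    rw [smul_add, map_add, LinearMap.add_apply, ha c hc e, hb c hc e, add_zero]
  zero_mem' := fun c _ e ↦ by simp
  smul_mem' := fun r a ha c hc e ↦ by rw [smul_smul]; exact ha c hc (e * r)

/-- **T_LBT** (variant of `S_LB`).

PROOF (from `S_SUB`; theorem `Pool.Agent.Helper17.SL.PkSUB.thm`; model: `Pool/Agent/Helper91/SL/LB.lean`). Let `φ = [E : ℚ]`. Apply `S_SUB` to `W = E^l`, `f(W') = d φ - dim_ℚ {a | ∀ c ∈ W', B a c = 0}`, with the constants `a = s`, `b = t`. `f` is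
submodular: `Ann(W' + W'') = Ann W' ∩ Ann W''`, `Ann(W' ∩ W'') ⊇ Ann W' + Ann W''`; it is invariant under `Eˣ`: `Ann(e W') = e⁻¹ Ann(W')` as `B(e a, c) = B(a, e c)`. For an `E`-subspace `C`, `dim_ℚ C = φ dim_E C`, `Ann(C) = annB B C` (`B(e a, c) = B(a, e c)`, `e c ∈ C`), so
`f(C) = d φ - φ dim_E (annB B C)` and `s dim_ℚ C ≤ t f(C)` is the hypothesis multiplied by `φ`. Conclusion for `A'`: `s dim A' ≤ t (d φ - dim Ann(A'))`, and `A ⊆ Ann(A')`. -/
def T_LBT : Prop := ∀ (E : Type) [Field E] [NumberField E] (k : Type) [Field k] [CharZero k]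
  (d l s t : ℕ) (B : (Fin d → E) →ₗ[ℚ] (Fin l → E) →ₗ[ℚ] k),
  (∀ (e : E) a c, B (e • a) c = B a (e • c)) →
  (∀ C : Submodule E (Fin l → E), s * finrank E C ≤ t * (d - finrank E (annB B C))) →
  ∀ (A : Submodule ℚ (Fin d → E)) (A' : Submodule ℚ (Fin l → E)),
    (∀ c ∈ A', ∀ a ∈ A, B a c = 0) →
    s * finrank ℚ A' + t * finrank ℚ A ≤ t * (d * finrank ℚ E)

/-- **T_RK** (the theorem `S_RK` of `Top.lean`, from the general theorem `Pool.Agent.Helper17.SL.gen_holds`).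

PROOF (from `S_GEN`, `S_LA`, `T_LBT`, `S_SA`, `S_SB`, `S_SC` of `Pool/Agent/Helper17/SL`, all but `T_LBT` are theorems: see `Pool/Agent/Helper17/SL/Chain.lean`; adapt `Pool/Agent/Helper40/SL/SIXA.lean` line by line). Let `r = rank M`, `φ = [E : ℚ]`. If `r = 0` then `M = 0`, `annM M ⊤ = ⊤` and the hypothesis for `C = ⊤` gives
`s l ≤ 0`. If `s = 0` clear. Suppose `s ≥ 1`, `r ≥ 1`, `(s + t) r < s l`. `M = P Q` with `P : d × r`, `Q : r × l` over `k` (`M.rank = r`: the columns of `M` span a space of dimension `r`; `Matrix.rank` is the dimension of the range of `mulVecLin`). `V = E^d`, `I = {σ ≠ lam} × Fin d`, `X = conjX lam d`, `J` = the index set of a `ℚ`-basis `c_j` of `E^l`,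
`Y_j(a) = Bform b x a c_j` with `x_ijr = Λ(ι(y_ijr))`. By `S_SA` the functions `ι ∘ X`, `Y_j` are in the span of the `ι ∘ X` (`d (φ - 1)` functions) and of the `r` functions `a ↦ ∑_i ι(lam(a_i)) P_im`, `m < r` (the term `σ = lam` of `S_SA` is `∑_ij ι(lam a_i) ι(lam c_j) M_ij = ∑_m (∑_i ι(lam a_i) P_im) (∑_j Q_mj ι(lam c_j))`): `N = d (φ - 1) + r`.
Choose `β` with `r/(l φ) < β < s/((s + t) φ)` (possible, as `(s + t) r < s l`; so `0 < β < 1`). `N < |I| + β |J|` as `|I| = (φ - 1) d`, `|J| = l φ`. `S_GEN` gives `A ⊆ V`, of codimension `r'`, with `n'`, `m'`. `S_LA`: `φ n' ≤ (φ - 1) r'`. `T_LBT` for `Bform b x`: its hypothesis holds since `annB (Bform b x) C ≤ annM (ι.comp lam) M C` by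
`S_SB` (applied to `lam := ι.comp lam`), so `s dim C ≤ t (d - dim annM) ≤ t (d - dim annB)`. So `s m' ≤ t r'` (`relY Y A` is isomorphic to a subspace `A'` of `E^l` with `B(A, A') = 0`, as in `SIXA.lean`). Then `(1 - β) r' ≤ n' + β m' ≤ (1 - 1/φ) r' + β (t/s) r'`, i.e. `(1/φ - β (s + t)/s) r' ≤ 0`, so `r' = 0`, hence `n' = 0`, `m' = 0`,
a contradiction to the first conclusion of `S_GEN`. -/
def T_RK : Prop := T_LBT → S_RK

/-! ## Part S: monomial representations -/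

/-- `m` is a cocycle: `m (γ δ) i = m γ (δ i) * m δ i`. -/
def IsCoc {E I Γ : Type} [Field E] [Group Γ] [MulAction Γ I] (m : Γ → I → Eˣ) : Prop :=
  ∀ γ δ i, m (γ * δ) i = m γ (δ • i) * m δ i

/-- The monomial operator `(ρ(γ) c)(γ i) = m(γ, i) c(i)`. -/
def rho {E I Γ : Type} [Field E] [Group Γ] [MulAction Γ I] (m : Γ → I → Eˣ) (γ : Γ) :
    (I → E) →ₗ[E] (I → E) where
  toFun := fun c i ↦ (m γ (γ⁻¹ • i) : Eˣ) * c (γ⁻¹ • i)
  map_add' := fun a b ↦ by funext i; simp [mul_add]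
  map_smul' := fun r a ↦ by funext i; simp [mul_left_comm]

/-- The functions which vanish outside `A`. -/
def supp (E : Type) {I : Type} [Field E] (A : Finset I) : Submodule E (I → E) where
  carrier := {c | ∀ i, i ∉ A → c i = 0}
  add_mem' := fun {a b} ha hb i hi ↦ by rw [Pi.add_apply, ha i hi, hb i hi, add_zero]
  zero_mem' := fun i _ ↦ rfl
  smul_mem' := fun r a ha i hi ↦ by rw [Pi.smul_apply, ha i hi, smul_zero]

/-- The vectors fixed by the operator `f`. -/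
def fixL {E V : Type} [Field E] [AddCommGroup V] [Module E V] (f : V →ₗ[E] V) : Submodule E V :=
  LinearMap.ker (f - LinearMap.id)

/-- **ST_PIV** (pivots). For a subspace `V` of `E^I` there is a set `P` of coordinates, `|P| = dim V`, with `dim (V ∩ E^A) ≤ |A ∩ P|` for all `A`.

PROOF. The restrictions to `V` of the coordinate functions span the dual of `V` (a vector of `V` with all coordinates `0` is `0`), so some of them, indexed by a set `P` with `|P| = dim V`, are a basis of the dual (`exists_linearIndependent`, or `Basis.extend`/`exists_fun_fin_finrank_span_eq`). The map `V → E^P` is injective. For `A`, it maps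
`V ∩ E^A` injectively into the space of functions on `P` which vanish outside `P ∩ A`, of dimension `|P ∩ A|`. -/
def ST_PIV : Prop := ∀ (E I : Type) [Field E] [Fintype I] [DecidableEq I]
  (V : Submodule E (I → E)), ∃ P : Finset I, P.card = finrank E V ∧
    ∀ A : Finset I, finrank E (V ⊓ supp E A : Submodule E (I → E)) ≤ (A ∩ P).card

/-- **ST_AVG** (averaging). `V` is stable under the monomial operators of a group acting transitively on `I`. Then `|I| dim (V ∩ E^A) ≤ |A| dim V`.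

PROOF (from `ST_PIV`). Let `H` be the image of `Γ` in `Equiv.Perm I` (finite, `MulAction.toPermHom`), transitive. Let `f(A) = dim (V ∩ E^A)`. `ρ(γ)` is invertible (`ρ(γ) ρ(γ⁻¹) = ρ(1)` and `m 1 i = 1` by the cocycle condition: `ρ` is a homomorphism, `rho m (γ δ) = rho m γ ∘ rho m δ`) and maps `V ∩ E^A` onto `V ∩ E^(γ A)`, so `f(π A) = f(A)` for `π ∈ H`. Let `P` be given by
`ST_PIV`. Then `|H| f(A) = ∑_(π ∈ H) f(π A) ≤ ∑_π |π A ∩ P| = ∑_(j ∈ P) ∑_(i ∈ A) #{π ∈ H : π i = j}`, and `#{π : π i = j} = |H|/|I|` for all `i, j` (for fixed `i` these numbers are all equal by transitivity: `π ↦ π₀ π`, and their sum over `j` is `|H|`). So `|H| f(A) ≤ |P| |A| |H| / |I|`. -/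
def ST_AVG : Prop := ∀ (E I Γ : Type) [Field E] [Fintype I] [DecidableEq I] [Group Γ]
  [MulAction Γ I] (m : Γ → I → Eˣ), IsCoc m → (∀ i j : I, ∃ γ : Γ, γ • i = j) →
  ∀ V : Submodule E (I → E), (∀ γ, ∀ v ∈ V, rho m γ v ∈ V) → ∀ A : Finset I,
    Fintype.card I * finrank E (V ⊓ supp E A : Submodule E (I → E)) ≤ A.card * finrank E V

/-- **ST_HALF** (the plus part is half of `V`).

PROOF. `ρ` is a homomorphism (cocycle condition, `m 1 i = 1`), `C = ρ(c)`, `C² = 1`. For `g` acting trivially on `I`, `ρ(g)` is the diagonal operator with entries `m g i`; `c g c⁻¹ = c g c` acts also trivially. `D_g = ρ(g) - ρ(c g c⁻¹)` is diagonal with entries `m g i - m (c g c⁻¹) i`, and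
`C D_g C = ρ(c g c⁻¹) - ρ(c² g c⁻²) = -D_g` (`c⁻¹ = c`). For every `i` let `g_i` be as in the hypothesis. There are `t_j ∈ E` (for example integers, as `E` has characteristic `0`) such that all the entries `∑_j t_j (m g_j i - m (c g_j c⁻¹) i)` of `D = ∑_j t_j D_(g_j)` are nonzero: for every `i` this is a nonzero linear form in `t` (the coefficient of `t_i` is not `0`), and a
vector space over an infinite field is not a finite union of proper subspaces (Mathlib: `Subspace.top_mem_of_biUnion_eq_univ` or `Module.Dual.exists_forall_ne_zero...`; or use the polynomial `∏_i ∑_j t^j ...`: see also `exists_forall_mem_ne_zero`, search). `D` is injective, maps `V` to `V`, `C D = -D C`. Let `V⁺ = V ∩ ker(C - 1)`, `V⁻ = V ∩ ker(C + 1)`; `V = V⁺ ⊕ V⁻` (`v = (v + Cv)/2 + (v - Cv)/2`). `D` maps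
`V⁺` injectively into `V⁻` and `V⁻` injectively into `V⁺`, so they have the same dimension. -/
def ST_HALF : Prop := ∀ (E I Γ : Type) [Field E] [CharZero E] [Fintype I] [DecidableEq I] [Group Γ]
  [MulAction Γ I] (m : Γ → I → Eˣ), IsCoc m → ∀ c : Γ, c * c = 1 →
  (∀ i : I, ∃ g : Γ, (∀ j : I, g • j = j) ∧ m g i ≠ m (c * g * c⁻¹) i) →
  ∀ V : Submodule E (I → E), (∀ γ, ∀ v ∈ V, rho m γ v ∈ V) →
    finrank E V = 2 * finrank E (V ⊓ fixL (rho m c) : Submodule E (I → E))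

/-- The `x ∈ E^d` with `∑ ε(x_r) ε(v_i) α(r,i) = 0` for all `v ∈ V`. -/
def annA {E : Type} [Field E] (ε : E →+* ℂ) {d : ℕ} {I : Type} [Fintype I] (α : Fin d → I → ℂ)
    (V : Set (I → E)) : Submodule E (Fin d → E) where
  carrier := {x | ∀ v ∈ V, ∑ r, ∑ i, ε (x r) * ε (v i) * α r i = 0}
  add_mem' := fun {a b} ha hb c hc ↦ by
    have h1 := ha c hc
    have h2 := hb c hc
    simp only [Pi.add_apply, map_add, add_mul, Finset.sum_add_distrib, h1, h2, add_zero]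
  zero_mem' := fun c _ ↦ by simp
  smul_mem' := fun r a ha c hc ↦ by
    have h1 := ha c hc
    simp only [Pi.smul_apply, smul_eq_mul, map_mul, mul_assoc, ← Finset.mul_sum] at h1 ⊢
    rw [h1, mul_zero]

/-- **ST_PAIR** (the pairing).

PROOF. Let `v_1, ..., v_n` be a basis of `V⁺ = V ⊓ fixL (rho m c)`, `n = dim V⁺`. Let `T : E^d → ℂ^n`, `T(x)_j = ∑_r ∑_i ε(x_r) ε(v_j(i)) α(r,i)`; it is additive and `T(e x) = ε(e) T(x)`; regard `ℂ^n` as a vector space over `E` through `ε` (`Module.compHom`, or work with the `E`-subspace generated). `ker T ⊇ annA ε α V` (`v_j ∈ V`), so `dim_E T(E^d) ≤ d - dim annA ε α V`.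
The vectors `T(e_r)`, `r = 1, ..., d`, span `ℂ^n` over `ℂ`: otherwise there is `0 ≠ z ∈ ℂ^n` with `∑_j z_j T(e_r)_j = 0` for all `r`, that is `∑_i w_i α(r,i) = 0` with `w_i = ∑_j z_j ε(v_j(i))`. By the last hypothesis `w_i + ε(m c (c i)) w_(c i) = 0` for all `i`. But `v_j = ρ(c) v_j`, i.e. `v_j(i) = m c (c⁻¹ i) v_j(c⁻¹ i)`, and `c⁻¹ = c`; so
`w_i = ε(m c (c i)) w_(c i)`; so `2 w_i = 0`, `w = 0`. The vectors `ε ∘ v_j ∈ ℂ^I` are linearly independent over `ℂ` (the `v_j` are linearly independent over `E`: some `n × n` minor of the matrix `v_j(i)` is not zero, and `ε` preserves it; or `LinearIndependent.map_of_injective...`, `Matrix.rank_map`), so `z = 0`. So `T(E^d)` contains `n` vectors which are linearly independent over `ℂ`, hence over `E`: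
`n ≤ dim_E T(E^d)`. -/
def ST_PAIR : Prop := ∀ (E I Γ : Type) [Field E] [CharZero E] [Fintype I] [DecidableEq I] [Group Γ]
  [MulAction Γ I] (m : Γ → I → Eˣ) (c : Γ), c * c = 1 → ∀ (ε : E →+* ℂ) (d : ℕ)
  (α : Fin d → I → ℂ),
  (∀ z : I → ℂ, (∀ r, ∑ i, z i * α r i = 0) → ∀ i, z i + ε (m c (c • i) : Eˣ) * z (c • i) = 0) →
  ∀ V : Submodule E (I → E),
    finrank E (V ⊓ fixL (rho m c) : Submodule E (I → E)) + finrank E (annA ε α (V : Set (I → E))) ≤ d

/-- **ST** (the structure theorem).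

PROOF (from `ST_AVG`, `ST_HALF`, `ST_PAIR`). Let `V` be the span of all the `ρ(γ) v`, `v ∈ C'`, `γ ∈ Γ`; it is stable under the `ρ(γ)` (`ρ` is a homomorphism) and contains `C'` (`ρ(1) = 1`). `annA ε α {ρ(γ) v}` `= annA ε α V` (the condition is linear in `v`; it is the space of the statement). `C' ⊆ V ∩ E^A`, so
`2 d dim C' ≤ |I| dim(V ∩ E^A) ≤ |A| dim V = 2 |A| dim V⁺ ≤ 2 |A| (d - dim annA)`. -/
def ST : Prop := ∀ (E I Γ : Type) [Field E] [CharZero E] [Fintype I] [DecidableEq I] [Group Γ]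
  [MulAction Γ I] (m : Γ → I → Eˣ), IsCoc m → (∀ i j : I, ∃ γ : Γ, γ • i = j) →
  ∀ c : Γ, c * c = 1 → (∀ i : I, ∃ g : Γ, (∀ j : I, g • j = j) ∧ m g i ≠ m (c * g * c⁻¹) i) →
  ∀ (ε : E →+* ℂ) (d : ℕ) (α : Fin d → I → ℂ), Fintype.card I = 2 * d →
  (∀ z : I → ℂ, (∀ r, ∑ i, z i * α r i = 0) → ∀ i, z i + ε (m c (c • i) : Eˣ) * z (c • i) = 0) →
  ∀ (A : Finset I) (C : Submodule E (I → E)), C ≤ supp E A →
    d * finrank E C ≤
      A.card * (d - finrank E (annA ε α {w : I → E | ∃ γ, ∃ v ∈ C, w = rho m γ v}))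

/-! ## Part S: units -/

/-- `∑_g ε(χ(g⁻¹)) log |ρ(g u)|`. -/
noncomputable def alog {K F E : Type} [Field K] [Field F] [NumberField F] [Algebra K F]
    [Fintype (F ≃ₐ[K] F)] [Field E] (ε : E →+* ℂ) (χ : (F ≃ₐ[K] F) →* Eˣ) (ρ : F →+* ℂ)
    (u : Additive (𝓞 F)ˣ) : ℂ :=
  ∑ g, ε (χ g⁻¹ : Eˣ) * archLog ρ (unitsHom g u)

/-- **U_ARC** (Dirichlet). `K` is totally complex, the `ρ_j`, `j < d`, are above different places of `K`. There are units `u_1, ..., u_d` with `det (alog(ρ_j, u_i)) ≠ 0`.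

PROOF (generalises `S_GA2`, theorem `Pool/Agent/Helper8/SL/GA2.lean`). The functions `u ↦ alog ε χ (ρ j) u`, `j < d`, are linearly independent over `ℂ`: let `∑_j z_j alog(ρ_j, u) = 0` for all `u`: `∑_j ∑_g z_j ε(χ(g⁻¹)) log |ρ_j(g u)| = 0`. The places of the embeddings `ρ_j ∘ g` are all different: if `ρ_j g` and `ρ_j' g'` give the same place of `F` then they are equal or complex conjugate;
restricting to `K` gives the same place of `K`, so `j = j'`; `ρ_j g = ρ_j g'` implies `g = g'`, and `conj ∘ ρ_j g = ρ_j g'` is impossible (restrict to `K`: the embedding `ρ_j|K` would be real). By `log_relation_const` (`Helper51/SixExp/Arch.lean`, for real and imaginary parts) the coefficients at all the places of `F` are equal, so `z_j ε(χ(g⁻¹))` does not depend on `g` (and `j`). `χ ≠ 1`, so `z_j (ε(χ(g⁻¹)) - 1) = 0` for some `g` with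
`χ(g⁻¹) ≠ 1`, `z_j = 0`. Then `Pool.Agent.Helper17.SL.S_DETP` (theorem `PkDETP.thm`, `Pool/Agent/Helper60/SL/DETP.lean`) gives the units. -/
def U_ARC : Prop := ∀ (K F : Type) [Field K] [NumberField K] [IsTotallyComplex K] [Field F]
  [NumberField F] [Algebra K F] [IsGalois K F] [Fintype (F ≃ₐ[K] F)] (E : Type) [Field E]
  (ε : E →+* ℂ) (χ : (F ≃ₐ[K] F) →* Eˣ), χ ≠ 1 → ∀ (d : ℕ) (ρ : Fin d → (F →+* ℂ)),
  (∀ i j, InfinitePlace.mk ((ρ i).comp (algebraMap K F)) =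
    InfinitePlace.mk ((ρ j).comp (algebraMap K F)) → i = j) →
  ∃ u : Fin d → Additive (𝓞 F)ˣ, Matrix.det (fun i j ↦ alog ε χ (ρ j) (u i)) ≠ 0

/-- The part of `k ⊗ U` on which `G` acts through `χ`. -/
noncomputable def gPart {K F k : Type} [Field K] [Field F] [Algebra K F] [Field k]
    (χ : (F ≃ₐ[K] F) →* kˣ) : Submodule k (k ⊗[ℤ] Additive (𝓞 F)ˣ) where
  carrier := {v | ∀ g, extEnd (unitsHom g) v = ((χ g : kˣ) : k) • v}
  add_mem' := fun {a b} ha hb g ↦ by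
    have ha' := ha g
    have hb' := hb g
    rw [map_add, ha', hb', smul_add]
  zero_mem' := fun g ↦ by rw [map_zero, smul_zero]
  smul_mem' := fun r x hx g ↦ by
    have hx' := hx g
    rw [map_smul, hx', smul_comm]

/-- **U_TRD** (the dimension of the `χ`-part does not depend on the field of coefficients).

PROOF. Let `n = |G|`, `U = Additive (𝓞 F)ˣ` (finitely generated), `e = n⁻¹ ∑_g j(χ(g⁻¹)) extEnd (unitsHom g)` on `k ⊗ U`; it is a projection onto `gPart (j χ)` (`e v = v` for `v` in it; `g e v = j(χ g) e v` for all `v`). So `finrank k (gPart) = trace e` in `k` (`LinearMap.IsProj.trace`, or `LinearMap.trace_eq_finrank...` for idempotents), and `trace e = n⁻¹ ∑_g j(χ(g⁻¹)) trace(extEnd (unitsHom g))`. The trace of the base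
change to `k` of an endomorphism `f` of the finitely generated abelian group `U` is the image in `k` of the integer `t(f)` = trace of `f` on the free group `U/torsion` (`k ⊗ U ≅ k ⊗ (U/torsion)`, `LinearMap.trace_baseChange`); so `trace e = j(a)` with `a = n⁻¹ ∑_g χ(g⁻¹) t(unitsHom g) ∈ E`. The same for `k'`, `j'`: with `N = finrank k (gPart)`, `N' = finrank k' (gPart)`: `j(N) = j(a)`, `j'(N') = j'(a)`, so
`N = a = N'` in `E`, which has characteristic `0`. (Another way: both are equal to the dimension over `E` of the `χ`-part of `E ⊗ U`, because `k` is flat over `E`.) -/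
def U_TRD : Prop := ∀ (K F : Type) [Field K] [NumberField K] [Field F] [NumberField F] [Algebra K F]
  [IsGalois K F] (E k k' : Type) [Field E] [CharZero E] [Field k] [CharZero k] [Field k']
  [CharZero k'] (j : E →+* k) (j' : E →+* k') (χ : (F ≃ₐ[K] F) →* Eˣ),
  finrank k (gPart ((Units.map (j : E →* k)).comp χ)) =
    finrank k' (gPart ((Units.map (j' : E →* k')).comp χ))

/-- **U_DIMC** (the dimension over `ℂ`).

PROOF (from `U_ARC`, `S_GA3` (theorem `Pool.Agent.Helper17.SL.PkGA3.thm`, in `Pool/Agent/Helper26/SL/GA3.lean`)). `K` is totally complex of degree `2d`; choose embeddings `κ_1, ..., κ_d` of `K` in `ℂ`, one for each place, and extensions `ρ_j` to `F`. *Lower bound:* `U_ARC` (`E = ℂ`, `ε = id`) gives `u_i`; `v_i = ∑_g χ(g⁻¹) ⊗ g u_i ∈ gPart χ` and `extHom (archLog ρ_j) v_i = alog(ρ_j, u_i)`, so the `v_i` are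
linearly independent. *Upper bound:* the map `v ↦ (extHom (archLog ρ_j) v)_j`, `gPart χ → ℂ^d` is injective: let all `extHom (archLog ρ_j) v = 0`. An arbitrary embedding `ρ` of `F` is above the place of one `κ_j`, so `ρ` or its conjugate has the same restriction to `K` as `ρ_j`, and is `ρ_j ∘ g` for some `g ∈ G` (`S_GA7`). `archLog` of `ρ` and its conjugate are equal, and `extHom (archLog (ρ_j g)) v = extHom (archLog ρ_j) (g v) = χ(g) · 0`. So
`v = 0` by `S_GA3` (`Phi (id) ℓ = extHom ℓ`). -/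
def U_DIMC : Prop := ∀ (K F : Type) [Field K] [NumberField K] [IsTotallyComplex K] [Field F]
  [NumberField F] [Algebra K F] [IsGalois K F] (χ : (F ≃ₐ[K] F) →* ℂˣ), χ ≠ 1 →
  ∀ d : ℕ, finrank ℚ K = 2 * d → finrank ℂ (gPart χ) = d

section action

variable {K : Type} [Field K]

/-- `Aut(Ω)` acts on the embeddings `K → Ω`. -/
noncomputable instance actEmb : MulAction (AlgebraicClosure K ≃+* AlgebraicClosure K)
    (K →+* AlgebraicClosure K) where
  smul := fun γ σ ↦ (γ : AlgebraicClosure K →+* AlgebraicClosure K).comp σ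
  one_smul := fun σ ↦ by ext x; rfl
  mul_smul := fun γ δ σ ↦ by ext x; rfl

end action

/-- **A_TRV** (transitivity).

PROOF. `Ω` is an algebraic closure of `σ(K)` and of `τ(K)` (`Ω/ℚ` is algebraic and `Ω` is algebraically closed). So the isomorphism `τ σ⁻¹ : σ(K) → τ(K)` extends to an automorphism of `Ω`: regard `Ω` as a `K`-algebra through `σ` and through `τ`, both are algebraic closures of `K` (`IsAlgClosure.of...`, `Algebra.IsAlgebraic` by `ℚ ⊆ K`), and use `IsAlgClosure.equiv`. -/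
def A_TRV : Prop := ∀ (K : Type) [Field K] [NumberField K] (σ τ : K →+* AlgebraicClosure K),
  ∃ γ : AlgebraicClosure K ≃+* AlgebraicClosure K, γ • σ = τ

/-- **A_CCJ** (complex conjugation on `Ω`).

PROOF. `ι_∞(Ω)` is the algebraic closure of `ℚ` in `ℂ` (`Ω` is algebraically closed and algebraic over `ℚ`), which is stable under complex conjugation. So `c = ι_∞⁻¹ ∘ conj ∘ ι_∞` is well defined (`RingHom.codRestrict`, `RingEquiv.ofInjective`...; or: for `x` algebraic over `ℚ`, `conj (ι_∞ x)` is a root of the minimal polynomial of `x`, whose roots in `ℂ` are the images of its roots in `Ω`), an involution. -/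
def A_CCJ : Prop := ∀ (K : Type) [Field K] [NumberField K] (ιinf : AlgebraicClosure K →+* ℂ),
  ∃ c : AlgebraicClosure K ≃+* AlgebraicClosure K, c * c = 1 ∧
    ∀ x, ιinf (c x) = starRingEnd ℂ (ιinf x)

/-- **A_LFT** (lifts and the cocycle `h`).

PROOF. For `σ : K → Ω` let `s σ : F → Ω` be an extension (`F/K` is algebraic, `Ω` algebraically closed: `IsAlgClosed.lift` with `Ω` a `K`-algebra through `σ`). For `γ`, `σ`: `γ ∘ s σ` and `s (γ σ)` have the same restriction `γ σ` to `K`, so `γ ∘ s σ = s(γ σ) ∘ h γ σ` with `h γ σ ∈ Gal(F/K)` (`S_GA7`, theorem `Pool.Agent.Helper17.SL.PkGA7.thm` in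
`Pool/Agent/Helper12/SL/GA7.lean`), unique as `s(γ σ)` is injective. Cocycle: `γ δ s σ = γ s(δ σ) h(δ, σ) = s(γ δ σ) h(γ, δ σ) h(δ, σ)`. -/
def A_LFT : Prop := ∀ (K : Type) [Field K] [NumberField K] (F : Type) [Field F] [NumberField F]
  [Algebra K F] [IsGalois K F],
  ∃ (s : (K →+* AlgebraicClosure K) → (F →+* AlgebraicClosure K))
    (h : (AlgebraicClosure K ≃+* AlgebraicClosure K) → (K →+* AlgebraicClosure K) → (F ≃ₐ[K] F)),
    (∀ σ, (s σ).comp (algebraMap K F) = σ) ∧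
    (∀ (γ : AlgebraicClosure K ≃+* AlgebraicClosure K) σ (x : F), γ (s σ x) = s (γ • σ) (h γ σ x)) ∧
    ∀ γ δ σ, h (γ * δ) σ = h γ (δ • σ) * h δ σ

/-- **A_CM** (complex conjugation commutes with the embeddings of a CM field): for every `σ : K → Ω`, `c ∘ σ = σ ∘ J`, where `J` is the nontrivial automorphism of `K/F₀`.

PROOF. `ι_∞ σ` is a complex embedding of `K` (not real), its restriction to `F₀` is real (`F₀` is totally real). `conj ∘ ι_∞ σ` has the same restriction to `F₀`, so it is `ι_∞ σ ∘ J'` with `J' ∈ Gal(K/F₀)` (`K/F₀` is Galois of degree `2`), `J' ≠ 1`, so `J' = J`. (Compare `conj_comp_eq`, `eq_or_eq_conjugate` in `Pool/Agent/Helper17/SL/TargetA.lean`.) Then `ι_∞ (c (σ x)) = ι_∞ (σ (J x))`, and `ι_∞` is injective. `J` is an involution, and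
`c ∘ σ ≠ σ`. -/
def A_CM : Prop := ∀ (F₀ K : Type) [Field F₀] [NumberField F₀] [IsTotallyReal F₀] [Field K]
  [NumberField K] [IsTotallyComplex K] [Algebra F₀ K], finrank F₀ K = 2 →
  ∃ J : K ≃+* K, (∀ x, J (J x) = x) ∧
    ∀ (ιinf : AlgebraicClosure K →+* ℂ) (c : AlgebraicClosure K ≃+* AlgebraicClosure K),
      (∀ x, ιinf (c x) = starRingEnd ℂ (ιinf x)) → ∀ σ : K →+* AlgebraicClosure K,
        (∀ x, c (σ x) = σ (J x)) ∧ c • σ ≠ σ

/-- **A_MVD** (the hypothesis of `ST_HALF` from `Moved`). `s`, `h` as in `A_LFT`, `χ' : Gal(F/K) → Eˣ` with `j(χ'(g|F)) = χ(g)`.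

PROOF (from `A_TRV`, `A_CM`). Let `m γ σ = χ'(h γ σ)`, a cocycle with values in a commutative group; so `m (δ g δ⁻¹) i = m g (δ⁻¹ i)` if `g` acts trivially on all the embeddings: `m(δ g δ⁻¹)(i) = m(δ)(g δ⁻¹ i) m(g)(δ⁻¹ i) m(δ⁻¹)(i)` and `m(δ)(δ⁻¹ i) m(δ⁻¹)(i) = m(1)(i) = 1`. Let `σ₀ = algebraMap K Ω`, and let `g` be as in `Moved` (as a ring automorphism of `Ω`), `g' = c g c⁻¹` (third condition with `y = c x`: `ι_∞(g' (c x)) = conj ι_∞(g x) = ι_∞(c (g x))`).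
For an automorphism `g ∈ Gal(Ω/K)`: `m g σ₀ = χ'(g|F)`: there is `h₀ ∈ Gal(F/K)` with `s σ₀ = val ∘ h₀` (`val : F → Ω` the inclusion; both extend `σ₀`), `g ∘ s σ₀ = val ∘ g|F ∘ h₀ = s σ₀ ∘ (h₀⁻¹ g|F h₀)`, so `h g σ₀ = h₀⁻¹ g|F h₀` and `χ'` of it is `χ'(g|F)`. So `m g σ₀ ≠ m (c g c⁻¹) σ₀` (as `χ(g) ≠ χ(g')`). Let `i` be any embedding, `i = γ σ₀` (`A_TRV`), `g_i = γ g γ⁻¹`; it acts trivially on all the embeddings (`g` fixes all `τ(K)`:
`γ g γ⁻¹ τ = γ γ⁻¹ τ`). `m g_i i = m g σ₀`. `m (c g_i c⁻¹) i = m((c γ) g (c γ)⁻¹) i = m g (γ⁻¹ c⁻¹ γ σ₀)`, and by `A_CM` `c⁻¹ γ σ₀ = γ σ₀ ∘ J = γ (σ₀ ∘ J) = γ (c⁻¹ σ₀)` (`c⁻¹ = c`; `J` is an involution), so it is `m g (c⁻¹ σ₀) = m (c g c⁻¹) σ₀`. -/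
def A_MVD : Prop := ∀ (F₀ K : Type) [Field F₀] [NumberField F₀] [IsTotallyReal F₀] [Field K]
  [NumberField K] [IsTotallyComplex K] [Algebra F₀ K], finrank F₀ K = 2 →
  ∀ (p : ℕ) [Fact p.Prime] (ιinf : AlgebraicClosure K →+* ℂ)
    (c : AlgebraicClosure K ≃+* AlgebraicClosure K), c * c = 1 →
    (∀ x, ιinf (c x) = starRingEnd ℂ (ιinf x)) →
  ∀ (F : IntermediateField K (AlgebraicClosure K)) [NumberField F] [IsGalois K F]
    (χ : Chr K (AlgebraicClosure K) ℂ_[p]), Moved ιinf χ →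
  ∀ (E : Type) [Field E] (j : E →+* ℂ_[p]) (χ' : (F ≃ₐ[K] F) →* Eˣ),
    (∀ g, j (χ' (AlgEquiv.restrictNormalHom F g) : Eˣ) = ((χ g : ℂ_[p]ˣ) : ℂ_[p])) →
  ∀ (s : (K →+* AlgebraicClosure K) → (F →+* AlgebraicClosure K))
    (h : (AlgebraicClosure K ≃+* AlgebraicClosure K) → (K →+* AlgebraicClosure K) → (F ≃ₐ[K] F)),
    (∀ σ, (s σ).comp (algebraMap K F) = σ) →
    (∀ (γ : AlgebraicClosure K ≃+* AlgebraicClosure K) σ (x : F),
      γ (s σ x) = s (γ • σ) (h γ σ x)) →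
    (∀ γ δ σ, h (γ * δ) σ = h γ (δ • σ) * h δ σ) →
  ∀ i : K →+* AlgebraicClosure K, ∃ g : AlgebraicClosure K ≃+* AlgebraicClosure K,
    (∀ τ : K →+* AlgebraicClosure K, g • τ = τ) ∧ χ' (h g i) ≠ χ' (h (c * g * c⁻¹) i)

/-- **A_NDG** (the archimedean matrix). `α(r, σ) = alog(ι_∞ s(σ), u_r)`.

PROOF (from `U_ARC`, `A_CM`). Choose a set `σ_1, ..., σ_d` of representatives of the embeddings `K → Ω` modulo `σ ~ c σ` (`c σ ≠ σ` by `A_CM`, `c² = 1`, there are `2d` embeddings; the places of `K` of `ι_∞ σ_j` are different, because `ι_∞ c σ` is the conjugate of `ι_∞ σ` and `ι_∞ ∘` is injective). `U_ARC` for `ρ_j = ι_∞ ∘ s(σ_j)` gives `u` with `det α(i, σ_j) ≠ 0`. *Invariance:*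
`α(r, σ) = ε(χ'(h c σ)) α(r, c σ)`: `log |ι_∞ s(σ)(g u)| = log |ι_∞ c s(σ)(g u)|` and `c s(σ) = s(c σ) h`, `h = h(c, σ)`; `∑_g ε(χ'(g⁻¹)) log |ι_∞ s(cσ)(h g u)| = ε(χ'(h)) ∑_g' ε(χ'(g'⁻¹)) log |ι_∞ s(cσ)(g' u)|` (`g' = h g`). *Nondegeneracy:* let `∑_σ z_σ α(r, σ) = 0` for all `r`. Group the terms of `σ` and `c σ`: `α(r, cσ) = ε(χ'(h c σ))⁻¹ α(r, σ)`, so
`∑_j (z_(σ_j) + ε(χ'(h c σ_j))⁻¹ z_(c σ_j)) α(r, σ_j) = 0` for all `r`, hence `z_σ + ε(χ'(h c σ))⁻¹ z_(cσ) = 0` for `σ = σ_j`. As `χ'(h c (cσ)) χ'(h c σ) = χ'(h (c c) σ) = χ'(h 1 σ) = 1`, this is `z_σ + ε(χ'(h c (cσ))) z_(cσ) = 0` for `σ = σ_j`, and multiplying by `ε(χ'(h c σ))` also for `cσ_j`. -/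
def A_NDG : Prop := ∀ (F₀ K : Type) [Field F₀] [NumberField F₀] [IsTotallyReal F₀] [Field K]
  [NumberField K] [IsTotallyComplex K] [Algebra F₀ K], finrank F₀ K = 2 →
  ∀ (ιinf : AlgebraicClosure K →+* ℂ) (c : AlgebraicClosure K ≃+* AlgebraicClosure K), c * c = 1 →
    (∀ x, ιinf (c x) = starRingEnd ℂ (ιinf x)) →
  ∀ (F : Type) [Field F] [NumberField F] [Algebra K F] [IsGalois K F] [Fintype (F ≃ₐ[K] F)]
    (E : Type) [Field E] (ε : E →+* ℂ) (χ' : (F ≃ₐ[K] F) →* Eˣ), χ' ≠ 1 →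
  ∀ (s : (K →+* AlgebraicClosure K) → (F →+* AlgebraicClosure K))
    (h : (AlgebraicClosure K ≃+* AlgebraicClosure K) → (K →+* AlgebraicClosure K) → (F ≃ₐ[K] F)),
    (∀ σ, (s σ).comp (algebraMap K F) = σ) →
    (∀ (γ : AlgebraicClosure K ≃+* AlgebraicClosure K) σ (x : F),
      γ (s σ x) = s (γ • σ) (h γ σ x)) →
    (∀ γ δ σ, h (γ * δ) σ = h γ (δ • σ) * h δ σ) →
  ∃ u : Fin (finrank ℚ F₀) → Additive (𝓞 F)ˣ, ∀ z : (K →+* AlgebraicClosure K) → ℂ,
    (∀ r, ∑ σ, z σ * alog ε χ' (ιinf.comp (s σ)) (u r) = 0) →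
    ∀ σ, z σ + ε (χ' (h c (c • σ)) : Eˣ) * z (c • σ) = 0

/-- **R_MAT** (rank of the `p`-adic matrix). `a` embeddings `σ_1, ..., σ_a` of `K`, `M(r, q) = ∑_g ι_p(lam χ'(g⁻¹)) Λ(ι_p s(σ_q)(g u_r))` has rank at least `a d/(a + d)`.

PROOF (from `S_RK`, `ST`, `A_TRV`, `S_TRANS` (theorem `Pool.Agent.Helper17.SL.trans_holds`)). `S_RK` with `s = d`, `t = a`, `R = Gal(F/K)`, `b r q g = χ'(g⁻¹)`, `y r q g = s(σ_q)(g u_r)`. It remains to show `d dim C ≤ a (d - dim annM C)` for `C ≤ E^a`. Let `I = (K →+* Ω)`, `|I| = [K : ℚ] = 2d`, `A = {σ_1, ..., σ_a}`, `C'` the image of `C` in `E^I` (extension by zero; `dim C' = dim C`). Apply `ST` with `Γ = Aut(Ω)`,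
`m γ σ = χ'(h γ σ)`, `ε = ι_∞ ∘ lam`, `α(r, σ) = alog(ι_∞ s(σ), u_r)`: `d dim C ≤ a (d - dim annA)`, so we need `annM C ⊆ annA`. Let `x ∈ annM C`, `v ∈ C'`, `γ ∈ Γ`: `∑_r ∑_σ ∑_g ι_p lam(x_r v_σ χ'(g⁻¹)) Λ(ι_p s(σ)(g u_r)) = 0`. `S_TRANS` (with `ε = ι_∞ ∘ lam`, `ι' = ι_∞ ∘ γ`) gives
`∑_r ∑_σ ∑_g ε(x_r v_σ χ'(g⁻¹)) log |ι_∞ γ s(σ)(g u_r)| = 0`. As `γ s(σ) = s(γσ) h`, `h = h(γ, σ)`, the sum over `g` is `ε(χ'(h)) alog(ι_∞ s(γσ), u_r)` (substitute `g' = h g`). So `∑_r ∑_σ ε(x_r) ε(χ'(h γ σ) v_σ) α(r, γσ) = 0`, which is `∑_r ∑_i ε(x_r) ε((rho m γ v)_i) α(r, i) = 0` (`i = γ σ`). -/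
def R_MAT : Prop := S_RK → ST → ∀ (F₀ K : Type) [Field F₀] [NumberField F₀] [IsTotallyReal F₀]
  [Field K] [NumberField K] [IsTotallyComplex K] [Algebra F₀ K], finrank F₀ K = 2 →
  ∀ (p : ℕ) [Fact p.Prime] (ιinf : AlgebraicClosure K →+* ℂ) (ιp : AlgebraicClosure K →+* ℂ_[p])
    (Lg : IwasawaLog p ℂ_[p]) (c : AlgebraicClosure K ≃+* AlgebraicClosure K), c * c = 1 →
  ∀ (F : Type) [Field F] [NumberField F] [Algebra K F] [IsGalois K F] [Fintype (F ≃ₐ[K] F)]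
    (E : Type) [Field E] [NumberField E] (lam : E →+* AlgebraicClosure K)
    (χ' : (F ≃ₐ[K] F) →* Eˣ)
    (s : (K →+* AlgebraicClosure K) → (F →+* AlgebraicClosure K))
    (h : (AlgebraicClosure K ≃+* AlgebraicClosure K) → (K →+* AlgebraicClosure K) → (F ≃ₐ[K] F)),
    (∀ σ, (s σ).comp (algebraMap K F) = σ) →
    (∀ (γ : AlgebraicClosure K ≃+* AlgebraicClosure K) σ (x : F),
      γ (s σ x) = s (γ • σ) (h γ σ x)) →
    (∀ γ δ σ, h (γ * δ) σ = h γ (δ • σ) * h δ σ) →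
    (∀ i : K →+* AlgebraicClosure K, ∃ g : AlgebraicClosure K ≃+* AlgebraicClosure K,
      (∀ τ : K →+* AlgebraicClosure K, g • τ = τ) ∧ χ' (h g i) ≠ χ' (h (c * g * c⁻¹) i)) →
  ∀ u : Fin (finrank ℚ F₀) → Additive (𝓞 F)ˣ,
    (∀ z : (K →+* AlgebraicClosure K) → ℂ,
      (∀ r, ∑ σ, z σ * alog (ιinf.comp lam) χ' (ιinf.comp (s σ)) (u r) = 0) →
      ∀ σ, z σ + (ιinf.comp lam) (χ' (h c (c • σ)) : Eˣ) * z (c • σ) = 0) →
  ∀ (a : ℕ) (σ : Fin a → (K →+* AlgebraicClosure K)), Function.Injective σ →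
    a * finrank ℚ F₀ ≤ (a + finrank ℚ F₀) *
      Matrix.rank (fun (r : Fin (finrank ℚ F₀)) (q : Fin a) ↦
        ∑ g, ιp (lam (χ' g⁻¹ : Eˣ)) * logUnits Lg (ιp.comp (s (σ q))) (unitsHom g (u r)))

/-- **R_KD** (from the rank of the matrix to the dimension of the kernel).

PROOF. Let `v_r = ∑_g ι_p lam χ'(g⁻¹) ⊗ g u_r ∈ ℂ_p ⊗ U`; then `v_r ∈ gPart χ` (`χ = ι_p lam χ'`), and `extHom (logUnits Lg (ιp s(σ_q))) v_r = M(r, q)`. The linear map `L : gPart χ → ℂ_p^a`, `v ↦ (extHom (logUnits Lg (ιp.comp (s (σ q)))) v)_q` has rank at least `rank M` (its range contains the rows of `M`). The intersection of `gPart χ` with the space `Z` killed by all the logarithms `τ` above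
`{ι_p σ_q}` is contained in the kernel of `L` (the `ιp ∘ s(σ_q)` are such `τ`). So `dim (gPart χ ⊓ Z) ≤ dim gPart χ - rank M`. -/
def R_KD : Prop := ∀ (K : Type) [Field K] [NumberField K] (p : ℕ) [Fact p.Prime]
    (ιp : AlgebraicClosure K →+* ℂ_[p]) (Lg : IwasawaLog p ℂ_[p]) (F : Type) [Field F]
    [NumberField F] [Algebra K F] [IsGalois K F] [Fintype (F ≃ₐ[K] F)]
    (E : Type) [Field E] [NumberField E] (lam : E →+* AlgebraicClosure K)
    (χ' : (F ≃ₐ[K] F) →* Eˣ) (s : (K →+* AlgebraicClosure K) → (F →+* AlgebraicClosure K)),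
    (∀ σ, (s σ).comp (algebraMap K F) = σ) →
  ∀ (d : ℕ) (u : Fin d → Additive (𝓞 F)ˣ) (a : ℕ) (σ : Fin a → (K →+* AlgebraicClosure K))
    (Z : Submodule ℂ_[p] (ℂ_[p] ⊗[ℤ] Additive (𝓞 F)ˣ)),
    (∀ v ∈ Z, ∀ τ : F →+* ℂ_[p], (∃ q, τ.comp (algebraMap K F) = ιp.comp (σ q)) →
      extHom (logUnits Lg τ) v = 0) →
    finrank ℂ_[p] (gPart ((Units.map ((ιp.comp lam : E →+* ℂ_[p]) : E →* ℂ_[p])).comp χ') ⊓ Z :
      Submodule ℂ_[p] (ℂ_[p] ⊗[ℤ] Additive (𝓞 F)ˣ)) +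
      Matrix.rank (fun (r : Fin d) (q : Fin a) ↦
        ∑ g, ιp (lam (χ' g⁻¹ : Eˣ)) * logUnits Lg (ιp.comp (s (σ q))) (unitsHom g (u r))) ≤
      finrank ℂ_[p] (gPart ((Units.map ((ιp.comp lam : E →+* ℂ_[p]) : E →* ℂ_[p])).comp χ'))

/-- **R_ASM** (assembly of `S_RANK`).

PROOF. `K` is CM of degree `2d`, `d = [F₀ : ℚ]`. `χ` induces a character `χ_F` of `Gal(F/K)` with values in `ℂ_pˣ` (restriction `Gal(Ω/K) → Gal(F/K)` is surjective, `χ` is trivial on its kernel), `χ_F ≠ 1`, and `chiPart F χ = gPart χ_F`. `S_GA1` (theorem `Pool.Agent.Helper17.SL.PkGA1.thm`) gives `E ⊆ Ω`, `χ'` with `ι_p χ' = χ_F`, `lam = algebraMap E Ω`. *Dimension:* `U_TRD` (for `j = ι_p lam`, `j' = ι_∞ lam`) and `U_DIMC`. *Bound:* let `T` be given,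
`|T| = a`; every `τ ∈ T` is `ι_p ∘ σ` for a unique `σ : K → Ω` (`K/ℚ` is algebraic, `ι_p(Ω)` is algebraically closed in `ℂ_p`): enumerate them, `σ : Fin a → (K →+* Ω)` injective. `A_CCJ` gives `c`, `A_LFT` gives `s`, `h`, `A_MVD` the elements `g`, `A_NDG` the units `u` (`ε = ι_∞ lam`). `R_MAT`: `a d ≤ (a + d) rank M`. `R_KD` with `Z = logKer Lg F T`: `kd + rank M ≤ d`. So `(a + d) kd ≤ (a + d) d - a d = d²`. -/
def R_ASM : Prop := U_TRD → U_DIMC → A_CCJ → A_LFT → A_MVD → A_NDG → R_MAT → R_KD → S_RK → ST → S_RANK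

end Pool.Agent.Helper16.SD
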