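import Pool.Agent.Helper91.SD.T_RK
import Pool.Agent.Helper62.SD.T_LBT
import Pool.Agent.Helper30.SD.R_MAT
import Pool.Agent.Helper32.SD.R_ASM
import Pool.Agent.Helper44.SD.ST_HALF
import Pool.Agent.Helper49.SD.A_NDG
import Pool.Agent.Helper70.SD.ST_AVG
import Pool.Agent.Helper60.SD.A_MVD
import Pool.Agent.Helper4.SD.U_TRD
import Pool.Agent.Helper48.SD.U_ARC
import Pool.Agent.Helper25.SD.U_DIMC
import Pool.Agent.Helper32.SD.A_CM
import Pool.Agent.Helper31.SD.A_LFT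
import Pool.Agent.Helper57.SD.A_CCJ
import Pool.Agent.Helper71.SD.R_KD
import Pool.Agent.Helper35.SD.ST
import Pool.Agent.Helper13.SD.ST_PIV
import Pool.Agent.Helper40.SD.A_TRV
import Pool.Agent.Helper24.SD.ST_PAIR

/-!
# Project SD (MP_fc6b1e_nt): assembly of parts T and S
-/

set_option autoImplicit false

namespace Pool.Agent.Helper16.SD

/-- `S_RK`. -/
theorem s_rk : S_RK := Pool.Agent.Helper91.SD.T_RK.t Pool.Agent.Helper62.SD.T_LBT.t

/-- `S_RANK`, from `ST_PAIR`. -/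
theorem s_rank_of (hP : ST_PAIR) : S_RANK :=
  Pool.Agent.Helper32.SD.R_ASM.t Pool.Agent.Helper4.SD.U_TRD.t
    (Pool.Agent.Helper25.SD.U_DIMC.t Pool.Agent.Helper48.SD.U_ARC.t)
    Pool.Agent.Helper57.SD.A_CCJ.t Pool.Agent.Helper31.SD.A_LFT.t
    (Pool.Agent.Helper60.SD.A_MVD.t Pool.Agent.Helper40.SD.A_TRV.t Pool.Agent.Helper32.SD.A_CM.t)
    (Pool.Agent.Helper49.SD.A_NDG.t Pool.Agent.Helper48.SD.U_ARC.t Pool.Agent.Helper32.SD.A_CM.t)
    (Pool.Agent.Helper30.SD.R_MAT.t Pool.Agent.Helper40.SD.A_TRV.t)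
    Pool.Agent.Helper71.SD.R_KD.t s_rk
    (Pool.Agent.Helper35.SD.ST.t
      (Pool.Agent.Helper70.SD.ST_AVG.t Pool.Agent.Helper13.SD.ST_PIV.t)
      Pool.Agent.Helper44.SD.ST_HALF.t hP)

/-- `S_RANK`. -/
theorem s_rank : S_RANK := s_rank_of Pool.Agent.Helper24.SD.ST_PAIR.t

end Pool.Agent.Helper16.SD
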