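import Pool.Agent.Helper16.SD.GoalsN
import Pool.Agent.Helper16.SD.AsmS
import Pool.Agent.Helper24.SD.N_HALF
import Pool.Agent.Helper12.SD.N_MVD
import Pool.Agent.Helper91.SD.N_ST
import Pool.Agent.Helper60.SD.N_MAT

/-!
# Project SD (MP_fc6b1e_nt): assembly of part N
-/

set_option autoImplicit false

namespace Pool.Agent.Helper16.SD

/-- `N_ST`. -/
theorem n_st : N_ST :=
  Pool.Agent.Helper91.SD.N_ST.t
    (Pool.Agent.Helper70.SD.ST_AVG.t Pool.Agent.Helper13.SD.ST_PIV.t)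
    Pool.Agent.Helper24.SD.N_HALF.t Pool.Agent.Helper24.SD.ST_PAIR.t

/-- `N_MAT`. -/
theorem n_mat : N_MAT :=
  Pool.Agent.Helper60.SD.N_MAT.t Pool.Agent.Helper40.SD.A_TRV.t s_rk n_st

/-- `N_MVD`. -/
theorem n_mvd : N_MVD :=
  Pool.Agent.Helper12.SD.N_MVD.t Pool.Agent.Helper40.SD.A_TRV.t Pool.Agent.Helper32.SD.A_CM.t

/-- `S_RANKN`, from `N_ASM`. -/
theorem s_rankn_of (h : N_ASM) : S_RANKN :=
  h Pool.Agent.Helper4.SD.U_TRD.t
    (Pool.Agent.Helper25.SD.U_DIMC.t Pool.Agent.Helper48.SD.U_ARC.t)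
    Pool.Agent.Helper57.SD.A_CCJ.t Pool.Agent.Helper31.SD.A_LFT.t n_mvd
    (Pool.Agent.Helper49.SD.A_NDG.t Pool.Agent.Helper48.SD.U_ARC.t Pool.Agent.Helper32.SD.A_CM.t)
    n_mat Pool.Agent.Helper71.SD.R_KD.t

end Pool.Agent.Helper16.SD
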