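import Pool.Agent.Helper16.SD.AsmB
import Pool.Agent.Helper16.SD.AsmD
import Pool.Agent.Helper16.SD.AsmJ
import Pool.Agent.Helper17.SDX.DUAL

/-!
# Project SD (MP_fc6b1e_nt): the duality, from the lifting theorem
-/

set_option autoImplicit false

namespace Pool.Agent.Helper16.SD

/-- `S_DUAL`, from `S_LIFT`. -/
theorem s_dual_of (hL : S_LIFT) : S_DUAL :=
  Pool.Agent.Helper17.SDX.s_dual (s_texp_of (s_bnd_of hL s_j))

end Pool.Agent.Helper16.SD
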