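import Pool.Agent.Helper17.TH.Defs
import Pool.Agent.Helper38.TH.DefsF
import Pool.Agent.Helper51.REC.Defs
import Mathlib.NumberTheory.Cyclotomic.CyclotomicCharacter

/-!
# Project SD (MP_fc6b1e_nt): definitions

`K` is a number field, `Ω` its algebraic closure, `p` a prime number, `Γ = Gal(Ω/K)`.
-/

set_option autoImplicit false

namespace Pool.Agent.Helper16.SD

open NumberField Module IsDedekindDomain TensorProduct
open Pool.Agent.Helper51.SigLeo Pool.Agent.Helper51.RP Pool.Agent.Helper51.REC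
open Pool.Agent.Helper42.RD (TSet)
open Pool.Agent.Helper38.FD (Chr CutsOut LeopoldtFor)
open Pool.Agent.Helper38.FW (InDec)
open Pool.Agent.Helper38.TH (IsTower Hat)
open Pool.Agent.Helper17.TH (ug exO tm)

section basic

/-- The cyclotomic character of `Gal(Ω/K)`. -/
noncomputable def cyc (p : ℕ) [Fact p.Prime] {K : Type} [Field K]
    (g : AlgebraicClosure K ≃ₐ[K] AlgebraicClosure K) : ℤ_[p]ˣ :=
  cyclotomicCharacter (AlgebraicClosure K) p (g : AlgebraicClosure K ≃+* AlgebraicClosure K)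

/-- `p` splits completely in `K`: all the embeddings of `K` in `ℂ_p` have values in `ℚ_p`. -/
def SplitP (p : ℕ) [Fact p.Prime] (K : Type) [Field K] : Prop :=
  ∀ (τ : K →+* ℂ_[p]) (x : K), ∃ y : ℚ_[p], τ x = algebraMap ℚ_[p] ℂ_[p] y

variable {p : ℕ} [Fact p.Prime] {K : Type} [Field K]

/-- The tower `η` is the cyclotomic `ℤ_p`-extension, `cyc = om * u`, where `om` has order dividing `p - 1` and `u` has values
in `1 + p ℤ_p`; the kernel of `η n` is the set of the `g` with `u(g) ∈ 1 + p^(n+1) ℤ_p`. -/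
structure Cyc (η : ℕ → Chr K (AlgebraicClosure K) ℂ_[p])
    (om u : (AlgebraicClosure K ≃ₐ[K] AlgebraicClosure K) →* ℤ_[p]ˣ) : Prop where
  tower : IsTower η
  mul : ∀ g, cyc p g = om g * u g
  om_pow : ∀ g, om g ^ (p - 1) = 1
  u_one : ∀ g, (p : ℤ_[p]) ∣ ((u g : ℤ_[p]ˣ) : ℤ_[p]) - 1
  cut : ∀ n g, η n g = 1 ↔ (p : ℤ_[p]) ^ (n + 1) ∣ ((u g : ℤ_[p]ˣ) : ℤ_[p]) - 1

/-- `ℤ_p → ℂ_p`. -/
noncomputable def zp (p : ℕ) [Fact p.Prime] : ℤ_[p] →+* ℂ_[p] :=
  (algebraMap ℚ_[p] ℂ_[p]).comp (algebraMap ℤ_[p] ℚ_[p])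

/-- `χ` is moved by complex conjugation `c`: there is `g ∈ Gal(Ω/K)`, trivial on all the conjugates of `K`, with
`χ(c g c⁻¹) ≠ χ(g)` (`g' = c g c⁻¹`, where `ι_∞ (c x)` is the complex conjugate of `ι_∞ x`). -/
def Moved (ιinf : AlgebraicClosure K →+* ℂ) (χ : Chr K (AlgebraicClosure K) ℂ_[p]) : Prop :=
  ∃ g g' : AlgebraicClosure K ≃ₐ[K] AlgebraicClosure K,
    (∀ (σ : K →+* AlgebraicClosure K) (x : K), g (σ x) = σ x) ∧
    (∀ x y : AlgebraicClosure K, ιinf y = starRingEnd ℂ (ιinf x) →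
      ιinf (g' y) = starRingEnd ℂ (ιinf (g x))) ∧ χ g' ≠ χ g

/-- The `χ`-part of the units of `F` (tensored with `ℂ_p`). -/
noncomputable def chiPart (F : IntermediateField K (AlgebraicClosure K)) [Normal K F]
    (χ : Chr K (AlgebraicClosure K) ℂ_[p]) :
    Submodule ℂ_[p] (ℂ_[p] ⊗[ℤ] Additive (𝓞 F)ˣ) where
  carrier := {v | ∀ g, extEnd (ug F g) v = ((χ g : ℂ_[p]ˣ) : ℂ_[p]) • v}
  add_mem' := fun {a b} ha hb g ↦ by
    have ha' := ha g
    have hb' := hb g
    rw [map_add, ha', hb', smul_add]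
  zero_mem' := fun g ↦ by rw [map_zero, smul_zero]
  smul_mem' := fun r x hx g ↦ by
    have hx' := hx g
    rw [map_smul, hx', smul_comm]

/-- The subspace killed by all the logarithms above `T`. -/
noncomputable def logKer (Lg : IwasawaLog p ℂ_[p]) (F : IntermediateField K (AlgebraicClosure K))
    (T : Set (K →+* ℂ_[p])) : Submodule ℂ_[p] (ℂ_[p] ⊗[ℤ] Additive (𝓞 F)ˣ) where
  carrier := {v | ∀ τ ∈ (above T : Set (F →+* ℂ_[p])), extHom (logUnits Lg τ) v = 0}
  add_mem' := fun {a b} ha hb τ hτ ↦ by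
    rw [map_add, ha τ hτ, hb τ hτ, add_zero]
  zero_mem' := fun τ _ ↦ by rw [map_zero]
  smul_mem' := fun r x hx τ hτ ↦ by
    rw [map_smul, hx τ hτ, smul_zero]

/-- The dimension of the kernel of the logarithms above `T` on the `χ`-part of the units of `F`. -/
noncomputable def kd (Lg : IwasawaLog p ℂ_[p]) (F : IntermediateField K (AlgebraicClosure K))
    [Normal K F] (χ : Chr K (AlgebraicClosure K) ℂ_[p]) (T : Set (K →+* ℂ_[p])) : ℕ :=
  finrank ℂ_[p] (chiPart F χ ⊓ logKer Lg F T : Submodule ℂ_[p] (ℂ_[p] ⊗[ℤ] Additive (𝓞 F)ˣ))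

/-- The logarithms at the embeddings in `B` are linearly independent on the `ν`-part of the units. -/
def Indep (Lg : IwasawaLog p ℂ_[p]) (F : IntermediateField K (AlgebraicClosure K))
    [Normal K F] (ν : Chr K (AlgebraicClosure K) ℂ_[p]) (B : Set (K →+* ℂ_[p])) : Prop :=
  kd Lg F ν B + B.ncard = finrank ℂ_[p] (chiPart F ν)

/-- `F` is the field of `χ` and `om`. -/
def CutF (χ : Chr K (AlgebraicClosure K) ℂ_[p])
    (om : (AlgebraicClosure K ≃ₐ[K] AlgebraicClosure K) →* ℤ_[p]ˣ)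
    (F : IntermediateField K (AlgebraicClosure K)) : Prop :=
  ∀ g, (∀ x ∈ F, g x = x) ↔ χ g = 1 ∧ om g = 1

end basic

section primes

variable {p : ℕ} [Fact p.Prime]

/-- The prime `W` of `F` is the prime of the embedding `τ : F → ℂ_p`. -/
def PrimeOf {F : Type} [Field F] [NumberField F] (τ : F →+* ℂ_[p])
    (W : HeightOneSpectrum (𝓞 F)) : Prop :=
  ∀ x : 𝓞 F, x ∈ W.asIdeal ↔ ‖τ (x : F)‖ < 1

/-- `v` is congruent to `1` modulo `p^N` at the primes in `S`. -/
def Cong (p : ℕ) {F : Type} [Field F] [NumberField F] (S : Set (HeightOneSpectrum (𝓞 F)))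
    (N : ℕ) (v : F) : Prop :=
  ∀ W ∈ S, W.valuation F (v - 1) ≤ W.valuation F (p : F) ^ N

/-- `∑_W ord_W(v) ϑ(W)` (a finite sum). -/
noncomputable def dsum {F : Type} [Field F] [NumberField F] {R : Type} [CommRing R]
    (ϑ : HeightOneSpectrum (𝓞 F) → R) (v : F) : R :=
  ∑ᶠ W : HeightOneSpectrum (𝓞 F), ((ordv W v : ℤ) : R) * ϑ W

/-- The prime `g(W)`. -/
noncomputable def gP {K F : Type} [Field K] [Field F] [NumberField F] [Algebra K F] (g : F ≃ₐ[K] F)
    (W : HeightOneSpectrum (𝓞 F)) : HeightOneSpectrum (𝓞 F) where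
  asIdeal := W.asIdeal.comap (RingOfIntegers.mapRingEquiv (g⁻¹ : F ≃ₐ[K] F).toRingEquiv)
  isPrime := Ideal.comap_isPrime _ _
  ne_bot := by
    intro h
    apply W.ne_bot
    have h2 := Ideal.comap_injective_of_surjective
      (RingOfIntegers.mapRingEquiv (g⁻¹ : F ≃ₐ[K] F).toRingEquiv)
      (RingOfIntegers.mapRingEquiv (g⁻¹ : F ≃ₐ[K] F).toRingEquiv).surjective
    apply h2
    rw [h, Ideal.comap_bot_of_injective _
      (RingOfIntegers.mapRingEquiv (g⁻¹ : F ≃ₐ[K] F).toRingEquiv).injective]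

end primes

end Pool.Agent.Helper16.SD
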