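import Pool.Agent.Helper16.SD.AsmX
import Pool.Agent.Helper51.SDL.Final

/-!
# Project SD (MP_fc6b1e_nt): the duality
-/

set_option autoImplicit false

namespace Pool.Agent.Helper16.SD

/-- `S_DUAL`. -/
theorem s_dual : S_DUAL := s_dual_of Pool.Agent.Helper51.SDL.s_lift

end Pool.Agent.Helper16.SD
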