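import Pool.Agent.Helper16.SD.Top
import Pool.Agent.Helper17.TH.GoalsII

/-!
# Project SD: goals of part D (from the bounded exponent `S_BND` to `S_TEXP`)

Every statement is a `def ... : Prop` with its complete proof in the docstring. Other goals may be used as hypotheses.
`Ω` is the algebraic closure of the number field `K`, `Γ = Gal(Ω/K)`.
-/

set_option autoImplicit false

namespace Pool.Agent.Helper16.SD

open NumberField Module IsDedekindDomain TensorProduct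
open Pool.Agent.Helper51.SigLeo Pool.Agent.Helper51.RP Pool.Agent.Helper51.REC
open Pool.Agent.Helper38.FD (Chr CutsOut LeopoldtFor)
open Pool.Agent.Helper38.FW (InDec)
open Pool.Agent.Helper38.TH (IsTower Hat)
open Pool.Agent.Helper17.TH (ug exO tm)

/-! ## Kummer symbols -/

section kummer

variable {K : Type} [Field K]

/-- `h r = ζ^t r` for a root `r` of `r^(p^k) = x`. -/
def IsKum (p k : ℕ) (ζ x : AlgebraicClosure K) (h : AlgebraicClosure K ≃ₐ[K] AlgebraicClosure K)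
    (t : ZMod (p ^ k)) : Prop :=
  ∃ r : AlgebraicClosure K, r ^ p ^ k = x ∧ h r = ζ ^ t.val * r

open Classical in
/-- The Kummer symbol of `x` at `h` (modulo `p^k`). -/
noncomputable def kum (p k : ℕ) (ζ x : AlgebraicClosure K)
    (h : AlgebraicClosure K ≃ₐ[K] AlgebraicClosure K) : ZMod (p ^ k) :=
  if hx : ∃ t, IsKum p k ζ x h t then hx.choose else 0

end kummer

/-- **K_SPEC** (the Kummer symbol). `ζ` is a primitive `p^k`-th root of unity, `h` fixes `ζ` and the nonzero elements `x`, `y`.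

PROOF. `Ω` is algebraically closed: choose `r` with `r^(p^k) = x`, `r ≠ 0`. `(h r/r)^(p^k) = 1`, so `h r = ζ^t r` with a unique `t ∈ ZMod (p^k)` (`IsPrimitiveRoot.eq_pow_of_pow_eq_one`; `ζ^a = ζ^b` iff `a ≡ b`). For another root `r' = ζ^i r` the same `t` works, as `h ζ = ζ`. This gives (1). (2): `r r'` is a root of `x y`. (3): `h' r = ζ^(t') r`, `h h' r = ζ^(t') h r`.
(4): the root `r = z` is fixed by `h`. (5): for `g ∈ Γ`, `g r` is a root of `g x`, `(g h g⁻¹)(g r) = g(ζ^t r) = (g ζ)^t g r` and `g ζ = ζ^(c)` with `c = toZModPow k (cyc g)` (`cyclotomicCharacter.spec`; see `Pool/Agent/Helper38/TH/GoalsE.lean` and its proofs); `g h g⁻¹` fixes `ζ` (it is a power of... `g⁻¹ ζ` is a power of `ζ`) and `g x`. -/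
def K_SPEC : Prop :=
  ∀ (p : ℕ) [Fact p.Prime] (K : Type) [Field K] [NumberField K] (k : ℕ) (ζ : AlgebraicClosure K),
    IsPrimitiveRoot ζ (p ^ k) →
    (∀ (x : AlgebraicClosure K) (h : AlgebraicClosure K ≃ₐ[K] AlgebraicClosure K), x ≠ 0 →
      h ζ = ζ → h x = x → ∀ r : AlgebraicClosure K, r ^ p ^ k = x → ∀ t : ZMod (p ^ k),
        (h r = ζ ^ t.val * r ↔ t = kum p k ζ x h)) ∧
    (∀ (x y : AlgebraicClosure K) (h : AlgebraicClosure K ≃ₐ[K] AlgebraicClosure K), x ≠ 0 →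
      y ≠ 0 → h ζ = ζ → h x = x → h y = y → kum p k ζ (x * y) h = kum p k ζ x h + kum p k ζ y h) ∧
    (∀ (x : AlgebraicClosure K) (h h' : AlgebraicClosure K ≃ₐ[K] AlgebraicClosure K), x ≠ 0 →
      h ζ = ζ → h x = x → h' ζ = ζ → h' x = x →
      kum p k ζ x (h * h') = kum p k ζ x h + kum p k ζ x h') ∧
    (∀ (z : AlgebraicClosure K) (h : AlgebraicClosure K ≃ₐ[K] AlgebraicClosure K), z ≠ 0 →
      h ζ = ζ → h z = z → kum p k ζ (z ^ p ^ k) h = 0) ∧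
    (∀ (x : AlgebraicClosure K) (g h : AlgebraicClosure K ≃ₐ[K] AlgebraicClosure K), x ≠ 0 →
      h ζ = ζ → h x = x → kum p k ζ (g x) (g * h * g⁻¹) =
        PadicInt.toZModPow k (cyc p g : ℤ_[p]) * kum p k ζ x h)

/-- **K_KER** (the kernel of the Kummer symbols).

PROOF (from `K_SPEC`). `Ω/M` is Galois (characteristic `0`) with group `{h : h fixes M}`. Let `r^(p^k) = x`. By `K_SPEC` (1) with `t = 0`: `h r = r` for all `h` which fix `M`; so `r ∈ M` (`InfiniteGalois.fixedField_fixingSubgroup`, `IntermediateField.fixingSubgroup`...). -/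
def K_KER : Prop :=
  ∀ (p : ℕ) [Fact p.Prime] (K : Type) [Field K] [NumberField K] (k : ℕ) (ζ : AlgebraicClosure K),
    IsPrimitiveRoot ζ (p ^ k) → ∀ M : IntermediateField K (AlgebraicClosure K), ζ ∈ M →
    ∀ x : AlgebraicClosure K, x ≠ 0 → x ∈ M →
      (∀ h : AlgebraicClosure K ≃ₐ[K] AlgebraicClosure K, (∀ y ∈ M, h y = y) →
        kum p k ζ x h = 0) → ∃ r ∈ M, r ^ p ^ k = x

/-- The `O`-linear extension `Ψ_z(h)` of the Kummer symbols to `z ∈ O ⊗ U_E`, with values in `O/p^k`, for `h` in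
`Gal(Ω/M)`. -/
structure IsPsi {p : ℕ} [Fact p.Prime] {K : Type} [Field K] (k : ℕ) (ζ : AlgebraicClosure K)
    (E M : IntermediateField K (AlgebraicClosure K)) [Normal K E] (O : Type) [CommRing O]
    [Algebra ℤ_[p] O]
    (Ψ : (O ⊗[ℤ] Additive (𝓞 E)ˣ) →+
      ((AlgebraicClosure K ≃ₐ[K] AlgebraicClosure K) → O ⧸ Ideal.span {(p : O) ^ k})) : Prop where
  mul : ∀ z g h, (∀ x ∈ M, g x = x) → (∀ x ∈ M, h x = x) → Ψ z (g * h) = Ψ z g + Ψ z h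
  smul : ∀ (o : O) z h, (∀ x ∈ M, h x = x) → Ψ (o • z) h = o • Ψ z h
  act : ∀ g z h, (∀ x ∈ M, h x = x) → Ψ (exO O (ug E g) z) (g * h * g⁻¹) =
    algebraMap ℤ_[p] O (cyc p g : ℤ_[p]ˣ) • Ψ z h
  ker : ∀ (ι : Type) [Fintype ι] (b : Basis ι ℤ_[p] O) (e : ι → (𝓞 E)ˣ) h, (∀ x ∈ M, h x = x) →
    (Ψ (∑ i, b i ⊗ₜ Additive.ofMul (e i)) h = 0 ↔
      ∀ i, kum p k ζ (((e i : (𝓞 E)ˣ) : E) : AlgebraicClosure K) h = 0)

/-- **K_PSI** (existence of `Ψ`).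

PROOF (from `K_SPEC`). For `h` fixing `M` the map `o ⊗ u ↦ kum(u, h).val • [o]` is well defined on `O ⊗ U_E` and additive (`K_SPEC` (2): `kum(·, h)` is a homomorphism `U_E → ZMod (p^k)`; `p^k` kills `O/p^k`, so `n ↦ n • [o]` factors through `ZMod (p^k)`); for the other `h` put `Ψ_z(h) = 0`. `mul`: `K_SPEC` (3). `smul` clear. `act`: on `o ⊗ u`: `Ψ(o ⊗ g u)(g h g⁻¹) = kum(g u, g h g⁻¹) [o] =
(cyc(g) mod p^k) kum(u, h) [o]` by `K_SPEC` (5) (`g h g⁻¹` fixes `M` as `M/K` is normal), and `n • x = algebraMap(cyc g) • x` on `O/p^k` if `n ≡ cyc(g) mod p^k` (`PadicInt.ker_toZModPow` or `toZModPow_spec`, `appr_spec`). `ker`: `O/p^k` is free over `ZMod (p^k)` with basis the classes of the `b i`: if `∑ n_i [b_i] = 0` with integers `n_i` then `∑ n_i b_i = p^k y`, `y = ∑ y_i b_i`, so `p^k ∣ n_i` in `ℤ_p`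
and in `ℤ`. -/
def K_PSI : Prop :=
  ∀ (p : ℕ) [Fact p.Prime] (K : Type) [Field K] [NumberField K] (k : ℕ) (ζ : AlgebraicClosure K),
    IsPrimitiveRoot ζ (p ^ k) →
  ∀ (E M : IntermediateField K (AlgebraicClosure K)) [Normal K E] [Normal K M], E ≤ M → ζ ∈ M →
  ∀ (O : Type) [CommRing O] [Algebra ℤ_[p] O] [Module.Finite ℤ_[p] O] [Module.Free ℤ_[p] O],
  ∃ Ψ : (O ⊗[ℤ] Additive (𝓞 E)ˣ) →+
      ((AlgebraicClosure K ≃ₐ[K] AlgebraicClosure K) → O ⧸ Ideal.span {(p : O) ^ k}),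
    IsPsi k ζ E M O Ψ

/-- **K_XQ** (`O/p^k` has enough homomorphisms to `ZMod (p^k)`).

PROOF. `O` is free over `ℤ_p`, basis `b i`. The map `x = ∑ r_i b_i ↦ r_i mod p^k` (`PadicInt.toZModPow k`) is an additive map `O → ZMod (p^k)` which kills `p^k O`. If all these maps vanish at `x` then `x ∈ p^k O`. -/
def K_XQ : Prop :=
  ∀ (p : ℕ) [Fact p.Prime] (O : Type) [CommRing O] [Algebra ℤ_[p] O] [Module.Finite ℤ_[p] O]
    [Module.Free ℤ_[p] O] (k : ℕ),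
    (∀ x : O ⧸ Ideal.span {(p : O) ^ k}, p ^ k • x = 0) ∧
    ∀ x : O ⧸ Ideal.span {(p : O) ^ k}, x ≠ 0 →
      ∃ l : (O ⧸ Ideal.span {(p : O) ^ k}) →+ ZMod (p ^ k), l x ≠ 0

/-! ## Descent in a group -/

/-- **D_DES** (descent). `Γ₁ ⊇ N` normal in `Γ`, `Γ/N` abelian, `Γ₁/N` cyclic, `ψ : N → X` a `ν`-equivariant homomorphism. There is a `ν`-equivariant homomorphism `Φ : Γ₁ → X` which is `[Γ : Γ₁] ψ` on `N`.

PROOF. Write `[g, a] = g a g⁻¹ a⁻¹ ∈ N`. For `g ∈ Γ`, `a ∈ Γ₁` let `φ_g(a) = ψ([g, a])`. (1) `[g, a b] = [g, a] · a [g, b] a⁻¹`, so `φ_g(a b) = φ_g(a) + ν(a) φ_g(b) = φ_g(a) + φ_g(b)` for `a, b ∈ Γ₁` (`ν = 1` on `Γ₁`). (2) `[g b, a] = g [b, a] g⁻¹ · [g, a]`, so `φ_(gb)(a) = ν(g) φ_b(a) + φ_g(a)`. (3) `φ_b(a) = 0` for `a, b ∈ Γ₁`: by (1), (2) `(b, a) ↦ φ_b(a)` is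
biadditive on `Γ₁ × Γ₁`; it is `0` if `b ∈ N` (`[n, a] = n · a n⁻¹ a⁻¹`, `ψ = ψ(n) - ν(a) ψ(n) = 0`) or `a ∈ N` (`[b, n] = b n b⁻¹ · n⁻¹`, `ψ = ν(b) ψ(n) - ψ(n) = 0`), and `φ_γ(γ) = ψ(1) = 0`; as `Γ₁ = ⟨γ⟩ N`, it is `0`. So `φ_(gb) = φ_g` for `b ∈ Γ₁`. Define `Φ(a) = ∑_(g ∈ Γ/Γ₁) ν(g)⁻¹ φ_g(a)` for `a ∈ Γ₁` (a sum over the finite quotient, `cn(g⁻¹)` for `ν(g)⁻¹`).
`Φ` is a homomorphism on `Γ₁` by (1). *Equivariance:* `[g, h a h⁻¹] = h [h⁻¹ g h, a] h⁻¹`, `ψ` of it is `ν(h) φ_(h⁻¹gh)(a)`, and `h⁻¹ g h = g · [g⁻¹, h⁻¹]` with `[g⁻¹, h⁻¹] ∈ N ⊆ Γ₁`, so `φ_(h⁻¹gh) = φ_g`; `Φ(h a h⁻¹) = ν(h) Φ(a)`. *On `N`:* `φ_g(n) = ν(g) ψ(n) - ψ(n)`, `Φ(n) = ∑_g (1 - ν(g)⁻¹) ψ(n) = [Γ:Γ₁] ψ(n) - (∑_g ν(g)⁻¹) ψ(n)`, and `∑_(g ∈ Γ/Γ₁) ν(g)⁻¹ = 0`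
because `O` is a domain and `ν` is not trivial. *Last statement:* let `a ∈ D ∩ Γ₁`. For `δ ∈ D`, `[δ, a] ∈ D ∩ N`, `ψ([δ, a]) = 0`, so `φ_(g δ)(a) = ν(g) φ_δ(a) + φ_g(a) = φ_g(a)` by (2). Let `D̄` be the image of `D` in `Γ/Γ₁`. `Φ(a) = ∑_(g ∈ (Γ/Γ₁)/D̄) ∑_(δ ∈ D̄) ν(g)⁻¹ ν(δ)⁻¹ φ_g(a)` and `∑_(δ ∈ D̄) ν(δ)⁻¹ = 0` since `ν` is not trivial on `D` and `O` is a domain. (Without cosets: multiply:
`∑_(g ∈ Γ/Γ₁) ν(g)⁻¹ φ_g(a)`, substitute `g → g δ₀` with `δ₀ ∈ D`, `ν(δ₀) ≠ 1`: `Φ(a) = ν(δ₀)⁻¹ Φ(a)`. This gives only `(1 - ν(δ₀)) Φ(a) = 0`; so use the sum over `D̄`: the function `g ↦ φ_g(a)` is right invariant under `D̄`; `|D̄| Φ(a)` is not enough either. Group the sum over the fibres of `Γ/Γ₁ → (Γ/Γ₁)/D̄`.) -/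
def D_DES : Prop :=
  ∀ (Γ : Type) [Group Γ] (Γ₁ N : Subgroup Γ) [Γ₁.Normal] [N.Normal] [Γ₁.FiniteIndex], N ≤ Γ₁ →
    (∀ g h : Γ, g * h * g⁻¹ * h⁻¹ ∈ N) → (∃ γ ∈ Γ₁, ∀ a ∈ Γ₁, ∃ i : ℤ, γ ^ i * a ∈ N) →
  ∀ (O X : Type) [CommRing O] [IsDomain O] [AddCommGroup X] [Module O X] (cn : Γ → O),
    (∀ g h, cn (g * h) = cn g * cn h) → cn 1 = 1 → (∀ a ∈ Γ₁, cn a = 1) → (∃ g, cn g ≠ 1) →
  ∀ ψ : Γ → X, (∀ m ∈ N, ∀ n ∈ N, ψ (m * n) = ψ m + ψ n) →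
    (∀ g, ∀ n ∈ N, ψ (g * n * g⁻¹) = cn g • ψ n) →
  ∃ Φ : Γ → X, (∀ a ∈ Γ₁, ∀ b ∈ Γ₁, Φ (a * b) = Φ a + Φ b) ∧
    (∀ g, ∀ a ∈ Γ₁, Φ (g * a * g⁻¹) = cn g • Φ a) ∧ (∀ n ∈ N, Φ n = Γ₁.index • ψ n) ∧
    ∀ D : Subgroup Γ, (∀ n ∈ D, n ∈ N → ψ n = 0) → (∃ g ∈ D, cn g ≠ 1) →
      ∀ a ∈ D, a ∈ Γ₁ → Φ a = 0

/-! ## The fields -/

/-- **D_FLD** (the field `M = F(μ_(p^n))`).

PROOF. Let `ζ'` be a primitive `p^n`-th root of unity in `Ω`, `M = F(ζ')` (`F ⊔ K⟮ζ'⟯`), finite and Galois over `K`. `g` fixes `M` iff it fixes `F` and `ζ'`, i.e. `χ g = 1`, `om g = 1` and `cyc(g) ≡ 1 mod p^n` (`cyclotomicCharacter.spec`; `PadicInt.ker_toZModPow`). As `cyc = om u` this is `χ g = 1`, `om g = 1`, `p^n ∣ u(g) - 1` (unit factors). *Abelian:* `χ`, `om`, `u` are homomorphisms to commutative groups, so a commutator fixes `M`. *`E ≤ M`:* if `g`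
fixes `M` then `χ g = 1` and `p^(m+1) ∣ u(g) - 1`, so `η m g = 1` and `g` fixes `E`; so `E ≤ M` (Galois correspondence in `Ω`). `n ≥ m + 1 ≥ 1`. *`M = E(μ_(p^n))`:* let `g` fix `E` and the `p^n`-th roots of unity: `χ g = 1`, `cyc(g) ≡ 1 mod p^n`, so `om g ≡ 1 mod p` (`u ≡ 1 mod p`) and `om g = 1` because `(om g)^(p-1) = 1` (`x^(p-1) - 1 = (x - 1)(x^(p-2) + ... + 1)` and the second factor is `≡ p - 1 mod p`, a unit); so `g` fixes `M`.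
*Cyclic:* on `Γ₁ = {g : g fixes F}`, `g` fixes `M` iff `η (n-1) g = 1` (`Cyc.cut`). The image `η_(n-1)(Γ₁)` is a finite subgroup of `ℂ_pˣ`, cyclic, generated by some `η_(n-1)(γ)`. -/
def D_FLD : Prop :=
  ∀ (p : ℕ) [Fact p.Prime] (K : Type) [Field K] [NumberField K]
    (η : ℕ → Chr K (AlgebraicClosure K) ℂ_[p])
    (om u : (AlgebraicClosure K ≃ₐ[K] AlgebraicClosure K) →* ℤ_[p]ˣ), Cyc η om u →
  ∀ (χ : Chr K (AlgebraicClosure K) ℂ_[p]) (F E : IntermediateField K (AlgebraicClosure K))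
    [NumberField F] [IsGalois K F], CutF χ om F → ∀ m : ℕ,
    (∀ g, (∀ x ∈ E, g x = x) ↔ χ g = 1 ∧ η m g = 1) → ∀ n : ℕ, m + 1 ≤ n →
  ∃ (M : IntermediateField K (AlgebraicClosure K)) (_ : NumberField M) (_ : IsGalois K M),
    F ≤ M ∧ E ≤ M ∧ (∀ ξ : AlgebraicClosure K, ξ ^ p ^ n = 1 → ξ ∈ M) ∧
    (∀ g : AlgebraicClosure K ≃ₐ[K] AlgebraicClosure K, (∀ x ∈ E, g x = x) →
      (∀ ξ : AlgebraicClosure K, ξ ^ p ^ n = 1 → g ξ = ξ) → ∀ x ∈ M, g x = x) ∧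
    (∀ g h, ∀ x ∈ M, (g * h * g⁻¹ * h⁻¹ : AlgebraicClosure K ≃ₐ[K] AlgebraicClosure K) x = x) ∧
    (∃ γ : AlgebraicClosure K ≃ₐ[K] AlgebraicClosure K, (∀ x ∈ F, γ x = x) ∧
      ∀ a : AlgebraicClosure K ≃ₐ[K] AlgebraicClosure K, (∀ x ∈ F, a x = x) →
        ∃ i : ℤ, ∀ x ∈ M, (γ ^ i * a : AlgebraicClosure K ≃ₐ[K] AlgebraicClosure K) x = x) ∧
    ∀ x ∈ M, ∀ S : IntermediateField K (AlgebraicClosure K), F ≤ S →
      (∀ ξ : AlgebraicClosure K, ξ ^ p ^ n = 1 → ξ ∈ S) → x ∈ S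

/-! ## Local conditions -/

/-- **Z_NEAR** (powers of units close to `1`). For a number field `E` there are `c` prime to `p` and `b` such that: if `x ∈ E` is a unit at `τ` then `‖τ(x)^(c p^b) - 1‖ ≤ p^(-2)`; and then `‖τ(x^(c p^b)) - 1‖ = ‖Lg(τ(x^(c p^b)))‖`.

PROOF. Only finitely many `τ : E → ℂ_p`. For one `τ`: let `𝔭 = {x ∈ 𝓞_E : ‖τ x‖ < 1}`, a maximal ideal containing `p`, with finite residue field of `q` elements; `c_τ = q - 1`, prime to `p`. If `x ∈ E`, `‖τ x‖ = 1`, then `x = y/y'` with `y, y' ∈ 𝓞_E ∖ 𝔭` (localization; or multiply numerator and denominator by a suitable element), so `‖τ x^(q-1) - 1‖ < 1`. The values `‖τ y‖`, `y ∈ E^×` are powers of `‖τ π‖`, where `‖τ π‖^e = 1/p`: so `‖τ y‖ < 1` implies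
`‖τ y‖ ≤ ρ := p^(-1/e)`, `e = [E : ℚ]` for instance (`‖τ y‖^(e!) ∈ p^ℤ`; use the ramification index or the norm). If `‖t‖ ≤ ρ` then `‖(1 + t)^p - 1‖ ≤ max(‖t‖/p, ‖t‖^p) ≤ max(ρ/p, ρ^2)...`, so after `b` steps the norm is `≤ p^(-2)` (each step multiplies the norm by at most `max(1/p, ρ)`). Take the product of the `c_τ` and the maximum of the `b`. The second statement: for `‖t‖ ≤ p^(-2)` (even `< p^(-1/(p-1))`), the series `t - t²/2 + ...` has norm `‖t‖`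
(`‖t^n/n‖ < ‖t‖` for `n ≥ 2`: `‖t‖^(n-1) ≤ p^(-2(n-1)) < ‖n‖`), `IwasawaLog.hasSum`. Compare `Pool/Agent/Helper51/SixExp/PExp.lean` and `Pool/Agent/Helper31/TH/Loc.lean`. -/
def Z_NEAR : Prop :=
  ∀ (p : ℕ) [Fact p.Prime] (E : Type) [Field E] [NumberField E] (Lg : IwasawaLog p ℂ_[p]),
  ∃ c b : ℕ, 0 < c ∧ ¬ p ∣ c ∧ ∀ (x : Eˣ) (τ : E →+* ℂ_[p]), ‖τ (x : E)‖ = 1 →
    ‖τ (x : E) ^ (c * p ^ b) - 1‖ ≤ (1 / p : ℝ) ^ 2 ∧
    ‖τ (x : E) ^ (c * p ^ b) - 1‖ = ‖Lg.toFun (Units.map (τ : E →* ℂ_[p]) (x ^ (c * p ^ b)))‖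

/-- **Z_ONE** (local `p^k`-th powers). For a number field `E` and `k` there are `N`, `n₀` such that the Kummer symbol of a unit `e` of `E`, with `‖log τ(e)‖ ≤ p^(-N)`, is zero at the `h` in the decomposition group of `τ` which fix `E` and the `p^(n₀)`-th roots of unity.

PROOF (from `Z_NEAR`, `K_SPEC`). Let `c, b` be as in `Z_NEAR`, `n₀ = b + k`, `N` such that `2 p^(b+k) ≤ N`. Let `e, τ, h` be as in the statement, `r^(p^k) = e`, `t = kum(e, h)`, `h r = ζ^t r`. `x' = e^(c p^b)`: `‖τ(x') - 1‖ = ‖log τ(x')‖ = ‖c p^b‖ ‖log τ(e)‖ ≤ p^(-N)` (`‖τ e‖ = 1` because `e` is a unit of `𝓞_E`). `s₀ = r^c` satisfies `s₀^(p^(b+k)) = x'`. `∏_ξ (τ(s₀) - τ(ξ)) = τ(x') - 1` over the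
`p^(b+k)` roots of unity `ξ` of order dividing `p^(b+k)`; so some factor has norm `≤ p^(-N/p^(b+k)) ≤ p^(-2)`: `‖τ(s₀) - τ(ξ)‖ ≤ p^(-2)`. `s = s₀/ξ`, `‖τ(s) - 1‖ ≤ p^(-2)` (`‖τ ξ‖ = 1`). `h ξ = ξ`, so `h s = ζ^(c t) s`. `InDec τ h` gives `‖τ(h s) - 1‖ = ‖τ(h(s - 1))‖ = ‖τ(s - 1)‖ ≤ p^(-2)`. So `‖τ(ζ^(c t)) - 1‖ = ‖τ(h s)/τ(s) - 1‖ ≤ p^(-2)`. A root of unity `ξ' ≠ 1` of `p`-power order
satisfies `‖ξ' - 1‖ ≥ p^(-1/(p-1)) ≥ 1/p` (some power `ξ'^(p^i)` has order `p`, `‖ξ'^(p^i) - 1‖ ≤ ‖ξ' - 1‖`, and `∏_(0<i<p)(1 - ξ^i) = p`). So `ζ^(c t) = 1`, `c t = 0` in `ZMod (p^k)`, `t = 0`. -/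
def Z_ONE : Prop :=
  ∀ (p : ℕ) [Fact p.Prime] (K : Type) [Field K] [NumberField K] (Lg : IwasawaLog p ℂ_[p])
    (E : IntermediateField K (AlgebraicClosure K)) [NumberField E] (k : ℕ),
  ∃ N n₀ : ℕ, ∀ (e : (𝓞 E)ˣ) (τ : AlgebraicClosure K →+* ℂ_[p]),
    ‖logUnits Lg (τ.comp (algebraMap E (AlgebraicClosure K))) (Additive.ofMul e)‖ ≤
      (1 / p : ℝ) ^ N →
    ∀ ζ : AlgebraicClosure K, IsPrimitiveRoot ζ (p ^ k) →
    ∀ h : AlgebraicClosure K ≃ₐ[K] AlgebraicClosure K, (∀ x ∈ E, h x = x) →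
      (∀ ξ : AlgebraicClosure K, ξ ^ p ^ n₀ = 1 → h ξ = ξ) → InDec τ h →
      kum p k ζ (((e : (𝓞 E)ˣ) : E) : AlgebraicClosure K) h = 0

/-- **Z_TWO** (the coordinates of a vector with zero logarithms have small logarithms).

PROOF (from `S_RAT`, theorem `Pool.Agent.Helper94.RP.s_rat`; see its use in `Pool/Agent/Helper17/TH/MAIN.lean`, and `closed_above` in `INS0.lean`). Let `f_l : U → ℚ_p`, `l < n`, be as in `S_RAT` for `above T`: `extHom (f_l) v = 0` if all the logarithms above `T` of `v` vanish, and `logUnits Lg τ u = ∑_l f_l(u) c_l(τ)` for `τ` above `T` (finitely many `τ`). `U` is finitely generated, so there is `C₁` with `‖f_l(u)‖ ≤ p^(C₁)` for all `u ∈ U`, and `C₂` with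
`‖c_l(τ)‖ ≤ p^(C₂)`; `C = C₁ + C₂`. Let `z = ∑ b_i ⊗ e_i + p^N y`. `y = ∑_i b_i ⊗ y_i` with `y_i` in `ℤ_p ⊗ U`, that is: `extHom(f_l)(tm j y) = ∑_i j(b_i) r_i` with `r_i ∈ ℚ_p`, `‖r_i‖ ≤ p^(C₁)` (induction on `y`: `o ⊗ u`, `o = ∑ s_i b_i`, gives `r_i = s_i f_l(u)`). So `0 = ∑_i j(b_i) (f_l(e_i) + p^N r_i)`, and the `j(b_i)` are linearly independent over `ℚ_p` (`j` injective, a relation can be
multiplied by a power of `p` to have coefficients in `ℤ_p`). So `f_l(e_i) = -p^N r_i`, and `‖logUnits Lg τ (e_i)‖ ≤ p^(C₂) p^(C₁) p^(-N)`. -/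
def Z_TWO : Prop :=
  ∀ (p : ℕ) [Fact p.Prime] (K : Type) [Field K] [NumberField K] (Lg : IwasawaLog p ℂ_[p])
    (E : IntermediateField K (AlgebraicClosure K)) [NumberField E] (T : Set (K →+* ℂ_[p])),
    PlaceClosed T →
  ∀ (O : Type) [CommRing O] [IsDomain O] [Algebra ℤ_[p] O] [Module.Finite ℤ_[p] O]
    [Module.Free ℤ_[p] O] (j : O →+* ℂ_[p]), Function.Injective j →
    (∀ x : ℤ_[p], j (algebraMap ℤ_[p] O x) = algebraMap ℚ_[p] ℂ_[p] x) →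
  ∃ C : ℕ, ∀ (ι : Type) [Fintype ι] (b : Basis ι ℤ_[p] O) (N : ℕ)
    (z y : O ⊗[ℤ] Additive (𝓞 E)ˣ) (e : ι → Additive (𝓞 E)ˣ),
    (∀ τ ∈ (above T : Set (E →+* ℂ_[p])),
      extHom (logUnits Lg τ) (tm j (Additive (𝓞 E)ˣ) z) = 0) →
    z = ∑ i, b i ⊗ₜ e i + p ^ N • y →
    ∀ τ ∈ (above T : Set (E →+* ℂ_[p])), ∀ i,
      ‖logUnits Lg τ (e i)‖ ≤ (p : ℝ) ^ C * (1 / p : ℝ) ^ N

/-- **Z_PC** (`SplitP` and places). If `p` splits completely in `K` every set of embeddings `K → ℂ_p` is place closed.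

PROOF. Let `‖σ x‖ = ‖τ x‖` for all `x ∈ K`. Let `x ∈ K` and `σ x = a ∈ ℚ_p`; for `N` choose a rational number `q` with `‖a - q‖ ≤ p^(-N)`. Then `‖τ x - q‖ = ‖τ(x - q)‖ = ‖σ(x - q)‖ ≤ p^(-N)`, so `‖τ x - σ x‖ ≤ p^(-N)` for all `N`, and `τ x = σ x`. -/
def Z_PC : Prop :=
  ∀ (p : ℕ) [Fact p.Prime] (K : Type) [Field K] [NumberField K], SplitP p K →
    (∀ σ τ : K →+* ℂ_[p], (∀ x, ‖σ x‖ = ‖τ x‖) → σ = τ) ∧
    ∀ T : Set (K →+* ℂ_[p]), PlaceClosed T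

/-- **Z_TEN** (`O ⊗ A` modulo `p^N`, variant of `S_TEN2`).

PROOF. (1) Induction on `z`; `o ⊗ a` with `o = ∑ r_i b_i`, `r_i = n_i + p^N s_i`, `n_i ∈ ℕ`: `o ⊗ a = ∑ b_i ⊗ n_i a + p^N (∑ s_i b_i) ⊗ a`. (2) Let `c_i : O → ℤ_p → ZMod (p^N)` be the `i`-th coordinate modulo `p^N`. The additive map `O ⊗ A → A/p^N A`, `o ⊗ a ↦ c_i(o) ā` kills `p^N (O ⊗ A)` and sends `∑ b_l ⊗ e_l` to the class of `e_i`. Compare the proof of `S_TEN2` (search `S_TEN2` in `Pool/Agent`). -/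
def Z_TEN : Prop :=
  ∀ (p : ℕ) [Fact p.Prime] (O : Type) [CommRing O] [Algebra ℤ_[p] O] (ι : Type) [Fintype ι]
    (b : Basis ι ℤ_[p] O) (A : Type) [AddCommGroup A] (N : ℕ),
    (∀ z : O ⊗[ℤ] A, ∃ (e : ι → A) (y : O ⊗[ℤ] A), z = ∑ i, b i ⊗ₜ e i + p ^ N • y) ∧
    ∀ (e : ι → A) (y : O ⊗[ℤ] A), ∑ i, b i ⊗ₜ[ℤ] e i = p ^ N • y → ∀ i, ∃ a, e i = p ^ N • a

/-- **Z_PSI** (the local conditions for `Ψ_z`). `z` has zero logarithms above `T`; for `n` large (depending on `E`, `k`), `Ψ_z(h) = 0` for the `h ∈ Gal(Ω/M)` in the decomposition group of a `τ` above `T`, if `M` contains the `p^n`-th roots of unity.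

PROOF (from `Z_ONE`, `Z_TWO`, `Z_TEN`, `K_XQ`). Let `N, n₀` be as in `Z_ONE`, `C` as in `Z_TWO`, `N' = N + C + k`, `b` a basis of `O`. `Z_TEN`: `z = ∑ b_i ⊗ e_i + p^(N') y`. By `Z_TWO` `‖log τ'(e_i)‖ ≤ p^(C - N') ≤ p^(-N)` for `τ'` above `T`. Let `h` fix `M`, `InDec τ h`, `τ|K ∈ T`; by `Z_ONE` `kum(e_i, h) = 0` for all `i` (`n ≥ n₀`: `h` fixes the `p^(n₀)`-th roots of unity). So `Ψ(∑ b_i ⊗ e_i)(h) = 0` by `IsPsi.ker`, and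
`Ψ(p^(N') y) = p^(N') Ψ(y) = 0`, as `p^k` kills `O/p^k`, `N' ≥ k`. -/
def Z_PSI : Prop :=
  ∀ (p : ℕ) [Fact p.Prime] (K : Type) [Field K] [NumberField K] (Lg : IwasawaLog p ℂ_[p])
    (E : IntermediateField K (AlgebraicClosure K)) [NumberField E] [IsGalois K E]
    (T : Set (K →+* ℂ_[p])), PlaceClosed T →
  ∀ (O : Type) [CommRing O] [IsDomain O] [Algebra ℤ_[p] O] [Module.Finite ℤ_[p] O]
    [Module.Free ℤ_[p] O] (j : O →+* ℂ_[p]), Function.Injective j →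
    (∀ x : ℤ_[p], j (algebraMap ℤ_[p] O x) = algebraMap ℚ_[p] ℂ_[p] x) →
  ∀ k : ℕ, ∃ n₀ : ℕ, ∀ n : ℕ, n₀ ≤ n → ∀ (ζ : AlgebraicClosure K), IsPrimitiveRoot ζ (p ^ k) →
  ∀ (M : IntermediateField K (AlgebraicClosure K)), E ≤ M → ζ ∈ M →
    (∀ ξ : AlgebraicClosure K, ξ ^ p ^ n = 1 → ξ ∈ M) →
  ∀ Ψ : (O ⊗[ℤ] Additive (𝓞 E)ˣ) →+
      ((AlgebraicClosure K ≃ₐ[K] AlgebraicClosure K) → O ⧸ Ideal.span {(p : O) ^ k}),
    IsPsi k ζ E M O Ψ →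
  ∀ z : O ⊗[ℤ] Additive (𝓞 E)ˣ, (∀ τ ∈ (above T : Set (E →+* ℂ_[p])),
      extHom (logUnits Lg τ) (tm j (Additive (𝓞 E)ˣ) z) = 0) →
  ∀ τ : AlgebraicClosure K →+* ℂ_[p], τ.comp (algebraMap K (AlgebraicClosure K)) ∈ T →
  ∀ h, (∀ x ∈ M, h x = x) → InDec τ h → Ψ z h = 0

/-- **D_RAM** (the field `R`). For finitely many units `e_i` of `E` there is a finite Galois extension `R ⊇ M` of `K`, unramified over `F` outside `p`, such that the Kummer symbols of the `e_i` vanish on `Gal(Ω/R)`. (`M` is generated over `F` by the `p^n`-th roots of unity.)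

PROOF (from `K_SPEC`). `R` = the field generated over `M` by all the `r ∈ Ω` with `r^(p^k) = g(e_i)` for some `g ∈ Γ` and some `i` (finitely many, algebraic; stable under `Γ`): finite and Galois over `K`. If `h` fixes `R` then `h r = r` for `r^(p^k) = e_i`, so `kum(e_i, h) = 0`. *Unramified:* let `W` be a prime of `R`, `W ∤ p`. `I = {g ∈ Gal(R/F) : g x - x ∈ W for all x ∈ 𝓞_R}` has order `e(W/W ∩ F)` (as in the proof of `S_UNR` in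
`Pool/Agent/Helper17/TH/GoalsII.lean`; Mathlib `Ideal.card_inertia_eq_ramificationIdxIn`). Let `g ∈ I`. If `ξ` is a root of unity of `p`-power order in `R` then `g ξ/ξ` is a root of unity of `p`-power order and `g ξ - ξ ∈ W`; if `g ξ ≠ ξ` then `g ξ/ξ - 1 ∈ W` divides a power of `p` (`1 - ξ'` divides `p` for `ξ' ≠ 1` of `p`-power order), so `p ∈ W`, a contradiction. So `g` fixes the roots of unity of `p`-power order in `R`, and `F`, so it fixes `M`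
(`M` is generated by them over `F`: hypothesis). Let `r^(p^k) = g'(e_i)`; `r` is a unit of `𝓞_R`, `g r/r` is a root of unity of order dividing `p^k` (`g` fixes `g'(e_i) ∈ E ⊆ M`) and `g r - r ∈ W`, so `g r = r` in the same way. So `g = 1`, `e(W/W ∩ F) = 1`, and an element `π ∈ F` of valuation `1` at `W ∩ F` has valuation `1` at `W`. -/
def D_RAM : Prop :=
  ∀ (p : ℕ) [Fact p.Prime] (K : Type) [Field K] [NumberField K]
    (F E M : IntermediateField K (AlgebraicClosure K)) [NumberField F] [NumberField E]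
    [NumberField M] [IsGalois K F] [IsGalois K E] [IsGalois K M], F ≤ M → E ≤ M → ∀ n : ℕ,
    (∀ ξ : AlgebraicClosure K, ξ ^ p ^ n = 1 → ξ ∈ M) →
    (∀ x ∈ M, ∀ S : IntermediateField K (AlgebraicClosure K), F ≤ S →
      (∀ ξ : AlgebraicClosure K, ξ ^ p ^ n = 1 → ξ ∈ S) → x ∈ S) →
  ∀ (k : ℕ) (ζ : AlgebraicClosure K), IsPrimitiveRoot ζ (p ^ k) → ζ ∈ M →
  ∀ (ι : Type) [Finite ι] (e : ι → (𝓞 E)ˣ),
  ∃ (R : IntermediateField K (AlgebraicClosure K)) (_ : NumberField R) (_ : IsGalois K R),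
    M ≤ R ∧ (∀ h, (∀ x ∈ R, h x = x) → ∀ i,
      kum p k ζ (((e i : (𝓞 E)ˣ) : E) : AlgebraicClosure K) h = 0) ∧
    ∀ W : HeightOneSpectrum (𝓞 R), W.valuation R (p : R) = 1 →
      ∃ π : R, (π : AlgebraicClosure K) ∈ F ∧ ordv W π = 1

/-! ## Roots of unity -/

/-- **D_ROU** (units which are `p^k`-th powers in `E(μ_(p^n))`; `p` odd).

PROOF. `Gal(M/E)` is the image of `{g : g fixes E}`; an element `g` of it is determined by `cyc(g) mod p^n` (hypothesis on `M`), so `Gal(M/E)` is isomorphic to a subgroup of the cyclic group `(ℤ/p^n)ˣ` (`p` odd; `ZMod.isCyclic_units_of_prime_pow` or similar), cyclic, generated by the restriction of some `g₁`, `a = cyc(g₁) ∈ ℤ_pˣ`; `g₁ ξ = ξ^a` for `ξ^(p^n) = 1` (`n ≥ 1`; if `n = 0` then `k = 0`, trivial). Let `y ∈ M`, `y^(p^k) = e`.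
`g₁ y = ζ y` with `ζ^(p^k) = 1`, so `ζ ∈ μ_(p^n)` (`k ≤ n`). Let `s` be the order of `g₁` in `Gal(M/E)`, i.e. the order of `a` modulo `p^n`. `y = g₁^s y = ζ^(1 + a + ... + a^(s-1)) y`, so `ζ^(1 + a + ... + a^(s-1)) = 1`. CLAIM: `ζ = ξ₀^(a-1)` for some `ξ₀ ∈ μ_(p^n)`. If `p ∤ a - 1`: `a - 1` is invertible modulo `p^n`. If `a ≡ 1 mod p^n` then `s = 1`, `ζ = 1`, `ξ₀ = 1`. Otherwise let `v = v_p(a - 1)`, `1 ≤ v < n`;
`v_p(a^(p^i) - 1) = v + i` (`p` odd), so `s = p^(n-v)` and `v_p((a^s - 1)/(a - 1)) = n - v`, hence `ζ^(p^(n-v)) = 1`, `ζ ∈ μ_(p^(n-v)) = (μ_(p^n))^(p^v) = (μ_(p^n))^(a-1)`. Then `y' = y/ξ₀` satisfies `g₁ y' = ζ ξ₀^(1-a) y' = y'` (as `g₁ ξ₀ = ξ₀^a`), so `y' ∈ E`, `e = y'^(p^k) ξ` with `ξ = ξ₀^(p^k) = e/y'^(p^k) ∈ E`, a root of unity of order dividing `p^n`. `y'` and `ξ` are units of `𝓞_E` (`y'^(p^k) = e ξ⁻¹`, integral with integral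 inverse). -/
def D_ROU : Prop :=
  ∀ (p : ℕ) [Fact p.Prime], p ≠ 2 → ∀ (K : Type) [Field K] [NumberField K]
    (E M : IntermediateField K (AlgebraicClosure K)) [NumberField E] [NumberField M]
    [IsGalois K E] [IsGalois K M], E ≤ M → ∀ n : ℕ,
    (∀ ξ : AlgebraicClosure K, ξ ^ p ^ n = 1 → ξ ∈ M) →
    (∀ g : AlgebraicClosure K ≃ₐ[K] AlgebraicClosure K, (∀ x ∈ E, g x = x) →
      (∀ ξ : AlgebraicClosure K, ξ ^ p ^ n = 1 → g ξ = ξ) → ∀ x ∈ M, g x = x) →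
  ∀ k : ℕ, k ≤ n → ∀ e : (𝓞 E)ˣ, (∃ y ∈ M, y ^ p ^ k = (((e : (𝓞 E)ˣ) : E) : AlgebraicClosure K)) →
  ∃ ξ w : (𝓞 E)ˣ, ξ ^ p ^ n = 1 ∧ e = ξ * w ^ p ^ k

/-- **D_TOR** (the torsion). There is `C` such that for all `m`, `k`, `z` which satisfy the twisted congruence and are torsion modulo `p^k`: `p^C z = 0` modulo `p^k`.

PROOF. Choose `g` with `ν g ≠ 1` (`Base.dec'`; an embedding `Ω → ℂ_p` exists); `χ g ≠ om g`, as `χ ν = om`. `α = χ(g)/om(g) ∈ ℂ_p` is a root of unity `≠ 1`, of order `D`, say (`χ` has finite order: `F` is finite over `K`; `om^(p-1) = 1`); `D = ∏_(0<i<D) (1 - α^i)`, so `1 - α` divides `D` in `j(O)` (`α ∈ j(O)`: `α = j(c g · algebraMap (om g)⁻¹)`), hence `D' (c g - om g) = D = p^C · unit` with `D' ∈ O`: `c g - algebraMap(om g) ∣ p^C` in `O`.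
Let `z = ∑_i b_i ⊗ ξ_i + p^k y`, `ξ_i` of `p`-power order, `p^a ξ_i = 0` for all `i`. Let `n ∈ ℕ`, `n ≡ cyc(g) mod p^(a + C + k)`; `g ξ_i = n ξ_i` (`cyclotomicCharacter.spec`; as in the proof of `S_TOR` of `GoalsII`). So `g z ≡ n z mod p^k` (`g z = ∑ b_i ⊗ n ξ_i + p^k g y`), and by hypothesis `g z ≡ c(g) u(g) z mod p^k`. So `(n - c(g) u(g)) z ≡ 0 mod p^k`, and `n - c(g) u(g) = n - cyc(g) + u(g) (om(g) - c(g))`, `p^(C + k)` divides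
`n - cyc(g)`: multiply by `D'` and a unit: `p^C z ≡ 0 mod p^k`. -/
def D_TOR : Prop :=
  ∀ (p : ℕ) [Fact p.Prime] (K : Type) [Field K] [NumberField K] (Lg : IwasawaLog p ℂ_[p])
    (η : ℕ → Chr K (AlgebraicClosure K) ℂ_[p])
    (om u : (AlgebraicClosure K ≃ₐ[K] AlgebraicClosure K) →* ℤ_[p]ˣ), Cyc η om u →
  ∀ (χ ν : Chr K (AlgebraicClosure K) ℂ_[p]) (F : IntermediateField K (AlgebraicClosure K))
    [NumberField F] [IsGalois K F] (B : Set (K →+* ℂ_[p])), Base Lg om χ ν F B →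
  ∀ (O : Type) [CommRing O] [IsDomain O] [Algebra ℤ_[p] O] (j : O →+* ℂ_[p])
    (c cn : (AlgebraicClosure K ≃ₐ[K] AlgebraicClosure K) → O), Coef χ ν O j c cn →
  ∃ C : ℕ, ∀ (E : IntermediateField K (AlgebraicClosure K)) [NumberField E] [IsGalois K E] (k a : ℕ)
    (ι : Type) [Fintype ι] (b : ι → O) (ξ : ι → Additive (𝓞 E)ˣ) (y z : O ⊗[ℤ] Additive (𝓞 E)ˣ),
    (∀ i, p ^ a • ξ i = 0) → z = ∑ i, b i ⊗ₜ ξ i + p ^ k • y →
    (∀ g, ∃ y : O ⊗[ℤ] Additive (𝓞 E)ˣ,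
      exO O (ug E g) z - (c g * algebraMap ℤ_[p] O (u g : ℤ_[p]ˣ)) • z = p ^ k • y) →
    ∃ y : O ⊗[ℤ] Additive (𝓞 E)ˣ, p ^ C • z = p ^ k • y

/-! ## Assembly -/

/-- The data at the levels `m`, `k`: `M = F(μ_(p^n))`, `ζ`, `Ψ`. -/
structure Lev {p : ℕ} [Fact p.Prime] {K : Type} [Field K] (k n : ℕ)
    (F E M : IntermediateField K (AlgebraicClosure K)) [Normal K E] (ζ : AlgebraicClosure K)
    (O : Type) [CommRing O] [Algebra ℤ_[p] O]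
    (Ψ : (O ⊗[ℤ] Additive (𝓞 E)ˣ) →+
      ((AlgebraicClosure K ≃ₐ[K] AlgebraicClosure K) → O ⧸ Ideal.span {(p : O) ^ k})) : Prop where
  le : k ≤ n
  FM : F ≤ M
  EM : E ≤ M
  mu : ∀ ξ : AlgebraicClosure K, ξ ^ p ^ n = 1 → ξ ∈ M
  fix : ∀ g : AlgebraicClosure K ≃ₐ[K] AlgebraicClosure K, (∀ x ∈ E, g x = x) →
    (∀ ξ : AlgebraicClosure K, ξ ^ p ^ n = 1 → g ξ = ξ) → ∀ x ∈ M, g x = x
  prim : IsPrimitiveRoot ζ (p ^ k)
  psi : IsPsi k ζ E M O Ψ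

/-- **D_ONE** (first half: `p^b Ψ_z = 0`).

PROOF (from `S_BND`, `K_PSI`, `K_XQ`, `D_DES`, `D_FLD`, `Z_PC`, `Z_TEN`, `Z_PSI`, `D_RAM`). Let `b₁` be given by `S_BND`, `G = Gal(F/K)`, `|G| = p^a v`, `p ∤ v`; `b = b₁ + a`. Given `m`, `k ≤ m + 1`, `z`. Let `n₀` be given by `Z_PSI` for `E m`, `T = Bᶜ` (place closed by `Z_PC`), `k`; `n = max(n₀, m + 1)`. `D_FLD` gives `M`; `ζ ∈ Ω` a primitive `p^k`-th root of unity, in `M` as `k ≤ n`; `K_PSI` gives `Ψ`. Let `Γ₁ = {g fixes F}`, `N = {g fixes M}` (subgroups, normal; `Γ₁` of finite index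
`|G|`: `IntermediateField.fixingSubgroup`), `X = O/p^k`. *Equivariance of `ψ = Ψ_z` on `N`:* `Ψ_(g z)(g h g⁻¹) = cyc(g) Ψ_z(h)`, and `g z = c(g) u(g) z + p^k y`, so `Ψ_(g z) = c(g) u(g) Ψ_z`; so `c(g) u(g) Ψ_z(g h g⁻¹) = cyc(g) Ψ_z(h)`, `Ψ_z(g h g⁻¹) = c(g)⁻¹ om(g) Ψ_z(h) = cn(g) Ψ_z(h)` (`c(g) cn(g) = om(g)` as `χ ν = om` and `j` is injective; `c(g)`, `u(g)` are units of `O`: `c(g) c(g⁻¹) = 1`). `cn = 1` on `Γ₁`
(`χ = 1`, `om = 1` there), `cn ≠ 1` somewhere (`Base.dec'`). `D_DES` gives `Φ`. Hypotheses of `S_BND`: additive, equivariant: yes. `Φ = 0` on the elements of `Γ₁` in the decomposition group `D_τ = {g : InDec τ g}` (a subgroup) if `τ|K ∉ B`: last statement of `D_DES`, with `Z_PSI` (`Ψ_z = 0` on `D_τ ∩ N`) and `Base.dec'` (`ν ≠ 1` on `D_τ`). `R`: let `z = ∑ b_i ⊗ e_i + p^k y` (`Z_TEN`); `D_RAM` for the `e_i` gives `R ⊇ M ⊇ F` and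 `kum(e_i, h) = 0` for `h`
fixing `R`, so `Ψ_z(h) = 0` (`IsPsi.ker`) and `Φ(h) = |G| Ψ_z(h) = 0`. `K_XQ`: enough homomorphisms. So `p^(b₁) Φ = 0` on `Γ₁`, hence `p^(b₁) |G| Ψ_z(h) = 0` for `h ∈ N`, and `v` is prime to `p`, `p^k X = 0`: `p^(b₁ + a) Ψ_z(h) = 0`. -/
def D_ONE : Prop := S_BND → K_PSI → K_XQ → D_DES → D_FLD → Z_PC → Z_TEN → Z_PSI → D_RAM →
  ∀ (p : ℕ) [Fact p.Prime], p ≠ 2 → ∀ (K : Type) [Field K] [NumberField K] [IsTotallyComplex K],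
    SplitP p K →
  ∀ (Lg : IwasawaLog p ℂ_[p]) (η : ℕ → Chr K (AlgebraicClosure K) ℂ_[p])
    (om u : (AlgebraicClosure K ≃ₐ[K] AlgebraicClosure K) →* ℤ_[p]ˣ), Cyc η om u →
  ∀ (χ ν : Chr K (AlgebraicClosure K) ℂ_[p]) (F : IntermediateField K (AlgebraicClosure K))
    [NumberField F] [IsGalois K F] (B : Set (K →+* ℂ_[p])), Base Lg om χ ν F B →
  ∀ (O : Type) [CommRing O] [IsDomain O] [Algebra ℤ_[p] O] [Module.Finite ℤ_[p] O]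
    [Module.Free ℤ_[p] O] (j : O →+* ℂ_[p])
    (c cn : (AlgebraicClosure K ≃ₐ[K] AlgebraicClosure K) → O), Coef χ ν O j c cn →
  ∀ (E : ℕ → IntermediateField K (AlgebraicClosure K)) [∀ m, NumberField (E m)]
    [∀ m, IsGalois K (E m)], (∀ m g, (∀ x ∈ E m, g x = x) ↔ χ g = 1 ∧ η m g = 1) →
  ∃ b : ℕ, ∀ (m k : ℕ), k ≤ m + 1 → ∀ z : O ⊗[ℤ] Additive (𝓞 (E m))ˣ,
    (∀ τ ∈ (above Bᶜ : Set (E m →+* ℂ_[p])),
      extHom (logUnits Lg τ) (tm j (Additive (𝓞 (E m))ˣ) z) = 0) →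
    (∀ g, ∃ y : O ⊗[ℤ] Additive (𝓞 (E m))ˣ,
      exO O (ug (E m) g) z - (c g * algebraMap ℤ_[p] O (u g : ℤ_[p]ˣ)) • z = p ^ k • y) →
    ∃ (n : ℕ) (M : IntermediateField K (AlgebraicClosure K)) (_ : NumberField M)
      (_ : IsGalois K M) (ζ : AlgebraicClosure K)
      (Ψ : (O ⊗[ℤ] Additive (𝓞 (E m))ˣ) →+
        ((AlgebraicClosure K ≃ₐ[K] AlgebraicClosure K) → O ⧸ Ideal.span {(p : O) ^ k})),
      Lev k n F (E m) M ζ O Ψ ∧ ∀ h, (∀ x ∈ M, h x = x) → p ^ b • Ψ z h = 0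

/-- **D_TWO** (second half, and `S_TEXP`).

PROOF (from `D_ONE`, `K_KER`, `Z_TEN`, `D_ROU`, `D_TOR`). Let `b` be given by `D_ONE`, `C` by `D_TOR`; the constant of `S_TEXP` is `b + C`. Given `m`, `k`, `z`, let `M`, `ζ`, `Ψ` be as in `D_ONE` and `z' = p^b z`, so `Ψ_(z')(h) = 0` for `h` fixing `M`. `Z_TEN`: `z' = ∑ b_i ⊗ e_i + p^k y` with a basis `b_i` of `O`; `Ψ(∑ b_i ⊗ e_i)(h) = 0` (`p^k` kills `O/p^k`), so `kum(e_i, h) = 0` for all `i` and `h` (`IsPsi.ker`). `K_KER`: `e_i` is the `p^k`-th power of an element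
of `M` (`ζ ∈ M` by `Lev.mu`, `k ≤ n`), so `e_i = ξ_i w_i^(p^k)` by `D_ROU`, `ξ_i^(p^n) = 1`. So `z' = ∑ b_i ⊗ ξ_i + p^k (y + ∑ b_i ⊗ w_i)`. `z'` satisfies the twisted congruence, as `z` does. `D_TOR` with `a = n`: `p^C z' = p^k y'`, i.e. `p^(b + C) z = p^k y'`. -/
def D_TWO : Prop := D_ONE → K_KER → Z_TEN → D_ROU → D_TOR → S_BND → K_PSI → K_XQ → D_DES → D_FLD →
  Z_PC → Z_PSI → D_RAM → S_TEXP

end Pool.Agent.Helper16.SD
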