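import Pool.Agent.Helper16.SD.GoalsD

/-!
# Project SD (MP_fc6b1e_nt): the goals of part J (`S_J`)

`F/K` is an abelian extension of number fields, `G = Gal(F/K)`, `p` splits completely in `K`. For an embedding
`τ : F → ℂ_p`, the embeddings of `F` which agree with `τ` on `K` are the `τ ∘ h`, `h ∈ G`. Each goal has its complete proof
in its docstring.
-/

set_option autoImplicit false

namespace Pool.Agent.Helper16.SD

open NumberField Module IsDedekindDomain TensorProduct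
open Pool.Agent.Helper51.SigLeo Pool.Agent.Helper51.RP Pool.Agent.Helper51.REC
open Pool.Agent.Helper38.FD (Chr CutsOut LeopoldtFor)
open Pool.Agent.Helper17.TH (ug exO tm)

section defs

variable {p : ℕ} [Fact p.Prime]

/-- `x` is a unit at all the embeddings of `F` which agree with `τ` on `K`. -/
def UAt (K : Type) {F : Type} [Field K] [Field F] [Algebra K F] (τ : F →+* ℂ_[p]) (x : Fˣ) : Prop :=
  ∀ h : F ≃ₐ[K] F, ‖τ (h (x : F))‖ = 1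

/-- `Lg (τ (h x))`. -/
noncomputable def lgh (Lg : IwasawaLog p ℂ_[p]) {K F : Type} [Field K] [Field F] [Algebra K F]
    (τ : F →+* ℂ_[p]) (h : F ≃ₐ[K] F) (x : Fˣ) : ℂ_[p] :=
  Lg.toFun (Units.map ((τ.comp (h : F →+* F) : F →+* ℂ_[p]) : F →* ℂ_[p]) x)

/-- The unit `h x`. -/
def hx {K F : Type} [Field K] [Field F] [Algebra K F] (h : F ≃ₐ[K] F) (x : Fˣ) : Fˣ :=
  Units.map ((h : F →+* F) : F →* F) x

/-- A unit of `𝓞_F` in `Fˣ`. -/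
def un {F : Type} [Field F] (u : (𝓞 F)ˣ) : Fˣ :=
  Units.map ((algebraMap (𝓞 F) F : 𝓞 F →+* F) : 𝓞 F →* F) u

end defs

/-! ## The coordinates -/

/-- **J_RAT** (rationality). Prove `Z_NEAR → J_RAT`.

PROOF. Let `c, b` be as in `Z_NEAR` for `F`, `m = c p^b`, `w = x^m - 1`. For all `h`, `‖τ(h w)‖ ≤ p^(-2) < 1` and
`Lg(τ(h x)) = m⁻¹ Lg(τ(h x^m)) = m⁻¹ ∑_(n ≥ 0) (-1)^n (τ(h w))^(n+1)/(n+1)` (`IwasawaLog.hasSum`, `map_mul`). So the sum is `m⁻¹` times the limit of the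
`∑_(n < M) (-1)^n/(n+1) ∑_h τ(h (y w^(n+1)))`, and `∑_h τ(h z) = τ(Tr_(F/K) z)` (`trace_eq_sum_automorphisms`), in the image of `ℚ_p` by `SplitP` for the embedding `τ|K`. The image of `ℚ_p` in `ℂ_p` is closed (complete; `algebraMap` is an isometry). -/
def J_RAT : Prop :=
  ∀ (p : ℕ) [Fact p.Prime] (K F : Type) [Field K] [NumberField K] [Field F] [NumberField F]
    [Algebra K F] [IsGalois K F], SplitP p K →
  ∀ (Lg : IwasawaLog p ℂ_[p]) (τ : F →+* ℂ_[p]) (x : Fˣ), UAt K τ x →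
    ∀ y : F, ∃ r : ℚ_[p], ∑ h : F ≃ₐ[K] F, τ (h y) * lgh Lg τ h x = algebraMap ℚ_[p] ℂ_[p] r

/-- **J_F** (coordinates of the logarithms in `ℚ_p[G]`). Prove `Z_NEAR → J_RAT → J_F`.

PROOF. Let `b ∈ F` be such that the `g b`, `g ∈ G`, are a `K`-basis of `F` (`IsGalois.normalBasis`, `IsGalois.normalBasis_apply`). `f(x)(g) ∈ ℚ_p` is the number with image `∑_h τ(h (g b)) Lg(τ(h x))` (`J_RAT`; `0` if `x` is not a unit above `τ|K`). *Additive:* `Lg` is. *Equivariance:* `Lg(τ(h k x))`: substitute `h' = h k`: `f(k x)(g) = ∑_h' τ(h' k⁻¹ g b) Lg(τ(h' x)) = f(x)(k⁻¹ g)` (`UAt` for `k x` too).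
*The matrix* `A_(g,h) = τ(h (g b))` is invertible: if `∑_h a_h A_(g,h) = 0` for all `g`, then `∑_h a_h τ(h y) = 0` for all `y ∈ F` (`y = ∑ c_g g(b)`, `c_g ∈ K`, `τ(h c) = τ(c)`), and the homomorphisms `τ ∘ h` are distinct, so linearly independent (`linearIndependent_monoidHom`), `a = 0`. `cc` is the inverse matrix. *Characters:* `∑_g ψ(g) f(x)(g) = ∑_h ∑_g ψ(g) τ(h g b) Lg(τ(h x))`, with `g' = h g`: `= R ∑_h ψ(h)⁻¹ Lg(τ(h x))`,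
`R = ∑_g ψ(g) τ(g b)`. If `R = 0` then `∑_g ψ(g) A_(g,h) = ψ(h)⁻¹ R = 0` for all `h`, against the invertibility of `A`. *Bound:* `Z_NEAR` for `F`: `‖Lg(τ(h x))‖ = ‖c p^b‖⁻¹ ‖Lg(τ(h x^(c p^b)))‖ ≤ p^b`; finitely many `τ(h (g b))`. -/
def J_F : Prop :=
  ∀ (p : ℕ) [Fact p.Prime] (K F : Type) [Field K] [NumberField K] [Field F] [NumberField F]
    [Algebra K F] [IsGalois K F], SplitP p K →
  ∀ (Lg : IwasawaLog p ℂ_[p]) (τ : F →+* ℂ_[p]),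
  ∃ (f : Fˣ → (F ≃ₐ[K] F) → ℚ_[p]) (cc : (F ≃ₐ[K] F) → (F ≃ₐ[K] F) → ℂ_[p]) (C : ℕ),
    (∀ x y, UAt K τ x → UAt K τ y → ∀ g, f (x * y) g = f x g + f y g) ∧
    (∀ x, UAt K τ x → ∀ h g, f (hx h x) g = f x (h⁻¹ * g)) ∧
    (∀ x, UAt K τ x → ∀ h : F ≃ₐ[K] F,
      lgh Lg τ h x = ∑ g, algebraMap ℚ_[p] ℂ_[p] (f x g) * cc g h) ∧
    (∀ ψ : (F ≃ₐ[K] F) →* ℂ_[p]ˣ, ∃ R : ℂ_[p], R ≠ 0 ∧ ∀ x, UAt K τ x →
      ∑ g, ((ψ g : ℂ_[p]ˣ) : ℂ_[p]) * algebraMap ℚ_[p] ℂ_[p] (f x g) =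
        R * ∑ h, (((ψ h)⁻¹ : ℂ_[p]ˣ) : ℂ_[p]) * lgh Lg τ h x) ∧
    ∀ x, UAt K τ x → ∀ g, ‖f x g‖ ≤ (p : ℝ) ^ C

/-- **J_DET** (units with a nonzero regulator).

PROOF. `U` = units of `F` (additive), `V = chiPart F ν`. For `v ∈ V` and `τ = tt i`: `extHom (logUnits Lg (τ ∘ h)) v = ν(h) extHom (logUnits Lg τ) v` (`extHom` of `logUnits Lg (τ ∘ h)` is `extHom (logUnits Lg τ) ∘ extEnd (unitsHom h)`; compare `Pool/Agent/Helper17/SL/Defs.lean`, `Helper16/SD/GoalsS.lean`). The embeddings of `F` above `B` are the `(tt i) ∘ h`. So the kernel of the linear map `Λ : V → ℂ_p^B`, `v ↦ (extHom (logUnits Lg (tt i)) v)_i` is `V ∩ logKer Lg F B`, and by `Indep` (rank and nullity; `U` is finitely generated) `Λ` is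
surjective. For `u ∈ U` let `P(u) = ∑_h ν(h)⁻¹ (1 ⊗ h u)`; it is in `V`, and the `P(u)` span `V`: for `v ∈ V`, `v = ∑ c_l ⊗ u_l`, `|G| v = ∑_h ν(h)⁻¹ h v = ∑_l c_l P(u_l)`. `Λ(P(u))_i = ∑_h ν(h)⁻¹ Lg(tt_i(h u))`. So the vectors `Λ(P(u))` span `ℂ_p^B`, and contain a basis of `ℂ_p^B` (`exists_linearIndependent`, cardinality `|B|`, reindex), whose matrix has determinant `≠ 0` (`Matrix.linearIndependent_rows_iff_isUnit` and similar; also `Pool/Agent/Helper60/SL/DETP.lean`). -/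
def J_DET : Prop :=
  ∀ (p : ℕ) [Fact p.Prime] (K : Type) [Field K] [NumberField K] (Lg : IwasawaLog p ℂ_[p])
    (F : IntermediateField K (AlgebraicClosure K)) [NumberField F] [IsGalois K F]
    (ν : Chr K (AlgebraicClosure K) ℂ_[p]) (nu : (F ≃ₐ[K] F) →* ℂ_[p]ˣ),
    (∀ g, nu (AlgEquiv.restrictNormalHom F g) = ν g) →
  ∀ (B : Set (K →+* ℂ_[p])) [Fintype B] [DecidableEq B], Indep Lg F ν B →
  ∀ tt : B → (F →+* ℂ_[p]), (∀ i, (tt i).comp (algebraMap K F) = i) →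
  ∃ e : B → (𝓞 F)ˣ, (Matrix.of fun i j : B ↦
    ∑ h : F ≃ₐ[K] F, (((nu h)⁻¹ : ℂ_[p]ˣ) : ℂ_[p]) * lgh Lg (tt i) h (un (e j))).det ≠ 0

/-- **J_ALG** (Cramer's rule in `ℚ_p[G]`).

PROOF. `A = MonoidAlgebra ℚ_p G`, commutative. `m` is a matrix over `A` (`m_ij = ∑ m_ij(g) g`), `Δ = det m ∈ A`, `e ∈ A`. A character `ψ` extends to `ψ : A → ℂ_p`, a ring homomorphism, `ψ(Δ) = det(ψ(m_ij))`. *There is `δ ∈ A` with `δ Δ = e`*: let `Ĝ` be the finite group of the characters `G → ℂ_pˣ`; it has `|G|` elements (`CommGroup.monoidHom_mulEquiv_of_hasEnoughRootsOfUnity`, `ℂ_p` is algebraically closed of characteristic `0`), and the characters are linearly independent (`linearIndependent_monoidHom`), so an element of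
`ℂ_p[G]` killed by all the `ψ` is zero, and for every family `(t_ψ)` there is `δ' ∈ ℂ_p[G]` with `ψ(δ') = t_ψ` (the linear map `ℂ_p[G] → ℂ_p^Ĝ` is injective between spaces of the same dimension). Take `t_ψ = ψ(e)/ψ(Δ)` if `ψ(e) ≠ 0` (then `ψ(Δ) ≠ 0` by hypothesis) and `t_ψ = 0` otherwise. Then `ψ(δ' Δ - e) = 0` for all `ψ`, `δ' Δ = e` in `ℂ_p[G]`. Let `r : ℂ_p → ℚ_p` be a `ℚ_p`-linear map with `r(1) = 1` (`LinearMap.exists_leftInverse_of_injective`); apply `r` to the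
coefficients: `δ = r(δ')` satisfies `δ Δ = e`, because `Δ` and `e` have coefficients in `ℚ_p`.
*Conclusion:* for `y ∈ ℤ_p[G]^β` let `α_j = p^b δ ∑_i adj(m)_ji y_i`. Then `∑_j m_ij α_j = p^b δ Δ y_i = p^b e y_i` (`Matrix.mul_adjugate`). The coefficients of `δ adj(m)_ji` are finitely many elements of `ℚ_p`; take `b` such that `p^b` times them is in `ℤ_p`; then `α_j ∈ ℤ_p[G]` for all `y`. Product in the group algebra: `(a * f)(g) = ∑_h a(h) f(h⁻¹ g)`. -/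
def J_ALG : Prop :=
  ∀ (p : ℕ) [Fact p.Prime] (G : Type) [Group G] [Fintype G], (∀ a b : G, a * b = b * a) →
  ∀ (β : Type) [Fintype β] [DecidableEq β] (m : β → β → G → ℚ_[p]) (e : G → ℤ_[p]),
    (∀ ψ : G →* ℂ_[p]ˣ, ∑ g, zp p (e g) * ((ψ g : ℂ_[p]ˣ) : ℂ_[p]) ≠ 0 →
      (Matrix.of fun i j ↦
        ∑ g, ((ψ g : ℂ_[p]ˣ) : ℂ_[p]) * algebraMap ℚ_[p] ℂ_[p] (m i j g)).det ≠ 0) →
  ∃ b : ℕ, ∀ y : β → G → ℤ_[p], ∃ α : β → G → ℤ_[p], ∀ i g,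
    (p : ℚ_[p]) ^ b * ∑ h, ((e h : ℤ_[p]) : ℚ_[p]) * ((y i (h⁻¹ * g) : ℤ_[p]) : ℚ_[p]) =
      ∑ j, ∑ h, ((α j h : ℤ_[p]) : ℚ_[p]) * m i j (h⁻¹ * g)

/-- **J_SML** (approximate relations). Prove `J_F → J_DET → J_ALG → J_SML`.

PROOF. `G` is commutative; `ν` induces `nu : G → ℂ_pˣ` (`AlgEquiv.restrictNormalHom F` is surjective with kernel the `g` trivial on `F`). `B` is finite; choose `tt i : F → ℂ_p` extending `i ∈ B` (`Ω → ℂ_p` extensions: `IsAlgClosed.lift`, or `Pool/Agent/Helper17/TH/EXT*.lean`). `f_i, cc_i, C_i` are as in `J_F` for `tt i`, `C` the maximum; `e_j` as in `J_DET`; `m_ij = f_i(e_j)` (a unit of `𝓞_F` is a unit at all embeddings). *Hypothesis of `J_ALG`:* for `ψ = nu`: `∑_g ψ(g) m_ij(g) = R_i ∑_h nu(h)⁻¹ Lg(tt_i(h e_j))`, so the determinant is `∏ R_i` times that of `J_DET`, not zero. If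
`ψ(e) ≠ 0`, then by hypothesis on `e` there is `σ` with `ψ(g) = σ(nu(g))` and `ψ(m_ij) = σ(nu(m_ij))` (`m_ij(g) ∈ ℚ_p`), so the determinant is `σ` of the previous one (`RingHom.map_det`), not zero. Let `b₁` be the `b` of `J_ALG`, `b = b₁ + C`. *The element `x`:* `UAt (tt i) x` holds for all `i` (`(tt i) ∘ h` is above `B`). `y_i = p^C f_i(x) ∈ ℤ_p[G]`. So there are `α_j ∈ ℤ_p[G]` with `p^b (e ⋆ f_i(x)) = ∑_j α_j ⋆ f_i(e_j)`, `(a ⋆ f)(g) = ∑_h a(h) f(h⁻¹ g)`. Let `M ≥ M₀` be large; choose integers `a(h)`,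
`a_j(h)` congruent to `e(h)`, `α_j(h)` modulo `p^M` (`PadicInt.appr` or density), `u = ∏_j ∏_h (h e_j)^(-a_j(h))`, `z = ∏_h (h x)^(p^b a(h)) u`. By additivity and equivariance `f_i(z) = p^b (a ⋆ f_i(x)) - ∑_j a_j ⋆ f_i(e_j) = p^b ((a - e) ⋆ f_i(x)) - ∑_j (a_j - α_j) ⋆ f_i(e_j)`, of norm `≤ p^(C - M)`. So `‖Lg(tt_i(h z))‖ ≤ p^(C - M) max ‖cc_i‖`, small for `M` large. All the `τ` above `B` are `(tt i) ∘ h`. -/
def J_SML : Prop :=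
  ∀ (p : ℕ) [Fact p.Prime] (K : Type) [Field K] [NumberField K], SplitP p K →
  ∀ (Lg : IwasawaLog p ℂ_[p]) (F : IntermediateField K (AlgebraicClosure K)) [NumberField F]
    [IsGalois K F], (∀ g h : F ≃ₐ[K] F, g * h = h * g) →
  ∀ (ν : Chr K (AlgebraicClosure K) ℂ_[p]), (∀ g, (∀ x ∈ F, g x = x) → ν g = 1) →
  ∀ B : Set (K →+* ℂ_[p]), Indep Lg F ν B →
  ∀ e : (F ≃ₐ[K] F) → ℤ_[p],
    (∀ ψ : (F ≃ₐ[K] F) →* ℂ_[p]ˣ, (¬ ∃ σ : ℂ_[p] ≃ₐ[ℚ_[p]] ℂ_[p],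
      ∀ g : AlgebraicClosure K ≃ₐ[K] AlgebraicClosure K,
        ((ψ (AlgEquiv.restrictNormalHom F g) : ℂ_[p]ˣ) : ℂ_[p]) = σ (ν g : ℂ_[p]ˣ)) →
      ∑ g, zp p (e g) * (ψ g : ℂ_[p]ˣ) = 0) →
  ∃ b : ℕ, ∀ x : Fˣ, (∀ τ ∈ (above B : Set (F →+* ℂ_[p])), ‖τ (x : F)‖ = 1) →
    ∀ N M₀ : ℕ, ∃ (a : (F ≃ₐ[K] F) → ℤ) (u : (𝓞 F)ˣ),
      (∀ h, (p : ℤ_[p]) ^ M₀ ∣ ((a h : ℤ) : ℤ_[p]) - e h) ∧
      ∀ τ ∈ (above B : Set (F →+* ℂ_[p])),
        ‖Lg.toFun (Units.map (τ : F →* ℂ_[p])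
          ((∏ h : F ≃ₐ[K] F, (hx h x) ^ ((p : ℤ) ^ b * a h)) * un u))‖ ≤ (1 / p : ℝ) ^ N

/-! ## Divisors -/

/-- **J_DV1** (rules for `dsum`).

PROOF. `ordv W` is additive on `Fˣ`, and for fixed `x ∈ Fˣ` only finitely many `W` have `ordv W x ≠ 0` (see the lemmas on `ordv` in `Pool/Agent/Helper51/REC` and `Helper51/RP`, or `HeightOneSpectrum.Support.finite`); so the `finsum` is additive (`finsum_add_distrib`). A unit of `𝓞_F` has `ordv W = 0` everywhere. Powers: induction. -/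
def J_DV1 : Prop :=
  ∀ (F : Type) [Field F] [NumberField F] (R : Type) [CommRing R]
    (ϑ : HeightOneSpectrum (𝓞 F) → R),
    (∀ x y : Fˣ, dsum ϑ ((x * y : Fˣ) : F) = dsum ϑ (x : F) + dsum ϑ (y : F)) ∧
    (∀ (x : Fˣ) (n : ℤ), dsum ϑ ((x ^ n : Fˣ) : F) = (n : R) * dsum ϑ (x : F)) ∧
    (∀ (ι : Type) (s : Finset ι) (x : ι → Fˣ),
      dsum ϑ ((∏ i ∈ s, x i : Fˣ) : F) = ∑ i ∈ s, dsum ϑ (x i : F)) ∧
    ∀ u : (𝓞 F)ˣ, dsum ϑ ((un u : Fˣ) : F) = 0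

/-- **J_DV2** (class number).

PROOF. `n` = the class number of `F`: `W^n = (x)`, `x ∈ 𝓞_F` nonzero, so `ordv W x = n` and `ordv W' x = 0` for `W' ≠ W`. If `W` is not the prime of `τ`: `𝔭 = {y ∈ 𝓞_F : ‖τ y‖ < 1}` is a prime ideal, nonzero because it contains `p` (algebraic integers have norm `≤ 1`), so maximal; `x ∈ 𝔭` implies `W^n ≤ 𝔭`, `W ≤ 𝔭`, `W = 𝔭`, excluded; so `‖τ x‖ = 1`. For `g ∈ Gal(F/K)`: `ordv W' (g x) = ordv (g⁻¹ W') x`, which is `n` if `W' = g W` (`gP g W`) and `0` otherwise, so `dsum ϑ (g x) = n ϑ(g W)`. -/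
def J_DV2 : Prop :=
  ∀ (p : ℕ) [Fact p.Prime] (K F : Type) [Field K] [Field F] [NumberField F] [Algebra K F],
  ∃ n : ℕ, 0 < n ∧ ∀ W : HeightOneSpectrum (𝓞 F), ∃ x : Fˣ,
    (∀ τ : F →+* ℂ_[p], ¬ PrimeOf τ W → ‖τ (x : F)‖ = 1) ∧
    ∀ (R : Type) [CommRing R] (ϑ : HeightOneSpectrum (𝓞 F) → R) (g : F ≃ₐ[K] F),
      dsum ϑ ((hx g x : Fˣ) : F) = (n : R) * ϑ (gP g W)

/-- **J_ASM** (`S_J`).

PROOF. Let `b₁` be as in `J_SML`, `(c, b₂)` as in `Z_NEAR` for `F`, `n` as in `J_DV2`, `n = p^(b₃) n'` with `n'` prime to `p`; `b = b₁ + b₂ + b₃`. Let `k, N, ϑ, W` be given, `x` as in `J_DV2` for `W`, so `‖τ x‖ = 1` for `τ` above `B`. Take `a, u` from `J_SML` with `M₀ = k` and the given `N`, `z = ∏_h (h x)^(p^(b₁) a(h)) u`, `‖Lg(τ z)‖ ≤ p^(-N)` for `τ` above `B`. `z` is a unit at these `τ` (`τ ∘ h` is above `B`). By `Z_NEAR`, `v = z^(c p^(b₂))` satisfies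 `‖τ v - 1‖ = ‖Lg(τ v)‖ = ‖c p^(b₂)‖ ‖Lg(τ z)‖ ≤ p^(-N)`. By hypothesis
`dsum ϑ v = 0`. By `J_DV1`, `J_DV2`: `0 = c p^(b₂) (∑_h p^(b₁) a(h) n ϑ(h W))` in `ZMod (p^k)`, and `a(h) = toZModPow k (e h)` there. `c n'` is a unit of `ZMod (p^k)`. So `p^(b₁+b₂+b₃) ∑_h e(h) ϑ(h W) = 0`. -/
def J_ASM : Prop := J_SML → Z_NEAR → J_DV1 → J_DV2 → S_J

end Pool.Agent.Helper16.SD
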