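import Pool.Agent.Helper16.SD.GoalsD
import Pool.Agent.Helper17.TH.INS4

/-!
# Project SD (MP_fc6b1e_nt): the goals of part X (`S_TEXP → S_DUAL`)

The machine of `Pool/Agent/Helper17/TH` (`ABS`, `INS1`-`INS4`, `MAIN`, `DICH`) for the operator `g - χ(g) u(g)` instead of
`g - χ(g)`. Each goal has its complete proof in its docstring. Theorems which may be used directly (not hypotheses):
everything in `Pool/Agent/Helper17/TH` (`s_det`, `ins_a`, `ins_span`, `exists_tw`, `exists_ring`, `tow_*`, `tors_cyc`, `hat_cases`), and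
`Helper12.TH.s_cok`, `Helper57.TH.s_ten1`, `Helper59.TH.s_ten2`, `Helper57.TH.s_cls`, `Helper18.TH.s_spn`,
`Helper16.TH.s_inf`, `Helper80.TH.s_unr`, `Helper80.TH.s_spl`, `Helper31.TH.s_gen`, `Helper32.TH.d_unr`, `Helper94.RP.s_rat`.
-/

set_option autoImplicit false

namespace Pool.Agent.Helper16.SD

open NumberField Module IsDedekindDomain TensorProduct Polynomial
open Pool.Agent.Helper51.SigLeo Pool.Agent.Helper51.RP Pool.Agent.Helper51.REC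
open Pool.Agent.Helper42.RD (TSet)
open Pool.Agent.Helper38.FD (Chr CutsOut LeopoldtFor)
open Pool.Agent.Helper38.FW (InDec)
open Pool.Agent.Helper38.TH (IsTower Hat)
open Pool.Agent.Helper17.TH (ug exO tm Tw Wsub Acts)

/-! ## The abstract statement -/

/-- **X_ABS** (the abstract statement).

PROOF. The proof of `abs_main` in `Pool/Agent/Helper17/TH/ABS.lean`, word for word, with the hypothesis `hpre` in the place of `exists_pre` (and with the theorems `s_det`, `Pool.Agent.Helper12.TH.s_cok`). In short: `N = Λ ∩ W`, finite over `ℤ_p`, `T` acts on it. For `v ∈ N` let `T y = p^k v`, `y ∈ N`; `p^B y = p^k y₃`, `y₃ ∈ Λ`, and `y₃ ∈ W` because `W` is a `ℂ_p`-space; then `p^k T y₃ = p^B T y = p^k p^B v`, so `p^B v = T y₃`: `p^B` kills the cokernel of `T` on `N`. `S_COK` gives `Q` generators of the cokernel,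
`S_DET` a polynomial `D` with `D(0) = p^(B Q)` and `D(T) = 0` on `N`, so on `W` (spanned by `N`). If `T v = t v`, `v ≠ 0` in `W`, then `D(t) = 0`. -/
def X_ABS : Prop :=
  ∀ (p : ℕ) [Fact p.Prime] (V : Type) [AddCommGroup V] [Module ℂ_[p] V] [Module ℤ_[p] V],
    (∀ (r : ℤ_[p]) (v : V), r • v = zp p r • v) →
  ∀ (Λ : Submodule ℤ_[p] V) [Module.Finite ℤ_[p] Λ] (T : V →ₗ[ℂ_[p]] V) (W : Submodule ℂ_[p] V),
    (∀ v ∈ W, T v ∈ W) → (∀ v ∈ Λ, T v ∈ Λ) →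
    (∀ v ∈ W, v ∈ Submodule.span ℂ_[p] {w | w ∈ Λ ∧ w ∈ W}) →
  ∀ (k B Q : ℕ),
    (∀ v, v ∈ Λ → v ∈ W → ∃ y, y ∈ Λ ∧ y ∈ W ∧ T y = p ^ k • v) →
    (∀ y v : V, y ∈ Λ → y ∈ W → v ∈ Λ → v ∈ W → T y = p ^ k • v →
      ∃ y3 ∈ Λ, p ^ B • y = p ^ k • y3) →
    (∀ s : Finset V, (∀ u ∈ s, u ∈ Λ ∧ u ∈ W ∧ ∃ w, w ∈ Λ ∧ w ∈ W ∧ T u = p • w) →
      (∀ u ∈ s, ∀ v ∈ s, (∃ w, w ∈ Λ ∧ w ∈ W ∧ u - v = p • w) → u = v) → s.card ≤ Q) →
    ∃ D : ℤ_[p][X], D.eval 0 = (p : ℤ_[p]) ^ (B * Q) ∧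
      ∀ (t : ℂ_[p]) (v : V), v ∈ W → v ≠ 0 → T v = t • v → D.eval₂ (zp p) t = 0

/-- The abstract situation at the level `m`: `G` acts on `A`, `gt` generates `G` modulo the kernel of `η`, `u : G → 1 + p ℤ_p`
is a character, congruent to `1` modulo `p^(m+1)` on the kernel of `η`. -/
structure TwAct {p : ℕ} [Fact p.Prime] {A G : Type} [AddCommGroup A] [Group G] (act : G → A →+ A)
    (χ η : G →* ℂ_[p]ˣ) (gt : G) (ℓs : Set (A →+ ℂ_[p])) {O : Type} [CommRing O]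
    [Algebra ℤ_[p] O] (j : O →+* ℂ_[p]) (c : G → O) (u : G →* ℤ_[p]ˣ) (m : ℕ) : Prop where
  acts : Acts act χ η gt
  stab : ∀ ℓ ∈ ℓs, ∀ g, ℓ.comp (act g) ∈ ℓs
  inj : Function.Injective j
  alg : ∀ x : ℤ_[p], j (algebraMap ℤ_[p] O x) = algebraMap ℚ_[p] ℂ_[p] x
  hc : ∀ g, j (c g) = ((χ g : ℂ_[p]ˣ) : ℂ_[p])
  u_one : ∀ g, (p : ℤ_[p]) ∣ ((u g : ℤ_[p]ˣ) : ℤ_[p]) - 1
  u_eta : ∀ g, η g = 1 → (p : ℤ_[p]) ^ (m + 1) ∣ ((u g : ℤ_[p]ˣ) : ℤ_[p]) - 1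
  u_gt : ∃ w : ℤ_[p]ˣ, ((u gt : ℤ_[p]ˣ) : ℤ_[p]) ^ p ^ m - 1 = (p : ℤ_[p]) ^ (m + 1) * w
  eta_gt : η gt ^ p ^ m = 1

/-- **X_PRE** (`p^(m+1) N ⊆ T' N`).

PROOF. `n = p^m`, `a = c(gt) u(gt) ∈ O`, `z₁ = ∑_(i < n) a^(n-1-i) gt^i z`. Then `(gt - a) z₁ = gt^n z - a^n z` (telescoping; `exO_comp`, `Acts.mul`). `η(gt^n) = 1`, so on `tm z ∈ W` the element `gt^n` acts by `χ(gt)^n`, and `tm((gt - a) z₁) = χ(gt)^n (1 - u(gt)^n) tm z = - χ(gt)^n p^(m+1) w tm z`. `z' = - c(gt⁻¹)^n w⁻¹ z₁` satisfies the claim (`c(gt⁻¹) c(gt) = 1` because `j` is injective); `tm z' ∈ W` by `Acts.W_ext`. -/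
def X_PRE : Prop :=
  ∀ (p : ℕ) [Fact p.Prime] (A : Type) [AddCommGroup A] (G : Type) [Group G]
    (act : G → A →+ A) (χ η : G →* ℂ_[p]ˣ) (gt : G) (ℓs : Set (A →+ ℂ_[p]))
    (O : Type) [CommRing O] [IsDomain O] [Algebra ℤ_[p] O] (j : O →+* ℂ_[p]) (c : G → O)
    (u : G →* ℤ_[p]ˣ) (m : ℕ), TwAct act χ η gt ℓs j c u m →
  ∀ z : O ⊗[ℤ] A, tm j A z ∈ Wsub act χ η ℓs → ∃ z' : O ⊗[ℤ] A, tm j A z' ∈ Wsub act χ η ℓs ∧
    extEnd (act gt) (tm j A z') -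
      (((χ gt : ℂ_[p]ˣ) : ℂ_[p]) * zp p (u gt : ℤ_[p]ˣ)) • tm j A z' = p ^ (m + 1) • tm j A z

/-- **X_B** (the exponent). Compare `ins_b` in `Pool/Agent/Helper17/TH/INS2.lean`, with the new operator.

PROOF. `U = gt - a₀` (`a₀` the number of `htor`) kills the kernel of `tm` (`S_TEN1`: it is generated by the `o ⊗ x`, `x` of `p`-power order): `U z = 0` if `tm z = 0`. Let `zh = U yh`, `a = c(gt) u(gt)`. `gt yh - a yh - p^(m+1) vh` is in the kernel of `tm`, so applying `U` (everything commutes: `Acts.comm`): `gt zh - a zh = p^(m+1) U vh`. For `η h = 1`: `h yh - c(h) yh` is in the kernel of `tm`, so `h zh = c(h) zh`, and `c(h) zh - c(h) u(h) zh ∈ p^(m+1) (O ⊗ A)` by `u_eta`. So for every `g ∈ G`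
(`Acts.decomp`: `g` acts as `gt^i h`, and `g = gt^i h'` with `h' = (gt^i)⁻¹ g`, `η h' = 1`): `g zh - c(g) u(g) zh ∈ p^(m+1)` (induction on `i`, compare `Acts.powO` with `c(g) u(g)` in the place of `c(g)`). The logarithms in `ℓs` vanish on `zh` (`stab`). `hexp` gives `p^B zh = p^(m+1) y₁`. Let `e (a - a₀) = p^C`: `p^C yh = e zh - e (gt yh - a yh)`, and `tm(gt yh - a yh) = p^(m+1) tm vh`, so `p^(B+C) tm yh = p^(m+1) tm(e y₁ - p^B e vh)`. -/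
def X_B : Prop :=
  ∀ (p : ℕ) [Fact p.Prime] (A : Type) [AddCommGroup A] [Module.Finite ℤ A] (G : Type) [Group G]
    (act : G → A →+ A) (χ η : G →* ℂ_[p]ˣ) (gt : G) (ℓs : Set (A →+ ℂ_[p]))
    (O : Type) [CommRing O] [IsDomain O] [Algebra ℤ_[p] O] (j : O →+* ℂ_[p]) (c : G → O)
    (u : G →* ℤ_[p]ˣ) (m : ℕ), TwAct act χ η gt ℓs j c u m →
  ∀ B C : ℕ, (∃ a : ℕ, (∀ (x : A) (n : ℕ), p ^ n • x = 0 → act gt x = a • x) ∧
      (c gt * algebraMap ℤ_[p] O (u gt : ℤ_[p]ˣ) - (a : O)) ∣ (p : O) ^ C) →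
    (∀ z : O ⊗[ℤ] A, (∀ ℓ ∈ ℓs, extHom ℓ (tm j A z) = 0) →
      (∀ g, ∃ y : O ⊗[ℤ] A,
        exO O (act g) z - (c g * algebraMap ℤ_[p] O (u g : ℤ_[p]ˣ)) • z = p ^ (m + 1) • y) →
      ∃ y : O ⊗[ℤ] A, p ^ B • z = p ^ (m + 1) • y) →
  ∀ yh vh : O ⊗[ℤ] A, tm j A yh ∈ Wsub act χ η ℓs →
    extEnd (act gt) (tm j A yh) -
      (((χ gt : ℂ_[p]ˣ) : ℂ_[p]) * zp p (u gt : ℤ_[p]ˣ)) • tm j A yh = p ^ (m + 1) • tm j A vh →
    ∃ y3 : O ⊗[ℤ] A, p ^ (B + C) • tm j A yh = p ^ (m + 1) • tm j A y3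

/-- **X_A** (the number of generators).

PROOF. `ins_a` (`Pool/Agent/Helper17/TH/INS3.lean`) with the theorems `s_ten1`, `s_ten2`, `s_cls`: for `x ∈ s`, `x = tm z`, `x ∈ W`: `gt x - χ(gt) x = (gt x - χ(gt) u(gt) x) + χ(gt) (u(gt) - 1) x = p (w + χ(gt) r x)`, `u(gt) - 1 = p r` in `ℤ_p`, and `w + χ(gt) r x = tm(..) ∈ W`. -/
def X_A : Prop :=
  ∀ (p : ℕ) [Fact p.Prime] (A : Type) [AddCommGroup A] [Module.Finite ℤ A] (G : Type) [Group G]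
    (act : G → A →+ A) (χ η : G →* ℂ_[p]ˣ) (gt : G) (ℓs : Set (A →+ ℂ_[p]))
    (O : Type) [CommRing O] [IsDomain O] [Algebra ℤ_[p] O] (j : O →+* ℂ_[p]) (c : G → O)
    (u : G →* ℤ_[p]ˣ) (m : ℕ), TwAct act χ η gt ℓs j c u m →
  ∀ (CG : ℕ) (ι : Type) [Fintype ι], Nonempty (Basis ι ℤ_[p] O) →
    (∃ ζ : A, ∀ (x : A) (n : ℕ), p ^ n • x = 0 → ∃ k : ℕ, x = k • ζ) →
  ∀ g₀ : G, χ g₀ = 1 →
    (∀ s : Finset A, (∀ x ∈ s, ∃ w, act g₀ x - x = p • w) →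
      (∀ x ∈ s, ∀ y ∈ s, (∃ w, x - y = p • w) → x = y) → s.card ≤ CG) →
  ∀ s : Finset (ℂ_[p] ⊗[ℤ] A),
    (∀ x ∈ s, (∃ z, x = tm j A z) ∧ x ∈ Wsub act χ η ℓs ∧
      ∃ w, (∃ z, w = tm j A z) ∧ w ∈ Wsub act χ η ℓs ∧
        extEnd (act gt) x - (((χ gt : ℂ_[p]ˣ) : ℂ_[p]) * zp p (u gt : ℤ_[p]ˣ)) • x = p • w) →
    (∀ x ∈ s, ∀ y ∈ s, (∃ w, (∃ z, w = tm j A z) ∧ w ∈ Wsub act χ η ℓs ∧ x - y = p • w) →
      x = y) → s.card ≤ (p * CG) ^ Fintype.card ι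

/-- **X_INS** (the polynomial at one level, abstract form). Prove `X_ABS → X_PRE → X_B → X_A → X_INS`.

PROOF. Compare `ins_main` in `Pool/Agent/Helper17/TH/INS4.lean`. `V = ℂ_p ⊗ A` with `ℤ_p` acting through `zp p`, `Λ` the image of `tm j A`, `W = Wsub act χ η ℓs`, `T v = gt v - χ(gt) u(gt) v`, `k = m + 1`. `W` is stable (`Acts.W_ext`), `Λ` is stable, `W` is spanned by `Λ ∩ W` (`ins_span` with `s_spn`), the other hypotheses of `X_ABS` are `X_PRE`, `X_B`, `X_A`. -/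
def X_INS : Prop :=
  ∀ (p : ℕ) [Fact p.Prime] (A : Type) [AddCommGroup A] [Module.Finite ℤ A] (G : Type) [Group G]
    (act : G → A →+ A) (χ η : G →* ℂ_[p]ˣ) (gt : G) (ℓs : Set (A →+ ℂ_[p]))
    (O : Type) [CommRing O] [IsDomain O] [Algebra ℤ_[p] O] [Module.Finite ℤ_[p] O]
    (j : O →+* ℂ_[p]) (c : G → O)
    (u : G →* ℤ_[p]ˣ) (m : ℕ), TwAct act χ η gt ℓs j c u m →
  ∀ (B C CG : ℕ) (ι : Type) [Fintype ι], Nonempty (Basis ι ℤ_[p] O) →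
    (∃ ζ : A, ∀ (x : A) (n : ℕ), p ^ n • x = 0 → ∃ k : ℕ, x = k • ζ) →
  ∀ g₀ : G, χ g₀ = 1 →
    (∀ s : Finset A, (∀ x ∈ s, ∃ w, act g₀ x - x = p • w) →
      (∀ x ∈ s, ∀ y ∈ s, (∃ w, x - y = p • w) → x = y) → s.card ≤ CG) →
    (∃ a : ℕ, (∀ (x : A) (n : ℕ), p ^ n • x = 0 → act gt x = a • x) ∧
      (c gt * algebraMap ℤ_[p] O (u gt : ℤ_[p]ˣ) - (a : O)) ∣ (p : O) ^ C) →
    (∀ z : O ⊗[ℤ] A, (∀ ℓ ∈ ℓs, extHom ℓ (tm j A z) = 0) →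
      (∀ g, ∃ y : O ⊗[ℤ] A,
        exO O (act g) z - (c g * algebraMap ℤ_[p] O (u g : ℤ_[p]ˣ)) • z = p ^ (m + 1) • y) →
      ∃ y : O ⊗[ℤ] A, p ^ B • z = p ^ (m + 1) • y) →
    (∃ (n : ℕ) (f : Fin n → (A →+ ℚ_[p])),
      (∀ z : ℂ_[p] ⊗[ℤ] A, (∀ ℓ ∈ ℓs, extHom ℓ z = 0) →
        ∀ i, extHom (((algebraMap ℚ_[p] ℂ_[p] : ℚ_[p] →+* ℂ_[p]) : ℚ_[p] →+ ℂ_[p]).comp (f i)) z
          = 0) ∧
      ∀ ℓ ∈ ℓs, ∃ c : Fin n → ℂ_[p], ∀ u, ℓ u = ∑ i, f i u • c i) →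
  ∃ D : ℤ_[p][X], D.eval 0 = (p : ℤ_[p]) ^ ((B + C) * (p * CG) ^ Fintype.card ι) ∧
    ∀ (t : ℂ_[p]) (v : ℂ_[p] ⊗[ℤ] A), v ∈ Wsub act χ η ℓs → v ≠ 0 →
      extEnd (act gt) v - (((χ gt : ℂ_[p]ˣ) : ℂ_[p]) * zp p (u gt : ℤ_[p]ˣ)) • v = t • v →
      D.eval₂ (zp p) t = 0

/-! ## Numbers -/

/-- **X_UPW** (powers of `u`).

PROOF. Induction on `m`: if `x = 1 + p^(m+1) w`, `w` a unit of `ℤ_p`, `p ≥ 3`, then `x^p = 1 + p^(m+2) w + ∑_(i ≥ 2) C(p,i) p^(i(m+1)) w^i`, and the terms `i ≥ 2` are divisible by `p^(m+3)` (`2 ≤ i < p`: `p ∣ C(p,i)` and `1 + 2(m+1) ≥ m + 3`; `i = p`: `p (m+1) ≥ m + 3` for `p ≥ 3`, `m ≥ 0`). `m = 0`: `u - 1 = p w` with `w` a unit because `p² ∤ u - 1`. (Or `Int.emultiplicity_pow_sub_pow`, `emultiplicity` in a ring: `Odd.` LTE.) -/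
def X_UPW : Prop :=
  ∀ (p : ℕ) [Fact p.Prime], p ≠ 2 → ∀ u : ℤ_[p]ˣ, (p : ℤ_[p]) ∣ (u : ℤ_[p]) - 1 →
    ¬ (p : ℤ_[p]) ^ 2 ∣ (u : ℤ_[p]) - 1 →
    ∀ m : ℕ, ∃ w : ℤ_[p]ˣ, (u : ℤ_[p]) ^ p ^ m - 1 = (p : ℤ_[p]) ^ (m + 1) * w

/-- **X_CNT** (counting). `ξ` is a root of unity, `u ∈ 1 + p ℤ_p`, `D ∈ ℤ_p[X]` with `D(0) = p^N`. Then `D` has a root of the form `ξ (ζ - u)`, `ζ` a primitive `p^n`-th root of unity, for at most `N` numbers `n ≥ 1` (`p` odd).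

PROOF. The proof of `S_CNT` (`Pool/Agent/Helper77/TH/CNT.lean`; docstring in `Pool/Agent/Helper17/TH/GoalsII.lean`) with `t_n = ξ (ζ_n - u)`: `‖t_n‖ = ‖(ζ_n - 1) - (u - 1)‖ = ‖ζ_n - 1‖ = p^(-1/φ(p^n))`, because `‖u - 1‖ ≤ 1/p < p^(-1/φ(p^n))` for `p` odd (`φ(p^n) ≥ 2`). So: `t_n` is integral over `ℤ_p`, `h_n` its minimal polynomial, a prime of `ℤ_p[X]`, `h_n ∣ D`, `p ∣ h_n(0)` (all the conjugates have norm `< 1`), the `h_n` are different because the norms `‖t_n‖` are. So `∏ h_n ∣ D`, `p^(card s) ∣ D(0)`. -/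
def X_CNT : Prop :=
  ∀ (p : ℕ) [Fact p.Prime], p ≠ 2 → ∀ (ξ : ℂ_[p]) (d : ℕ), 0 < d → ξ ^ d = 1 →
  ∀ u : ℤ_[p], (p : ℤ_[p]) ∣ u - 1 →
  ∀ (N : ℕ) (D : ℤ_[p][X]), D.eval 0 = (p : ℤ_[p]) ^ N →
  ∀ s : Finset ℕ, (∀ n ∈ s, 1 ≤ n ∧ ∃ ζ : ℂ_[p], IsPrimitiveRoot ζ (p ^ n) ∧
    D.eval₂ (zp p) (ξ * (ζ - zp p u)) = 0) → s.card ≤ N

/-! ## Number fields -/

/-- **X_GT** (the element `gt`).

PROOF. There is `gt` with `η 1 gt ≠ 1` and `ν gt ≠ 1`: let `η 1 g₁ ≠ 1` (`Cyc.tower`); if `ν = 1` on all `g` with `η 1 g ≠ 1`, then for `η 1 h = 1`, `η 1 (g₁ h) ≠ 1`, so `ν h = ν(g₁ h)/ν(g₁) = 1`, so `ν = 1`, excluded. So `x := c(gt) - om(gt) ∈ O` is not zero (`j x = χ(gt) - χ(gt) ν(gt)`). `O` is a domain, finite over `ℤ_p`, so `x` divides a nonzero element of `ℤ_p` (minimal polynomial with nonzero constant term), so `x e' = p^(C₀)` for some `e' ∈ O`, `C₀`. `C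 = C₀`. For `E`: the torsion of `(𝓞_E)ˣ` of `p`-power order is killed by `p^(c')`, and we may take `c' > C₀`; `a` a natural number with `a ≡ cyc(gt) mod p^(c')`; `gt`
acts on the `p^(c')`-th roots of unity by `ξ ↦ ξ^a` (`cyc`, `cyclotomicCharacter.spec`), so `ug E gt x = a • x` on the `p`-power torsion. `cyc(gt) = a + p^(c') s`. `c(gt) u(gt) - a = u(gt) (c(gt) - om(gt)) + p^(c') s = x (u(gt) + e' p^(c' - C₀) s)`, and the second factor is a unit of `O`: it is `1 + p y` (`u(gt) ≡ 1 mod p`), and `1 + p y` is a unit because `O` is finite over the complete (or: Henselian, local) ring `ℤ_p`: `p` is in the Jacobson radical of `O` (`O` is integral over the local ring `ℤ_p`, every maximal ideal lies over `(p)`). So it divides `p^(C₀)`. -/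
def X_GT : Prop :=
  ∀ (p : ℕ) [Fact p.Prime] (K : Type) [Field K] [NumberField K]
    (η : ℕ → Chr K (AlgebraicClosure K) ℂ_[p])
    (om u : (AlgebraicClosure K ≃ₐ[K] AlgebraicClosure K) →* ℤ_[p]ˣ), Cyc η om u →
  ∀ χ ν : Chr K (AlgebraicClosure K) ℂ_[p],
    (∀ g, ((χ g : ℂ_[p]ˣ) : ℂ_[p]) * (ν g : ℂ_[p]ˣ) = zp p (om g : ℤ_[p]ˣ)) → (∃ g, ν g ≠ 1) →
  ∀ (O : Type) [CommRing O] [IsDomain O] [Algebra ℤ_[p] O] [Module.Finite ℤ_[p] O]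
    (j : O →+* ℂ_[p]) (c cn : (AlgebraicClosure K ≃ₐ[K] AlgebraicClosure K) → O),
    Coef χ ν O j c cn →
  ∃ (gt : AlgebraicClosure K ≃ₐ[K] AlgebraicClosure K) (C : ℕ), η 1 gt ≠ 1 ∧
    ∀ (E : IntermediateField K (AlgebraicClosure K)) [NumberField E] [IsGalois K E], ∃ a : ℕ,
      (∀ (x : Additive (𝓞 E)ˣ) (n : ℕ), p ^ n • x = 0 → ug E gt x = a • x) ∧
      (c gt * algebraMap ℤ_[p] O (u gt : ℤ_[p]ˣ) - (a : O)) ∣ (p : O) ^ C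

/-- **X_TW** (the tower of fields).

PROOF. *The field of `χ`:* `χ` is trivial on `Gal(Ω/F)` (`Base.cutF`); `E₀` = the fixed field of the kernel of `χ`, contained in `F`, finite over `K`, and `CutsOut χ E₀` (the kernel contains the open subgroup `Gal(Ω/F)`, so it is closed: `InfiniteGalois.fixingSubgroup_fixedField`; or inside `Gal(F/K)`; see the construction in the proof of `S_INF`, `Pool/Agent/Helper16/TH/INF.lean`, and of `CutsOut` fields elsewhere in `Helper38`). *Then* `exists_tw` (`Pool/Agent/Helper17/TH/EXT.lean`) with `s_unr`, `s_spl`, `Cyc.tower`, `Pool.Agent.Helper32.TH.d_unr`, and `RamD χ η`, which follows from `Base.dec`. -/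
def X_TW : Prop :=
  ∀ (p : ℕ) [Fact p.Prime] (K : Type) [Field K] [NumberField K] (Lg : IwasawaLog p ℂ_[p])
    (η : ℕ → Chr K (AlgebraicClosure K) ℂ_[p])
    (om u : (AlgebraicClosure K ≃ₐ[K] AlgebraicClosure K) →* ℤ_[p]ˣ), Cyc η om u →
  ∀ (χ ν : Chr K (AlgebraicClosure K) ℂ_[p]) (F : IntermediateField K (AlgebraicClosure K))
    [NumberField F] [IsGalois K F] (B : Set (K →+* ℂ_[p])), Base Lg om χ ν F B →
  ∃ (E : ℕ → IntermediateField K (AlgebraicClosure K)) (_ : ∀ m, NumberField (E m))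
    (_ : ∀ m, IsGalois K (E m)) (g₀ : AlgebraicClosure K ≃ₐ[K] AlgebraicClosure K), Tw χ η E g₀

/-- **X_LEV** (the polynomials `D` for all levels). Prove `S_TEXP → X_INS → X_GT → X_UPW → X_LEV`.

PROOF. Compare `tw_main` in `Pool/Agent/Helper17/TH/MAIN.lean`. `χ` has finite order `d` (trivial on `Gal(Ω/F)`, `d = [F:K]`). `exists_ring χ d` gives `O, j, c`; put `cn g = algebraMap (om g) * c(g⁻¹)`: `Coef χ ν O j c cn` (`Base.mul`). `ν ≠ 1` by `Base.dec'` (there is a `τ : Ω → ℂ_p`). `gt`, `C` from `X_GT`; `CG` from `Pool.Agent.Helper31.TH.s_gen`; `b` from `S_TEXP` for `E` (`Tw.cut`). `N = (b + C) (p CG)^(rank O)`. For `m` let `A` = units of `E m`, `act = ug (E m)`, `ℓs` = the `logUnits Lg τ`, `τ` above `Bᶜ`. `TwAct` with the character `η m`: `Acts` as in `tw_main` (`ug_mul`, `ug_fix`, `tow_gen` for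
`gt`), `u_one`, `u_eta` from `Cyc.u_one`, `Cyc.cut`; `u_gt` from `X_UPW` (`η 1 gt ≠ 1` gives `¬ p² ∣ u(gt) - 1` by `Cyc.cut`); `eta_gt` from `tow_one`. `hexp` is `S_TEXP` with `k = m + 1`. The rationality is `Pool.Agent.Helper94.RP.s_rat` for `above Bᶜ`, which is place closed (`Pool.Agent.Helper40.SD.Z_PC.t`, `closed_above`). `X_INS` gives `D`. If `θ` is trivial on the kernel of `η m` and `LeopoldtFor` fails for `χ θ`, then by `s_inf` there is `v ≠ 0` in `ℂ_p ⊗ A` with `g v = χ(g) θ(g) v` and zero logarithms above `TSet ιinf ιp S`, so above `Bᶜ`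
(hypothesis on `S`); `v ∈ Wsub`, and `gt v - χ(gt) u(gt) v = χ(gt) (θ(gt) - u(gt)) v`, so `D(χ(gt) (θ(gt) - u(gt))) = 0`. -/
def X_LEV : Prop :=
  ∀ (p : ℕ) [Fact p.Prime], p ≠ 2 → ∀ (K : Type) [Field K] [NumberField K] [IsTotallyComplex K],
    SplitP p K →
  ∀ (ιinf : AlgebraicClosure K →+* ℂ) (ιp : AlgebraicClosure K →+* ℂ_[p]) (Lg : IwasawaLog p ℂ_[p])
    (η : ℕ → Chr K (AlgebraicClosure K) ℂ_[p])
    (om u : (AlgebraicClosure K ≃ₐ[K] AlgebraicClosure K) →* ℤ_[p]ˣ), Cyc η om u →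
  ∀ (χ ν : Chr K (AlgebraicClosure K) ℂ_[p]) (F : IntermediateField K (AlgebraicClosure K))
    [NumberField F] [IsGalois K F] (B : Set (K →+* ℂ_[p])), Base Lg om χ ν F B →
  ∀ S : Set (K →+* ℂ), (∀ τ : K →+* ℂ_[p], τ ∉ B → τ ∈ TSet ιinf ιp S) →
  ∀ (E : ℕ → IntermediateField K (AlgebraicClosure K)) [∀ m, NumberField (E m)]
    [∀ m, IsGalois K (E m)] (g₀ : AlgebraicClosure K ≃ₐ[K] AlgebraicClosure K), Tw χ η E g₀ →
  ∃ (gt : AlgebraicClosure K ≃ₐ[K] AlgebraicClosure K) (N : ℕ), η 1 gt ≠ 1 ∧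
    ∀ m, ∃ D : ℤ_[p][X], D.eval 0 = (p : ℤ_[p]) ^ N ∧
      ∀ θ : Chr K (AlgebraicClosure K) ℂ_[p], (∀ g, η m g = 1 → θ g = 1) →
        ¬ LeopoldtFor ιinf ιp Lg S (χ * θ) →
        D.eval₂ (zp p) (((χ gt : ℂ_[p]ˣ) : ℂ_[p]) *
          (((θ gt : ℂ_[p]ˣ) : ℂ_[p]) - zp p (u gt : ℤ_[p]ˣ))) = 0

/-- **X_ASM** (`S_DUAL`).

PROOF. Compare `dich_of` in `Pool/Agent/Helper17/TH/DICH.lean`. `X_TW` gives the tower `E`, `X_LEV` gives `gt`, `N`. `χ(gt)` is a root of unity. The set of the levels `n ≥ 1` with a bad `η n ^ b`, `p ∤ b`, has at most `N` elements: for a finite set `s` of such levels take `m = max s` and `X_CNT` with `ξ = χ(gt)`, `u = u(gt)` (`p ∣ u(gt) - 1` by `Cyc.u_one`), `ζ = η n (gt)^b` (primitive of order `p^n`: `tow_prim`). Each level has finitely many characters (`hat_cases`). -/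
def X_ASM : Prop := X_TW → X_LEV → X_CNT → S_DUAL

end Pool.Agent.Helper16.SD
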