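import Pool.Agent.Helper16.SD.Defs
import Pool.Agent.Helper17.SL.Defs
import Pool.Agent.Helper38.FY.Defs

/-!
# Project SD (MP_fc6b1e_nt): the statements of the parts (interfaces)

Paper proof: `PAPER.md` in this folder. The statements here are the outputs of the parts; every part has its own file of
goals.
-/

set_option autoImplicit false

namespace Pool.Agent.Helper16.SD

open NumberField Module IsDedekindDomain TensorProduct
open Pool.Agent.Helper51.SigLeo Pool.Agent.Helper51.RP Pool.Agent.Helper51.REC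
open Pool.Agent.Helper51.SixExp (IsUnitAlg)
open Pool.Agent.Helper42.RD (TSet)
open Pool.Agent.Helper38.FD (Chr CutsOut LeopoldtFor)
open Pool.Agent.Helper38.FW (InDec)
open Pool.Agent.Helper38.TH (IsTower Hat)
open Pool.Agent.Helper17.TH (ug exO tm)

/-! ## Part T: transcendence -/

/-- The `a ∈ E^d` with `∑ a_i c_j M_ij = 0` for all `c ∈ C`. -/
def annM {E k : Type} [Field E] [Field k] (i : E →+* k) {d l : ℕ} (M : Matrix (Fin d) (Fin l) k)
    (C : Submodule E (Fin l → E)) : Submodule E (Fin d → E) where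
  carrier := {a | ∀ c ∈ C, ∑ r, ∑ s, i (a r) * i (c s) * M r s = 0}
  add_mem' := fun {a b} ha hb c hc ↦ by
    have h1 := ha c hc
    have h2 := hb c hc
    simp only [Pi.add_apply, map_add, add_mul, Finset.sum_add_distrib, h1, h2, add_zero]
  zero_mem' := fun c _ ↦ by simp
  smul_mem' := fun r a ha c hc ↦ by
    have h1 := ha c hc
    simp only [Pi.smul_apply, smul_eq_mul, map_mul, mul_assoc, ← Finset.mul_sum] at h1 ⊢
    rw [h1, mul_zero]

/-- **S_RK** (lower bound for the rank of a matrix of `p`-adic logarithms). If `s dim C ≤ t codim Ann(C)` for all the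
`E`-subspaces `C` of `E^l`, then `s l ≤ (s + t) rank M`. -/
def S_RK : Prop := ∀ (p : ℕ) [Fact p.Prime] (k : Type) [NormedField k] [NormedAlgebra ℚ_[p] k]
  [IsUltrametricDist k] [CompleteSpace k] [CharZero k] (Ω : Type) [Field Ω] [CharZero Ω]
  [Algebra.IsAlgebraic ℚ Ω] [IsAlgClosed Ω] (ι : Ω →+* k) (Λ : IwasawaLog p k)
  (E : Type) [Field E] [NumberField E] (lam : E →+* Ω) (d l : ℕ) (R : Type) [Fintype R]
  (b : Fin d → Fin l → R → E) (y : Fin d → Fin l → R → Ωˣ) (M : Matrix (Fin d) (Fin l) k),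
  (∀ i j r, IsUnitAlg (y i j r)) →
  (∀ i j, M i j = ∑ r, ι (lam (b i j r)) * Λ.toFun (Units.map (ι : Ω →* k) (y i j r))) →
  ∀ s t : ℕ, (∀ C : Submodule E (Fin l → E),
    s * finrank E C ≤ t * (d - finrank E (annM (ι.comp lam) M C))) →
  s * l ≤ (s + t) * M.rank

/-! ## Part S: the rank bound for the `χ`-part of the units -/

/-- **S_RANK**. The `χ`-part of the units has dimension `d`, and if `χ` is moved by complex conjugation, the kernel of the
logarithms at `a` embeddings has dimension at most `d²/(a + d)`. -/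
def S_RANK : Prop :=
  ∀ (p : ℕ) [Fact p.Prime] (F₀ K : Type) [Field F₀] [NumberField F₀] [IsTotallyReal F₀] [Field K]
    [NumberField K] [IsTotallyComplex K] [Algebra F₀ K], finrank F₀ K = 2 →
  ∀ (ιinf : AlgebraicClosure K →+* ℂ) (ιp : AlgebraicClosure K →+* ℂ_[p]) (Lg : IwasawaLog p ℂ_[p])
    (F : IntermediateField K (AlgebraicClosure K)) [NumberField F] [IsGalois K F]
    (χ : Chr K (AlgebraicClosure K) ℂ_[p]), (∀ g, (∀ x ∈ F, g x = x) → χ g = 1) → χ ≠ 1 →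
    finrank ℂ_[p] (chiPart F χ) = finrank ℚ F₀ ∧
    (Moved ιinf χ → ∀ T : Finset (K →+* ℂ_[p]),
      (T.card + finrank ℚ F₀) * kd Lg F χ T ≤ finrank ℚ F₀ ^ 2)

/-! ## Part L: first inequality and lifting -/

/-- **S_LIFT**. `L/F` is cyclic of degree `p^k`, unramified outside the set `S` of primes above `p`. There is an additive
function `ϑ` on the primes of `F` with values in `ZMod (p^k)` which vanishes on the principal divisors of the elements
congruent to `1` at `S`, such that `p^(k-1) ϑ` is the Kummer character of an element `x` of `F`, not a `p`-th power in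
`F`, but a `p`-th power in `L`. -/
def S_LIFT : Prop :=
  ∀ (p : ℕ) [Fact p.Prime], p ≠ 2 → ∀ (F L : Type) [Field F] [NumberField F] [Field L] [NumberField L]
    [Algebra F L] [IsGalois F L] (ε : F), IsPrimitiveRoot ε p → IsTotallyComplex F →
  ∀ k : ℕ, 1 ≤ k → finrank F L = p ^ k → IsCyclic (L ≃ₐ[F] L) →
  ∀ S : Set (HeightOneSpectrum (𝓞 F)), S.Nonempty → (∀ W ∈ S, W.valuation F (p : F) < 1) →
    (∀ W, W ∉ S → ∀ w : HeightOneSpectrum (𝓞 L), Above w W →
      ∀ x : F, ordv w (algebraMap F L x) = ordv W x) →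
  ∃ (N : ℕ) (ϑ : HeightOneSpectrum (𝓞 F) → ZMod (p ^ k)) (x : Fˣ)
    (Z : Set (HeightOneSpectrum (𝓞 F))), Z.Finite ∧ ¬ Pw p x ∧
    (∃ y : L, y ^ p = algebraMap F L x) ∧
    (∀ v : Fˣ, Cong p S N (v : F) → dsum ϑ (v : F) = 0) ∧
    ∀ W, W ∉ Z → (p : ZMod (p ^ k)) ^ (k - 1) * ϑ W =
      (p : ZMod (p ^ k)) ^ (k - 1) * ((kap p ε W x).val : ZMod (p ^ k))

/-! ## Part J: the annihilator of the ray classes -/

/-- **S_J**. `F/K` is abelian, the logarithms at `B` are independent on the `ν`-part of the units of `F`; `e` is an element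
of `ℤ_p[Gal(F/K)]` killed by all the characters which are not conjugate to `ν` over `ℚ_p`. There is `b` such that
`p^b e` kills all the additive functions on the primes, with values in `ZMod (p^k)`, which vanish on the principal
divisors of the elements close to `1` at the places of `B`. -/
def S_J : Prop :=
  ∀ (p : ℕ) [Fact p.Prime] (K : Type) [Field K] [NumberField K], SplitP p K →
  ∀ (Lg : IwasawaLog p ℂ_[p]) (F : IntermediateField K (AlgebraicClosure K)) [NumberField F]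
    [IsGalois K F], (∀ g h : F ≃ₐ[K] F, g * h = h * g) →
  ∀ (ν : Chr K (AlgebraicClosure K) ℂ_[p]), (∀ g, (∀ x ∈ F, g x = x) → ν g = 1) →
  ∀ B : Set (K →+* ℂ_[p]), B.Nonempty → Indep Lg F ν B →
  ∀ e : (F ≃ₐ[K] F) → ℤ_[p],
    (∀ ψ : (F ≃ₐ[K] F) →* ℂ_[p]ˣ, (¬ ∃ σ : ℂ_[p] ≃ₐ[ℚ_[p]] ℂ_[p],
      ∀ g : AlgebraicClosure K ≃ₐ[K] AlgebraicClosure K,
        ((ψ (AlgEquiv.restrictNormalHom F g) : ℂ_[p]ˣ) : ℂ_[p]) = σ (ν g : ℂ_[p]ˣ)) →
      ∑ g, zp p (e g) * (ψ g : ℂ_[p]ˣ) = 0) →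
  ∃ b : ℕ, ∀ (k N : ℕ) (ϑ : HeightOneSpectrum (𝓞 F) → ZMod (p ^ k)),
    (∀ v : Fˣ, (∀ τ ∈ (above B : Set (F →+* ℂ_[p])), ‖τ (v : F) - 1‖ ≤ (1 / p : ℝ) ^ N) →
      dsum ϑ (v : F) = 0) →
    ∀ W : HeightOneSpectrum (𝓞 F), (∀ τ ∈ (above B : Set (F →+* ℂ_[p])), ¬ PrimeOf τ W) →
      (p : ZMod (p ^ k)) ^ b * ∑ g, PadicInt.toZModPow k (e g) * ϑ (gP g W) = 0

/-! ## Part D: the bounded exponent, TEXP and the duality -/

/-- The hypotheses on the base character: `F` is the field of `χ` and `om`, `χ ν = om`, `χ` and `ν` are not trivial on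
the decomposition groups above `p`, and the logarithms at `B` are independent on the `ν`-part of the units of `F`. -/
structure Base {p : ℕ} [Fact p.Prime] {K : Type} [Field K] [NumberField K] (Lg : IwasawaLog p ℂ_[p])
    (om : (AlgebraicClosure K ≃ₐ[K] AlgebraicClosure K) →* ℤ_[p]ˣ)
    (χ ν : Chr K (AlgebraicClosure K) ℂ_[p]) (F : IntermediateField K (AlgebraicClosure K))
    [Normal K F] (B : Set (K →+* ℂ_[p])) : Prop where
  cutF : CutF χ om F
  mul : ∀ g, ((χ g : ℂ_[p]ˣ) : ℂ_[p]) * (ν g : ℂ_[p]ˣ) = zp p (om g : ℤ_[p]ˣ)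
  dec : ∀ τ : AlgebraicClosure K →+* ℂ_[p], ∃ g, InDec τ g ∧ χ g ≠ 1
  dec' : ∀ τ : AlgebraicClosure K →+* ℂ_[p], ∃ g, InDec τ g ∧ ν g ≠ 1
  ne : B.Nonempty
  indep : Indep Lg F ν B

/-- The coefficient ring: `O` is finite and free over `ℤ_p`, a domain, embedded in `ℂ_p`, and contains the values of `χ`
(`c`) and of `ν` (`cn`). -/
structure Coef {p : ℕ} [Fact p.Prime] {K : Type} [Field K] (χ ν : Chr K (AlgebraicClosure K) ℂ_[p])
    (O : Type) [CommRing O] [Algebra ℤ_[p] O] (j : O →+* ℂ_[p])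
    (c cn : (AlgebraicClosure K ≃ₐ[K] AlgebraicClosure K) → O) : Prop where
  inj : Function.Injective j
  alg : ∀ x : ℤ_[p], j (algebraMap ℤ_[p] O x) = algebraMap ℚ_[p] ℂ_[p] x
  c : ∀ g, j (c g) = ((χ g : ℂ_[p]ˣ) : ℂ_[p])
  cn : ∀ g, j (cn g) = ((ν g : ℂ_[p]ˣ) : ℂ_[p])

/-- **S_BND** (bounded exponent). `Φ : Gal(Ω/F) → X` (`X` an `O`-module killed by `p^k`, with enough homomorphisms to
`ZMod (p^k)`) is a homomorphism, `ν`-equivariant, trivial on `Gal(Ω/R)` where `R/F` is finite and unramified outside `p`,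
and trivial on the decomposition groups at the places which are not in `B`. Then `p^b Φ = 0`, with `b` independent of
`k` and `Φ`. -/
def S_BND : Prop :=
  ∀ (p : ℕ) [Fact p.Prime], p ≠ 2 → ∀ (K : Type) [Field K] [NumberField K] [IsTotallyComplex K],
    SplitP p K →
  ∀ (Lg : IwasawaLog p ℂ_[p]) (η : ℕ → Chr K (AlgebraicClosure K) ℂ_[p])
    (om u : (AlgebraicClosure K ≃ₐ[K] AlgebraicClosure K) →* ℤ_[p]ˣ), Cyc η om u →
  ∀ (χ ν : Chr K (AlgebraicClosure K) ℂ_[p]) (F : IntermediateField K (AlgebraicClosure K))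
    [NumberField F] [IsGalois K F] (B : Set (K →+* ℂ_[p])), Base Lg om χ ν F B →
  ∀ (O : Type) [CommRing O] [IsDomain O] [Algebra ℤ_[p] O] [Module.Finite ℤ_[p] O]
    [Module.Free ℤ_[p] O] (j : O →+* ℂ_[p])
    (c cn : (AlgebraicClosure K ≃ₐ[K] AlgebraicClosure K) → O), Coef χ ν O j c cn →
  ∃ b : ℕ, ∀ (k : ℕ) (X : Type) [AddCommGroup X] [Module O X], (∀ x : X, p ^ k • x = 0) →
    (∀ x : X, x ≠ 0 → ∃ l : X →+ ZMod (p ^ k), l x ≠ 0) →
  ∀ (Φ : (AlgebraicClosure K ≃ₐ[K] AlgebraicClosure K) → X)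
    (R : IntermediateField K (AlgebraicClosure K)) [NumberField R] [IsGalois K R], F ≤ R →
    (∀ g h, (∀ x ∈ F, g x = x) → (∀ x ∈ F, h x = x) → Φ (g * h) = Φ g + Φ h) →
    (∀ g h, (∀ x ∈ F, h x = x) → Φ (g * h * g⁻¹) = cn g • Φ h) →
    (∀ g, (∀ x ∈ R, g x = x) → Φ g = 0) →
    (∀ W : HeightOneSpectrum (𝓞 R), W.valuation R (p : R) = 1 →
      ∃ π : R, (π : AlgebraicClosure K) ∈ F ∧ ordv W π = 1) →
    (∀ τ : AlgebraicClosure K →+* ℂ_[p],
      τ.comp (algebraMap K (AlgebraicClosure K)) ∉ B → ∀ g, (∀ x ∈ F, g x = x) → InDec τ g →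
        Φ g = 0) →
    ∀ g, (∀ x ∈ F, g x = x) → p ^ b • Φ g = 0

/-- **S_TEXP**. The exponent of the twisted congruences in the levels of the cyclotomic tower is bounded. -/
def S_TEXP : Prop :=
  ∀ (p : ℕ) [Fact p.Prime], p ≠ 2 → ∀ (K : Type) [Field K] [NumberField K] [IsTotallyComplex K],
    SplitP p K →
  ∀ (Lg : IwasawaLog p ℂ_[p]) (η : ℕ → Chr K (AlgebraicClosure K) ℂ_[p])
    (om u : (AlgebraicClosure K ≃ₐ[K] AlgebraicClosure K) →* ℤ_[p]ˣ), Cyc η om u →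
  ∀ (χ ν : Chr K (AlgebraicClosure K) ℂ_[p]) (F : IntermediateField K (AlgebraicClosure K))
    [NumberField F] [IsGalois K F] (B : Set (K →+* ℂ_[p])), Base Lg om χ ν F B →
  ∀ (O : Type) [CommRing O] [IsDomain O] [Algebra ℤ_[p] O] [Module.Finite ℤ_[p] O]
    [Module.Free ℤ_[p] O] (j : O →+* ℂ_[p])
    (c cn : (AlgebraicClosure K ≃ₐ[K] AlgebraicClosure K) → O), Coef χ ν O j c cn →
  ∀ (E : ℕ → IntermediateField K (AlgebraicClosure K)) [∀ m, NumberField (E m)]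
    [∀ m, IsGalois K (E m)], (∀ m g, (∀ x ∈ E m, g x = x) ↔ χ g = 1 ∧ η m g = 1) →
  ∃ b : ℕ, ∀ (m k : ℕ), k ≤ m + 1 → ∀ z : O ⊗[ℤ] Additive (𝓞 (E m))ˣ,
    (∀ τ ∈ (above Bᶜ : Set (E m →+* ℂ_[p])),
      extHom (logUnits Lg τ) (tm j (Additive (𝓞 (E m))ˣ) z) = 0) →
    (∀ g, ∃ y : O ⊗[ℤ] Additive (𝓞 (E m))ˣ,
      exO O (ug (E m) g) z - (c g * algebraMap ℤ_[p] O (u g : ℤ_[p]ˣ)) • z = p ^ k • y) →
    ∃ y : O ⊗[ℤ] Additive (𝓞 (E m))ˣ, p ^ b • z = p ^ k • y

/-- **S_DUAL** (duality). If the logarithms at `B` are independent on the `ν`-part, then, for all but finitely many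
characters `θ` of the cyclotomic tower, the logarithms at the embeddings not in `B` are jointly injective on the
`χ θ`-part. -/
def S_DUAL : Prop :=
  ∀ (p : ℕ) [Fact p.Prime], p ≠ 2 → ∀ (K : Type) [Field K] [NumberField K] [IsTotallyComplex K],
    SplitP p K →
  ∀ (ιinf : AlgebraicClosure K →+* ℂ) (ιp : AlgebraicClosure K →+* ℂ_[p]) (Lg : IwasawaLog p ℂ_[p])
    (η : ℕ → Chr K (AlgebraicClosure K) ℂ_[p])
    (om u : (AlgebraicClosure K ≃ₐ[K] AlgebraicClosure K) →* ℤ_[p]ˣ), Cyc η om u →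
  ∀ (χ ν : Chr K (AlgebraicClosure K) ℂ_[p]) (F : IntermediateField K (AlgebraicClosure K))
    [NumberField F] [IsGalois K F] (B : Set (K →+* ℂ_[p])), Base Lg om χ ν F B →
  ∀ S : Set (K →+* ℂ), (∀ τ : K →+* ℂ_[p], τ ∉ B → τ ∈ TSet ιinf ιp S) →
    {θ | θ ∈ Hat η ∧ ¬ LeopoldtFor ιinf ιp Lg S (χ * θ)}.Finite

end Pool.Agent.Helper16.SD
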